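import Pool.Agent.H239R2.Cover.Stationary

namespace Pool.Agent.H239R2.Cover

open Matrix Finset
open scoped MatrixOrder

set_option linter.unusedSectionVars false

variable {ι J : Type} [Fintype ι] [DecidableEq ι] [Fintype J]

theorem qf_add (R : Matrix ι ι ℝ) (hR : R.IsHermitian) (x y : ι → ℝ) :
    qf R (x + y) = qf R x + 2 * (y ⬝ᵥ (R *ᵥ x)) + qf R y := by
  have hsymm : x ⬝ᵥ (R *ᵥ y) = y ⬝ᵥ (R *ᵥ x) := by
    rw [dotProduct_mulVec, ← Matrix.mulVec_transpose]
    have : Rᵀ = R := by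
      ext k l
      have := hR.apply k l
      simpa using this
    rw [this, dotProduct_comm]
  unfold qf
  rw [mulVec_add, add_dotProduct, dotProduct_add, dotProduct_add, hsymm]
  ring

/-- Approximate covering: every `t` is within an integral translate of the (slightly enlarged)
zonotope. -/
theorem covering_approx (μ : J → ℝ) (hμ : ∀ j, 0 < μ j) (hs : ∑ j, μ j = 1)
    (b : J → ι → ι → ℤ) (hb : ∀ j, (Matrix.of (b j)).det ≠ 0) (t : ι → ℝ) (ε : ℝ) (hε : 0 < ε) :
    ∃ (a : ι → ℤ) (τ : J → ι → ℝ),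
      (∀ j i, |τ j i| ≤ μ j / 2 * (1 + ε)) ∧
      t - rv a = ∑ j, ∑ i, τ j i • rv (b j i) := by
  classical
  obtain ⟨Q, hQ, hQr⟩ := exists_near_stationary μ hμ hs b hb (ε / 2) (by linarith)
  set P := grad μ b Q with hPdef
  have hP : P.PosDef := grad_posDef μ hμ hs b hb Q hQ
  have hR : P⁻¹.PosDef := hP.inv
  have hPunit : IsUnit P.det := (Matrix.isUnit_iff_isUnit_det _).mp hP.isUnit
  have hq : ∀ j i, 0 < qf Q (rv (b j i)) := fun j i => qf_pos hQ (rv_ne_zero (hb j) i)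
  -- a positive lower bound for the values `q(b)`
  obtain ⟨c, hc0, hc⟩ : ∃ c : ℝ, 0 < c ∧ ∀ j i, c ≤ qf Q (rv (b j i)) := by
    rcases isEmpty_or_nonempty (J × ι) with h | h
    · exact ⟨1, one_pos, fun j i => (h.false (j, i)).elim⟩
    · obtain ⟨x₀, _, hx₀⟩ := Finset.exists_min_image (Finset.univ : Finset (J × ι))
        (fun x => qf Q (rv (b x.1 x.2))) (Finset.univ_nonempty_iff.mpr h)
      exact ⟨_, hq x₀.1 x₀.2, fun j i => hx₀ (j, i) (Finset.mem_univ _)⟩
  -- an almost closest lattice vector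
  set S : Set ℝ := {y | ∃ a : ι → ℤ, y = qf P⁻¹ (t - rv a)} with hS
  have hSne : S.Nonempty := ⟨_, 0, rfl⟩
  have hSbdd : BddBelow S := ⟨0, by
    rintro y ⟨a, rfl⟩
    exact qf_nonneg hR.posSemidef _⟩
  obtain ⟨y, ⟨a, rfl⟩, hy⟩ := exists_lt_of_csInf_lt hSne
    (show sInf S < sInf S + c * (ε / 2) by
      have : 0 < c * (ε / 2) := by positivity
      linarith)
  have hmin : ∀ a' : ι → ℤ, qf P⁻¹ (t - rv a) ≤ qf P⁻¹ (t - rv a') + c * (ε / 2) := by
    intro a'
    have : sInf S ≤ qf P⁻¹ (t - rv a') := csInf_le hSbdd ⟨a', rfl⟩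
    linarith
  set u : ι → ℝ := P⁻¹ *ᵥ (t - rv a) with hu
  have hbound : ∀ x : ι → ℤ, |rv x ⬝ᵥ u| ≤ (qf P⁻¹ (rv x) + c * (ε / 2)) / 2 := by
    intro x
    have h1 := hmin (a - x)
    have e1 : t - rv (a - x) = (t - rv a) + rv x := by
      ext k; simp [rv]; ring
    rw [e1, qf_add _ hR.isHermitian] at h1
    have h2 := hmin (a + x)
    have e2 : t - rv (a + x) = (t - rv a) + (-rv x) := by
      ext k; simp [rv]; ring
    rw [e2, qf_add _ hR.isHermitian] at h2
    have e3 : qf P⁻¹ (-rv x) = qf P⁻¹ (rv x) := by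
      unfold qf; rw [mulVec_neg, neg_dotProduct, dotProduct_neg, neg_neg]
    rw [e3, neg_dotProduct] at h2
    rw [← hu] at h1 h2
    rw [abs_le]
    constructor <;> linarith
  refine ⟨a, fun j i => (μ j / qf Q (rv (b j i))) * (rv (b j i) ⬝ᵥ u), ?_, ?_⟩
  · intro j i
    have hpos : 0 < μ j / qf Q (rv (b j i)) := div_pos (hμ j) (hq j i)
    rw [abs_mul, abs_of_pos hpos]
    calc μ j / qf Q (rv (b j i)) * |rv (b j i) ⬝ᵥ u|
        ≤ μ j / qf Q (rv (b j i)) * (((1 + ε / 2) * qf Q (rv (b j i))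
            + qf Q (rv (b j i)) * (ε / 2)) / 2) := by
          refine mul_le_mul_of_nonneg_left ?_ hpos.le
          refine (hbound (b j i)).trans ?_
          have h3 := hQr j i
          have h4 : c * (ε / 2) ≤ qf Q (rv (b j i)) * (ε / 2) :=
            mul_le_mul_of_nonneg_right (hc j i) (by linarith)
          linarith
      _ = μ j / 2 * (1 + ε) := by
          have := (hq j i).ne'
          field_simp
          ring
  · have h5 : P *ᵥ u = t - rv a := by
      rw [hu, Matrix.mulVec_mulVec, Matrix.mul_nonsing_inv _ hPunit, one_mulVec]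
    rw [← h5, hPdef, grad_mulVec]

/-- **Covering theorem.** Let `μ_j > 0`, `∑ μ_j = 1`, and let each `(b_{ji})_i` be a linearly
independent system of integer vectors. Then every real vector `t` is the sum of an integer
vector and of `∑ τ_{ji} b_{ji}` with `|τ_{ji}| ≤ μ_j / 2`. -/
theorem covering (μ : J → ℝ) (hμ : ∀ j, 0 < μ j) (hs : ∑ j, μ j = 1)
    (b : J → ι → ι → ℤ) (hb : ∀ j, (Matrix.of (b j)).det ≠ 0) (t : ι → ℝ) :
    ∃ (a : ι → ℤ) (τ : J → ι → ℝ),
      (∀ j i, |τ j i| ≤ μ j / 2) ∧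
      t - rv a = ∑ j, ∑ i, τ j i • rv (b j i) := by
  classical
  -- approximate solutions
  have happ : ∀ k : ℕ, ∃ (τ : J → ι → ℝ),
      (∀ j i, |τ j i| ≤ μ j / 2 * (1 + 1 / ((k : ℝ) + 1))) ∧
      ∃ a : ι → ℤ, t - rv a = ∑ j, ∑ i, τ j i • rv (b j i) := by
    intro k
    obtain ⟨a, τ, h1, h2⟩ := covering_approx μ hμ hs b hb t (1 / ((k : ℝ) + 1)) (by positivity)
    exact ⟨τ, h1, a, h2⟩
  choose τ hτ hτa using happ
  have hμ1 : ∀ j, μ j ≤ 1 := fun j => by
    rw [← hs]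
    exact Finset.single_le_sum (f := μ) (fun j _ => (hμ j).le) (Finset.mem_univ j)
  have hcomp : IsCompact (Set.pi Set.univ
      (fun _ : J => Set.pi Set.univ (fun _ : ι => Set.Icc (-1:ℝ) 1))) :=
    isCompact_univ_pi fun _ => isCompact_univ_pi fun _ => isCompact_Icc
  have hmem : ∀ k, τ k ∈ Set.pi Set.univ
      (fun _ : J => Set.pi Set.univ (fun _ : ι => Set.Icc (-1:ℝ) 1)) := by
    intro k j _ i _
    have h1 := hτ k j i
    have h2 : 1 / ((k : ℝ) + 1) ≤ 1 := by
      rw [div_le_one (by positivity)]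
      have : (0:ℝ) ≤ k := Nat.cast_nonneg k
      linarith
    have h3 : μ j / 2 * (1 + 1 / ((k : ℝ) + 1)) ≤ 1 := by
      have h4 : (0:ℝ) ≤ 1 / ((k : ℝ) + 1) := by positivity
      have := hμ1 j
      have := hμ j
      nlinarith
    exact abs_le.mp (h1.trans h3)
  obtain ⟨σ, hσ, φ, hφ, hlim⟩ := hcomp.tendsto_subseq hmem
  have hlim' : ∀ j i, Filter.Tendsto (fun k => τ (φ k) j i) Filter.atTop (nhds (σ j i)) := by
    intro j i
    have h1 := (tendsto_pi_nhds.mp hlim) j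
    exact (tendsto_pi_nhds.mp h1) i
  -- the coefficient bound
  have hbd : ∀ j i, |σ j i| ≤ μ j / 2 := by
    intro j i
    have h1 : Filter.Tendsto (fun k => |τ (φ k) j i|) Filter.atTop (nhds |σ j i|) :=
      (hlim' j i).abs
    have h2 : Filter.Tendsto (fun k : ℕ => μ j / 2 * (1 + 1 / (((φ k : ℕ) : ℝ) + 1)))
        Filter.atTop (nhds (μ j / 2 * (1 + 0))) := by
      refine Filter.Tendsto.const_mul _ (Filter.Tendsto.const_add _ ?_)
      exact (tendsto_one_div_add_atTop_nhds_zero_nat (𝕜 := ℝ)).comp hφ.tendsto_atTop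
    rw [add_zero, mul_one] at h2
    exact le_of_tendsto_of_tendsto' h1 h2 (fun k => hτ (φ k) j i)
  -- integrality passes to the limit
  have hclosed : IsClosed {x : ι → ℝ | ∀ k, x k ∈ Set.range (Int.cast : ℤ → ℝ)} := by
    have : {x : ι → ℝ | ∀ k, x k ∈ Set.range (Int.cast : ℤ → ℝ)}
        = ⋂ k, (fun x : ι → ℝ => x k) ⁻¹' (Set.range (Int.cast : ℤ → ℝ)) := by
      ext x; simp
    rw [this]
    exact isClosed_iInter fun k =>
      Int.isClosedEmbedding_coe_real.isClosed_range.preimage (continuous_apply k)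
  have hlimv : Filter.Tendsto (fun k => t - ∑ j, ∑ i, τ (φ k) j i • rv (b j i))
      Filter.atTop (nhds (t - ∑ j, ∑ i, σ j i • rv (b j i))) := by
    refine Filter.Tendsto.sub tendsto_const_nhds ?_
    refine tendsto_finsetSum _ fun j _ => tendsto_finsetSum _ fun i _ => ?_
    exact (hlim' j i).smul_const _
  have hint : (t - ∑ j, ∑ i, σ j i • rv (b j i)) ∈
      {x : ι → ℝ | ∀ k, x k ∈ Set.range (Int.cast : ℤ → ℝ)} := by
    refine hclosed.mem_of_tendsto hlimv (Filter.Eventually.of_forall fun k => ?_)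
    obtain ⟨a, ha⟩ := hτa (φ k)
    intro l
    refine ⟨a l, ?_⟩
    rw [← ha]
    simp [rv]
  choose a ha using hint
  refine ⟨a, σ, hbd, ?_⟩
  have : rv a = t - ∑ j, ∑ i, σ j i • rv (b j i) := by
    ext k; exact ha k
  rw [this]
  abel

end Pool.Agent.H239R2.Cover
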