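import Pool.Agent.H239R2.Cover.Round

set_option autoImplicit false

namespace Pool.Agent.H239R2.Cover

open Matrix Finset

set_option linter.unusedSectionVars false

variable {ι E : Type} [Fintype ι] [DecidableEq ι] [Fintype E] [DecidableEq E]

/-- If all maximal minors of a spanning configuration are `0` or `±1`, it is unimodular. -/
theorem unimod_of_minors (x : E → ι → ℤ)
    (hmin : ∀ c : ι → E, (Matrix.of (fun i => x (c i))).det = 0 ∨
      IsUnit (Matrix.of (fun i => x (c i))).det)
    (hspan : Submodule.span ℝ (Set.range (fun e => rv (x e))) = ⊤) : Unimod x := by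
  classical
  intro I hI s ⟨a, ha⟩
  -- extend `I` to a basis
  obtain ⟨B, hIB, -, hBspan, hBind⟩ :
      ∃ B : Set E, (I : Set E) ⊆ B ∧ B ⊆ Set.univ ∧
        (∀ e, rv (x e) ∈ Submodule.span ℝ ((fun e => rv (x e)) '' B)) ∧
        LinearIndepOn ℝ (fun e => rv (x e)) B := by
    obtain ⟨B, h1, h2, h3, h4⟩ := exists_linearIndepOn_extension hI (Set.subset_univ (I : Set E))
    exact ⟨B, h2, h1, fun e => h3 ⟨e, Set.mem_univ e, rfl⟩, h4⟩
  have hspanB : Submodule.span ℝ ((fun e => rv (x e)) '' B) = ⊤ := by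
    rw [eq_top_iff, ← hspan, Submodule.span_le]
    rintro _ ⟨e, rfl⟩
    exact hBspan e
  have : Fintype B := Fintype.ofFinite B
  have hbasis := Module.Basis.mk (v := fun e : B => rv (x e)) hBind (by
    have : Set.range (fun e : B => rv (x e)) = (fun e => rv (x e)) '' B := by
      rw [Set.image_eq_range]
    rw [this, hspanB])
  have hcard : Fintype.card B = Fintype.card ι := by
    have h1 := Module.finrank_eq_card_basis hbasis
    rw [Module.finrank_fintype_fun_eq_card] at h1
    exact h1.symm
  let φ : ι ≃ B := (Fintype.equivOfCardEq hcard).symm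
  set N : Matrix ι ι ℤ := Matrix.of (fun i => x (φ i)) with hN
  have hNR : (N.map (Int.cast : ℤ → ℝ)).det = ((N.det : ℤ) : ℝ) :=
    (Int.cast_det (R := ℝ) N).symm
  have hdet : N.det ≠ 0 := by
    intro h0
    have h2 : LinearIndependent ℝ ((N.map (Int.cast : ℤ → ℝ)).row) :=
      (show LinearIndependent ℝ (fun e : B => rv (x e)) from hBind).comp φ φ.injective
    rw [Matrix.linearIndependent_rows_iff_isUnit, Matrix.isUnit_iff_isUnit_det,
      isUnit_iff_ne_zero, hNR, h0] at h2
    simp at h2
  have hunit : IsUnit N.det := by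
    rcases hmin (fun i => (φ i : E)) with h | h
    · exact absurd h hdet
    · exact h
  -- the coefficient vector, extended by zero
  let s' : ι → ℝ := fun i => if (φ i : E) ∈ I then s (φ i) else 0
  have hs' : s' ᵥ* (N.map (Int.cast : ℤ → ℝ)) = rv a := by
    rw [← ha]
    ext k
    simp only [vecMul, dotProduct, Finset.sum_apply, Pi.smul_apply, smul_eq_mul]
    have e1 : ∑ i, s' i * (N.map (Int.cast : ℤ → ℝ)) i k
        = ∑ y : B, (if (y : E) ∈ I then s y else 0) * rv (x y) k := by
      rw [← Equiv.sum_comp φ]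
      rfl
    rw [e1]
    have e2 : ∑ y : B, (if (y : E) ∈ I then s y else 0) * rv (x y) k
        = ∑ e ∈ B.toFinset, (if e ∈ I then s e else 0) * rv (x e) k := by
      exact (Finset.sum_subtype (p := fun e => e ∈ B) B.toFinset
        (by intro e; exact Set.mem_toFinset)
        (fun e => (if e ∈ I then s e else 0) * rv (x e) k)).symm
    rw [e2]
    have hsub : I ⊆ B.toFinset := by
      intro e he
      rw [Set.mem_toFinset]
      exact hIB he
    rw [← Finset.sum_subset hsub]
    · exact Finset.sum_congr rfl fun e he => by rw [if_pos he]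
    · intro e _ he
      rw [if_neg he, zero_mul]
  have hinv : s' = rv (a ᵥ* N⁻¹) := by
    have h1 : N * N⁻¹ = 1 := Matrix.mul_nonsing_inv N hunit
    have h2 : (N.map (Int.cast : ℤ → ℝ)) * (N⁻¹.map (Int.cast : ℤ → ℝ)) = 1 := by
      have h3 : (N.map (Int.castRingHom ℝ)) * (N⁻¹.map (Int.castRingHom ℝ)) = 1 := by
        rw [← Matrix.map_mul, h1]
        ext i j
        rw [Matrix.map_apply, Matrix.one_apply, Matrix.one_apply]
        split_ifs <;> simp
      exact h3
    have h3 : s' = s' ᵥ* ((N.map (Int.cast : ℤ → ℝ)) * (N⁻¹.map (Int.cast : ℤ → ℝ))) := by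
      rw [h2, vecMul_one]
    rw [h3, ← vecMul_vecMul, hs']
    ext k
    simp [vecMul, dotProduct, rv]
  intro e he
  have heB : e ∈ B := hIB he
  refine ⟨(a ᵥ* N⁻¹) (φ.symm ⟨e, heB⟩), ?_⟩
  have h4 := congrFun hinv (φ.symm ⟨e, heB⟩)
  simp only [s', Equiv.apply_symm_apply, if_pos he] at h4
  exact h4

end Pool.Agent.H239R2.Cover
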