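import Mathlib

namespace Pool.Agent.H239R2.Cover

open Matrix Finset
open scoped MatrixOrder

set_option linter.unusedSectionVars false

variable {ι : Type} [Fintype ι] [DecidableEq ι]

/-- AM–GM for the eigenvalues of a positive semidefinite matrix whose trace is its size. -/
theorem det_le_one_of_trace (S : Matrix ι ι ℝ) (hS : S.PosSemidef)
    (ht : S.trace = Fintype.card ι) : S.det ≤ 1 := by
  have h1 := hS.isHermitian.det_eq_prod_eigenvalues
  have h2 := hS.isHermitian.trace_eq_sum_eigenvalues
  simp only [RCLike.ofReal_real_eq_id, id_eq] at h1 h2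
  rw [h1]
  calc ∏ i, hS.isHermitian.eigenvalues i
      ≤ ∏ i, Real.exp (hS.isHermitian.eigenvalues i - 1) := by
        apply Finset.prod_le_prod
        · intro i _; exact hS.eigenvalues_nonneg i
        · intro i _
          have := Real.add_one_le_exp (hS.isHermitian.eigenvalues i - 1)
          linarith
    _ = Real.exp (∑ i, (hS.isHermitian.eigenvalues i - 1)) := by
        rw [Real.exp_sum]
    _ = 1 := by
        rw [Finset.sum_sub_distrib, ← h2, ht]
        simp

/-- If `P` and `Q` are positive semidefinite and `tr (P Q)` is the size, then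
`det P * det Q ≤ 1`. -/
theorem det_mul_le_one (P Q : Matrix ι ι ℝ) (hP : P.PosSemidef) (hQ : Q.PosSemidef)
    (ht : (P * Q).trace = Fintype.card ι) : P.det * Q.det ≤ 1 := by
  obtain ⟨B, hB⟩ := CStarAlgebra.nonneg_iff_eq_star_mul_self.mp hQ.nonneg
  rw [star_eq_conjTranspose] at hB
  have h1 : (B * P * Bᴴ).PosSemidef := hP.mul_mul_conjTranspose_same B
  have h2 : (B * P * Bᴴ).trace = Fintype.card ι := by
    rw [← ht, hB, Matrix.mul_assoc, Matrix.trace_mul_comm, Matrix.mul_assoc]
  have h3 := det_le_one_of_trace _ h1 h2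
  rw [det_mul, det_mul, det_conjTranspose] at h3
  rw [hB, det_mul, det_conjTranspose]
  simp only [star_trivial] at h3 ⊢
  linarith

/-- The value of the quadratic form with matrix `Q` at `x`. -/
noncomputable def qf (Q : Matrix ι ι ℝ) (x : ι → ℝ) : ℝ := x ⬝ᵥ (Q *ᵥ x)

theorem qf_pos {Q : Matrix ι ι ℝ} (hQ : Q.PosDef) {x : ι → ℝ} (hx : x ≠ 0) : 0 < qf Q x := by
  have := hQ.dotProduct_mulVec_pos hx
  simpa [qf] using this

theorem qf_nonneg {Q : Matrix ι ι ℝ} (hQ : Q.PosSemidef) (x : ι → ℝ) : 0 ≤ qf Q x := by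
  have := hQ.dotProduct_mulVec_nonneg x
  simpa [qf] using this

/-- Hadamard's inequality in the form needed: for an integral nonsingular system of vectors,
`log det Q ≤ ∑ log q(b_i)`. -/
theorem log_det_le (Q : Matrix ι ι ℝ) (hQ : Q.PosDef) (b : ι → ι → ℤ)
    (hb : (Matrix.of b).det ≠ 0) :
    Real.log Q.det ≤ ∑ i, Real.log (qf Q (fun k => (b i k : ℝ))) := by
  classical
  set B : Matrix ι ι ℝ := (Matrix.of b).map (Int.cast : ℤ → ℝ) with hBdef
  have hBdet : B.det = (((Matrix.of b).det : ℤ) : ℝ) := by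
    rw [hBdef]
    exact (Int.cast_det (R := ℝ) (Matrix.of b)).symm
  have hBne : B.det ≠ 0 := by rw [hBdet]; exact_mod_cast hb
  have hrow : ∀ i, (fun k => (b i k : ℝ)) = B i := fun i => rfl
  have hrowne : ∀ i, B i ≠ 0 := by
    intro i h0
    exact hBne (det_eq_zero_of_row_eq_zero i (fun j => by rw [h0]; rfl))
  have hd : ∀ i, 0 < qf Q (B i) := fun i => qf_pos hQ (hrowne i)
  set d : ι → ℝ := fun i => qf Q (B i) with hddef
  -- the Gram matrix
  have hG : (B * Q * Bᴴ).PosSemidef := hQ.posSemidef.mul_mul_conjTranspose_same B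
  have hD : (Matrix.diagonal (fun i => (d i)⁻¹)).PosSemidef := by
    rw [Matrix.posSemidef_diagonal_iff]
    intro i
    exact (inv_pos.mpr (hd i)).le
  have htr : (Matrix.diagonal (fun i => (d i)⁻¹) * (B * Q * Bᴴ)).trace = Fintype.card ι := by
    rw [Matrix.trace]
    simp only [diag_apply, diagonal_mul]
    have : ∀ i, (B * Q * Bᴴ) i i = d i := by
      intro i
      simp only [hddef, qf, dotProduct, mulVec, Matrix.mul_apply, conjTranspose_apply,
        star_trivial, Finset.sum_mul, Finset.mul_sum]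
      rw [Finset.sum_comm]
      refine Finset.sum_congr rfl fun x _ => Finset.sum_congr rfl fun y _ => by ring
    simp only [this]
    rw [Finset.sum_congr rfl (fun i _ => inv_mul_cancel₀ (hd i).ne')]
    simp
  have h := det_mul_le_one _ _ hD hG htr
  rw [det_diagonal, det_mul, det_mul, det_conjTranspose, star_trivial] at h
  have hprod : (0:ℝ) < ∏ i, (d i)⁻¹ := Finset.prod_pos fun i _ => inv_pos.mpr (hd i)
  have hprod' : (0:ℝ) < ∏ i, d i := Finset.prod_pos fun i _ => hd i
  have hsq : (1:ℝ) ≤ B.det * B.det := by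
    rw [hBdet]
    have h1 : (1:ℤ) ≤ (Matrix.of b).det * (Matrix.of b).det := by
      have := mul_self_pos.mpr hb
      omega
    exact_mod_cast h1
  have hQdet : 0 < Q.det := hQ.det_pos
  have h2 : Q.det ≤ ∏ i, d i := by
    rw [Finset.prod_inv_distrib] at h
    have h3 : B.det * Q.det * B.det ≤ ∏ i, d i := by
      have := mul_le_mul_of_nonneg_left h hprod'.le
      rwa [← mul_assoc, mul_inv_cancel₀ hprod'.ne', one_mul, mul_one] at this
    nlinarith
  calc Real.log Q.det ≤ Real.log (∏ i, d i) := Real.log_le_log hQdet h2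
    _ = ∑ i, Real.log (d i) := Real.log_prod (fun i _ => (hd i).ne')
    _ = ∑ i, Real.log (qf Q (fun k => (b i k : ℝ))) := by
        refine Finset.sum_congr rfl fun i _ => ?_
        rw [hrow]

end Pool.Agent.H239R2.Cover
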