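import Pool.Agent.H239R2.Cover.Potential

set_option autoImplicit false

/-!
The covering theorem for the cographic configuration of a sparse multigraph.
-/

namespace Pool.Agent.H239R2.Cover

open Finset Matrix
open Pool.Agent.Helper879.ECD (sp)

set_option linter.unusedSectionVars false

/-- From a spanning subfamily over `ℚ` one can select a basis. -/
theorem exists_basis_of_spanQ {ι E : Type} [Fintype ι] [DecidableEq ι] [DecidableEq E]
    (x : E → ι → ℤ) (I : Finset E)
    (hI : Submodule.span ℚ ((fun e => (fun i => (x e i : ℚ))) '' (I : Set E)) = ⊤) :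
    ∃ c : ι → E, Function.Injective c ∧ (∀ i, c i ∈ I) ∧
      (Matrix.of (fun i => x (c i))).det ≠ 0 := by
  classical
  obtain ⟨b, hbs, hbspan, hbind⟩ :=
    exists_linearIndependent ℚ ((fun e => (fun i => (x e i : ℚ))) '' (I : Set E))
  rw [hI] at hbspan
  have hbfin : b.Finite := (Set.Finite.image _ (Finset.finite_toSet I)).subset hbs
  have : Fintype b := hbfin.fintype
  have hbasis := Module.Basis.mk hbind (by
    rw [Subtype.range_coe_subtype]
    simp only [Set.ofPred_mem_eq]
    exact hbspan.ge)
  have hcard : Fintype.card b = Fintype.card ι := by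
    have h1 := Module.finrank_eq_card_basis hbasis
    rw [Module.finrank_fintype_fun_eq_card] at h1
    exact h1.symm
  let φ : ι ≃ b := (Fintype.equivOfCardEq hcard).symm
  have hpre : ∀ y : b, ∃ e ∈ I, (fun i => (x e i : ℚ)) = y := by
    intro y
    obtain ⟨e, he, hey⟩ := hbs y.2
    exact ⟨e, he, hey⟩
  choose g hgI hg using hpre
  refine ⟨fun i => g (φ i), ?_, fun i => hgI _, ?_⟩
  · intro i j hij
    apply φ.injective
    apply Subtype.ext
    rw [← hg (φ i), ← hg (φ j)]
    simp only at hij
    rw [hij]
  · intro hdet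
    have hlin : LinearIndependent ℚ (fun i => (fun k => (x (g (φ i)) k : ℚ))) := by
      have h1 : (fun i => (fun k => (x (g (φ i)) k : ℚ))) = (fun y : b => (y : ι → ℚ)) ∘ φ := by
        funext i
        simp only [Function.comp]
        exact hg (φ i)
      rw [h1]
      exact hbind.comp φ φ.injective
    have h2 : LinearIndependent ℚ (((Matrix.of (fun i => x (g (φ i)))).map
        (Int.cast : ℤ → ℚ)).row) := hlin
    rw [Matrix.linearIndependent_rows_iff_isUnit, Matrix.isUnit_iff_isUnit_det,
      isUnit_iff_ne_zero] at h2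
    apply h2
    have h3 : ((Matrix.of (fun i => x (g (φ i)))).map (Int.cast : ℤ → ℚ)).det
        = (((Matrix.of (fun i => x (g (φ i)))).det : ℤ) : ℚ) :=
      (Int.cast_det (R := ℚ) (Matrix.of (fun i => x (g (φ i))))).symm
    rw [h3, hdet]
    simp

variable {V E : Type} [Fintype V] [DecidableEq V] [Fintype E] [DecidableEq E]

/-- The incidence vector of an edge over the rationals. -/
def incQ (src dst : E → V) (e : E) : V → ℚ := fun v =>
  (if src e = v then 1 else 0) - (if dst e = v then 1 else 0)

/-- **Covering for cographic configurations.** If every set `A` of edges satisfies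
`m |A| ≤ m rk(A) + |A|`, then every real function on the edges is, up to `1/(2m)`, the sum of
an integral function and of the difference of a potential. -/
theorem cographic_covering (src dst : E → V) (m : ℕ) (hm : 0 < m)
    (hsp : ∀ A : Finset E, m * A.card ≤
      m * Module.finrank ℚ (sp ℚ (incQ src dst) A) + A.card) (T : E → ℝ) :
    ∃ (φ : V → ℝ) (y : E → ℤ), ∀ e,
      |T e - (φ (src e) - φ (dst e)) - y e| ≤ 1 / (2 * m) := by
  classical
  set N : Submodule ℤ (E → ℤ) := LinearMap.ker (bdry ℤ src dst) with hN
  obtain ⟨n, zb⟩ := Submodule.basisOfPid (Pi.basisFun ℤ E) N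
  let x : E → Fin n → ℤ := fun e i => (zb i : E → ℤ) e
  let xq : E → Fin n → ℚ := fun e i => (x e i : ℚ)
  have hmR : (0:ℝ) < m := by exact_mod_cast hm
  -- rational independence of the basis cycles
  have hzq : LinearIndependent ℚ (fun i : Fin n => (fun e => (x e i : ℚ))) := by
    rw [← LinearIndependent.iff_fractionRing ℤ ℚ]
    have h1 : LinearIndependent ℤ (fun i : Fin n => (zb i : E → ℤ)) :=
      zb.linearIndependent.map' N.subtype (Submodule.ker_subtype N)
    have h2 := h1.map' ((Algebra.linearMap ℤ ℚ).compLeft E) (by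
      rw [LinearMap.ker_eq_bot]
      intro u w huw
      ext e
      have := congrFun huw e
      simpa using this)
    exact h2
  -- a functional vanishing on all `xq e` is zero
  have hdual : ∀ f : Module.Dual ℚ (Fin n → ℚ), (∀ e, f (xq e) = 0) → f = 0 := by
    intro f hf
    have hfx : ∀ w : Fin n → ℚ, f w = ∑ i, w i * f (Pi.single i 1) := by
      intro w
      have hw : w = ∑ i, w i • Pi.single i (1:ℚ) := by
        ext k
        simp [Finset.sum_apply, Pi.single_apply]
      conv_lhs => rw [hw]
      rw [map_sum]
      exact Finset.sum_congr rfl fun i _ => by rw [map_smul, smul_eq_mul]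
    have hc : ∀ i, f (Pi.single i 1) = 0 := by
      have := Fintype.linearIndependent_iff.mp hzq (fun i => f (Pi.single i 1)) (by
        ext e
        have h1 := hf e
        rw [hfx] at h1
        simp only [Finset.sum_apply, Pi.smul_apply, smul_eq_mul, Pi.zero_apply]
        rw [← h1]
        exact Finset.sum_congr rfl fun i _ => by simp only [xq]; ring)
      exact this
    apply LinearMap.ext
    intro w
    rw [hfx, LinearMap.zero_apply]
    exact Finset.sum_eq_zero fun i _ => by rw [hc i, mul_zero]
  have htop : sp ℚ xq (univ : Finset E) = ⊤ := by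
    by_contra hne
    obtain ⟨f, hf0, hf⟩ := Submodule.exists_le_ker_of_lt_top _ (lt_of_le_of_ne le_top hne)
    apply hf0
    apply hdual
    intro e
    exact hf (Submodule.subset_span ⟨e, by simp, rfl⟩)
  -- the rank inequality
  have hrank : ∀ S : Submodule ℚ (Fin n → ℚ),
      n + Module.finrank ℚ (sp ℚ (incQ src dst) (univ.filter (fun e => ¬ xq e ∈ S)))
        ≤ Module.finrank ℚ S + (univ.filter (fun e => ¬ xq e ∈ S)).card := by
    intro S
    set A : Finset E := univ.filter (fun e => ¬ xq e ∈ S) with hA
    let D : (A → ℚ) →ₗ[ℚ] (V → ℚ) := Fintype.linearCombination ℚ (fun e : A => incQ src dst e)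
    let Ψ : S.dualAnnihilator →ₗ[ℚ] (A → ℚ) :=
      { toFun := fun f => fun e => f.1 (xq e)
        map_add' := by intro f g; ext e; simp
        map_smul' := by intro c f; ext e; simp }
    have hΨ0 : ∀ (f : S.dualAnnihilator) (e : E), e ∉ A → f.1 (xq e) = 0 := by
      intro f e he
      rw [hA, Finset.mem_filter] at he
      push Not at he
      have h1 : xq e ∈ S := he (Finset.mem_univ _)
      exact (Submodule.mem_dualAnnihilator f.1).mp f.2 _ h1
    have hker : ∀ f, Ψ f ∈ LinearMap.ker D := by
      intro f
      rw [LinearMap.mem_ker]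
      ext v
      simp only [D, Fintype.linearCombination_apply, Finset.sum_apply, Pi.smul_apply, smul_eq_mul,
        Pi.zero_apply]
      have h1 : ∑ e : A, (Ψ f) e * incQ src dst e v = ∑ e ∈ A, f.1 (xq e) * incQ src dst e v :=
        Finset.sum_coe_sort A (fun e => f.1 (xq e) * incQ src dst e v)
      rw [h1, Finset.sum_subset (Finset.subset_univ A)
        (fun e _ he => by rw [hΨ0 f e he, zero_mul])]
      have h2 : ∑ e, f.1 (xq e) * incQ src dst e v = f.1 (∑ e, incQ src dst e v • xq e) := by
        rw [map_sum]
        exact Finset.sum_congr rfl fun e _ => by rw [map_smul, smul_eq_mul]; ring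
      rw [h2]
      have h3 : ∑ e, incQ src dst e v • xq e = 0 := by
        ext i
        have h4 : bdry ℤ src dst (zb i : E → ℤ) v = 0 := by
          have : bdry ℤ src dst (zb i : E → ℤ) = 0 := (zb i).2
          rw [this]; rfl
        rw [bdry_apply] at h4
        have h5 := congrArg (Int.cast : ℤ → ℚ) h4
        push_cast at h5
        simp only [Finset.sum_apply, Pi.smul_apply, smul_eq_mul, Pi.zero_apply]
        rw [← h5]
        refine Finset.sum_congr rfl fun e _ => ?_
        simp only [incQ, xq, x]
        ring
      rw [h3, map_zero]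
    let Ψ' : S.dualAnnihilator →ₗ[ℚ] LinearMap.ker D := Ψ.codRestrict _ hker
    have hinj : Function.Injective Ψ' := by
      rw [← LinearMap.ker_eq_bot, LinearMap.ker_eq_bot']
      intro f hf
      apply Subtype.ext
      apply hdual
      intro e
      by_cases he : e ∈ A
      · have h1 : Ψ f = 0 := congrArg Subtype.val hf
        exact congrFun h1 ⟨e, he⟩
      · exact hΨ0 f e he
    have h1 := LinearMap.finrank_le_finrank_of_injective hinj
    have h2 := Subspace.finrank_add_finrank_dualAnnihilator_eq S
    rw [Module.finrank_fintype_fun_eq_card, Fintype.card_fin] at h2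
    have h3 := LinearMap.finrank_range_add_finrank_ker D
    rw [Module.finrank_fintype_fun_eq_card, Fintype.card_coe] at h3
    have h4 : LinearMap.range D = sp ℚ (incQ src dst) A := by
      simp only [D]
      rw [Fintype.range_linearCombination]
      unfold sp
      congr 1
      rw [Set.image_eq_range]
      rfl
    rw [h4] at h3
    omega
  -- packing
  obtain ⟨I, hd, hI⟩ := Pool.Agent.H126R2.CDC.packK (F := ℚ) (K := Fin m) (x := xq) (by
    intro R
    rw [htop, finrank_top, Module.finrank_fintype_fun_eq_card, Fintype.card_fin, Fintype.card_fin]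
    have h1 := hrank (sp ℚ xq R)
    have h2 := hsp (univ.filter (fun e => ¬ xq e ∈ sp ℚ xq R))
    have h3 := Nat.mul_le_mul_left m h1
    rw [mul_add, mul_add] at h3
    have h4 : m * n ≤ m * Module.finrank ℚ (sp ℚ xq R) +
        (univ.filter (fun e => ¬ xq e ∈ sp ℚ xq R)).card := by omega
    convert h4)
  have hbas : ∀ j, ∃ c : Fin n → E, Function.Injective c ∧ (∀ i, c i ∈ I j) ∧
      (Matrix.of (fun i => x (c i))).det ≠ 0 := by
    intro j
    apply exists_basis_of_spanQ
    have := hI j
    rw [htop] at this
    exact this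
  choose c hcinj hcI hcdet using hbas
  let t : Fin n → ℝ := fun i => ∑ e, T e * (x e i : ℝ)
  obtain ⟨a, τ, hτ, hsum⟩ := covering (fun _ : Fin m => 1 / (m : ℝ)) (fun _ => by positivity)
    (by simp; field_simp) (fun j i => x (c j i)) hcdet t
  let cc : Fin m × Fin n → E := fun p => c p.1 p.2
  have hcc : Function.Injective cc := by
    rintro ⟨j, i⟩ ⟨j', i'⟩ h
    simp only [cc] at h
    have hjj : j = j' := by
      by_contra hne
      exact Finset.disjoint_left.mp (hd j j' hne) (hcI j i) (h ▸ hcI j' i')
    subst hjj
    rw [hcinj j h]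
  let g : E → ℝ := Function.extend cc (fun p => τ p.1 p.2) 0
  have hgc : ∀ p, g (cc p) = τ p.1 p.2 := fun p => hcc.extend_apply _ _ p
  have hgn : ∀ e, (¬ ∃ p, cc p = e) → g e = 0 := fun e he => by
    simp only [g]; rw [Function.extend_apply' _ _ _ he]; rfl
  have hgb : ∀ e, |g e| ≤ 1 / (2 * m) := by
    intro e
    by_cases he : ∃ p, cc p = e
    · obtain ⟨p, rfl⟩ := he
      rw [hgc]
      refine (hτ p.1 p.2).trans (le_of_eq ?_)
      field_simp
    · rw [hgn e he]; simp
  have hgs : ∑ e, g e • rv (x e) = t - rv a := by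
    rw [hsum, ← Finset.sum_product', Finset.univ_product_univ]
    rw [← Finset.sum_subset (Finset.subset_univ (univ.image cc)),
      Finset.sum_image (fun p _ q _ h => hcc h)]
    · exact Finset.sum_congr rfl fun p _ => by rw [hgc]
    · intro e _ he
      rw [hgn e (by
        rintro ⟨p, hp⟩
        exact he (Finset.mem_image.mpr ⟨p, Finset.mem_univ _, hp⟩)), zero_smul]
  -- the integrality condition
  have hcyc : ∀ i, ∑ e, (T e - g e) * ((x e i : ℤ) : ℝ) = a i := by
    intro i
    have h1 := congrFun hgs i
    simp only [Finset.sum_apply, Pi.smul_apply, smul_eq_mul, Pi.sub_apply, rv, t] at h1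
    have h2 : ∑ e, (T e - g e) * ((x e i : ℤ) : ℝ)
        = ∑ e, T e * (x e i : ℝ) - ∑ e, g e * (x e i : ℝ) := by
      rw [← Finset.sum_sub_distrib]
      exact Finset.sum_congr rfl fun e _ => by ring
    rw [h2, h1]
    ring
  obtain ⟨φ, y, hφ⟩ := exists_potential src dst (fun e => T e - g e) (by
    intro z hz
    have hzN : z ∈ N := hz
    have hrep : ∀ e, z e = ∑ i, zb.repr ⟨z, hzN⟩ i * x e i := by
      intro e
      have h1 := zb.sum_repr ⟨z, hzN⟩
      have h2 := congrArg (fun u : N => (u : E → ℤ) e) h1
      simp only [Submodule.coe_sum, Submodule.coe_smul, Finset.sum_apply, Pi.smul_apply,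
        smul_eq_mul] at h2
      exact h2.symm
    refine ⟨∑ i, zb.repr ⟨z, hzN⟩ i * a i, ?_⟩
    push_cast
    have h3 : ∀ e, (T e - g e) * (z e : ℝ)
        = ∑ i, (zb.repr ⟨z, hzN⟩ i : ℝ) * ((T e - g e) * (x e i : ℝ)) := by
      intro e
      rw [hrep e]
      push_cast
      rw [Finset.mul_sum]
      exact Finset.sum_congr rfl fun i _ => by ring
    rw [Finset.sum_congr rfl (fun e _ => h3 e), Finset.sum_comm]
    refine Finset.sum_congr rfl fun i _ => ?_
    rw [← Finset.mul_sum, hcyc i])
  refine ⟨φ, y, fun e => ?_⟩
  have h1 := hφ e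
  have h2 : T e - (φ (src e) - φ (dst e)) - y e = g e := by linarith
  rw [h2]
  exact hgb e

end Pool.Agent.H239R2.Cover
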