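import Pool.Agent.H239R2.Cover.Orient

set_option autoImplicit false

/-!
`2 m`-edge-connected multigraphs.
-/

namespace Pool.Agent.H239R2.Cover

open Matrix Finset
open Pool.Agent.Helper879.ECD (sp)

set_option linter.unusedSectionVars false

variable {V E : Type} [Fintype V] [DecidableEq V] [Fintype E] [DecidableEq E]

/-- The vector of a vertex, without the coordinate of the root. -/
noncomputable def dv (r : V) (v : V) : Rt r → ℝ := fun u => if u.1 = v then 1 else 0

theorem rv_inc (src dst : E → V) (r : V) (e : E) :
    rv (inc src dst r e) = dv r (src e) - dv r (dst e) := by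
  ext u
  simp only [rv, inc, dv, Pi.sub_apply, eq_comm (a := u.1)]
  push_cast
  rfl

theorem dv_root (r : V) : dv r r = 0 := by
  ext u
  simp [dv, u.2]

open Classical in
/-- The rank condition for base packing. -/
theorem rank_cond (src dst : E → V) (r : V) (m : ℕ)
    (hcon : ∀ X : Finset V, X.Nonempty → X ≠ univ →
      2 * m ≤ (univ.filter (Leaves src dst X)).card) (S : Submodule ℝ (Rt r → ℝ)) :
    m * Fintype.card (Rt r) ≤ m * Module.finrank ℝ S +
      (univ.filter (fun e => ¬ rv (inc src dst r e) ∈ S)).card := by
  -- classes of vertices
  let cls : V → Finset V := fun v => univ.filter (fun w => dv r w - dv r v ∈ S)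
  have hmem : ∀ v w, w ∈ cls v ↔ dv r w - dv r v ∈ S := by
    intro v w; simp [cls]
  have hrefl : ∀ v, v ∈ cls v := fun v => by rw [hmem, sub_self]; exact S.zero_mem
  have hsymm : ∀ v w, w ∈ cls v → v ∈ cls w := by
    intro v w h
    rw [hmem] at h ⊢
    have := S.neg_mem h
    rwa [neg_sub] at this
  have htrans : ∀ u v w, v ∈ cls u → w ∈ cls v → w ∈ cls u := by
    intro u v w h1 h2
    rw [hmem] at h1 h2 ⊢
    have := S.add_mem h2 h1
    rwa [sub_add_sub_cancel] at this
  have heq : ∀ v w, w ∈ cls v → cls w = cls v := by
    intro v w h
    ext u
    exact ⟨fun hu => htrans v w u h hu, fun hu => htrans w v u (hsymm v w h) hu⟩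
  let P : Finset (Finset V) := univ.image cls
  have hP : ∀ C ∈ P, ∃ v, cls v = C := by
    intro C hC
    obtain ⟨v, _, hv⟩ := Finset.mem_image.mp hC
    exact ⟨v, hv⟩
  by_cases hone : P.card ≤ 1
  · -- a single class: `S = ⊤`
    have hall : ∀ v, dv r v ∈ S := by
      intro v
      have h1 : cls v = cls r := Finset.card_le_one.mp hone _
        (Finset.mem_image_of_mem _ (Finset.mem_univ _)) _
        (Finset.mem_image_of_mem _ (Finset.mem_univ _))
      have h2 : v ∈ cls r := h1 ▸ hrefl v
      rw [hmem, dv_root, sub_zero] at h2
      exact h2
    have htop : S = ⊤ := by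
      rw [eq_top_iff]
      intro x _
      have hx : x = ∑ u : Rt r, x u • dv r u.1 := by
        ext w
        simp only [Finset.sum_apply, Pi.smul_apply, smul_eq_mul, dv]
        rw [Finset.sum_eq_single w]
        · simp
        · intro b _ hb
          rw [if_neg (fun h => hb (Subtype.ext h.symm)), mul_zero]
        · intro h; exact absurd (Finset.mem_univ _) h
      rw [hx]
      exact S.sum_mem fun u _ => S.smul_mem _ (hall _)
    rw [htop, finrank_top, Module.finrank_fintype_fun_eq_card]
    omega
  · push Not at hone
    -- many edges between classes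
    have hcut : ∀ C ∈ P, 2 * m ≤ (univ.filter (Leaves src dst C)).card := by
      intro C hC
      obtain ⟨v, rfl⟩ := hP C hC
      apply hcon
      · exact ⟨v, hrefl v⟩
      · intro hu
        have : P.card ≤ 1 := by
          rw [Finset.card_le_one]
          have hall : ∀ D ∈ P, D = cls v := by
            intro D hD
            obtain ⟨w, rfl⟩ := hP D hD
            exact heq v w (hu ▸ Finset.mem_univ w)
          intro D hD D' hD'
          rw [hall D hD, hall D' hD']
        omega
    have hedge : ∀ C ∈ P, ∀ e, Leaves src dst C e → ¬ rv (inc src dst r e) ∈ S := by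
      intro C hC e he hcon'
      obtain ⟨v, rfl⟩ := hP C hC
      apply he
      rw [rv_inc] at hcon'
      have h1 : src e ∈ cls (dst e) := by rw [hmem]; exact hcon'
      constructor
      · intro h
        exact htrans v (src e) (dst e) h (hsymm _ _ h1)
      · intro h
        exact htrans v (dst e) (src e) h h1
    have hcount : ∑ C ∈ P, (univ.filter (Leaves src dst C)).card
        ≤ 2 * (univ.filter (fun e => ¬ rv (inc src dst r e) ∈ S)).card := by
      calc ∑ C ∈ P, (univ.filter (Leaves src dst C)).card
          = ∑ C ∈ P, ∑ e ∈ univ.filter (fun e => ¬ rv (inc src dst r e) ∈ S),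
              (if Leaves src dst C e then 1 else 0) := by
            refine Finset.sum_congr rfl fun C hC => ?_
            rw [← Finset.card_filter, Finset.filter_filter]
            congr 1
            ext e
            simp only [Finset.mem_filter, Finset.mem_univ, true_and]
            exact ⟨fun h => ⟨hedge C hC e h, h⟩, fun h => h.2⟩
        _ = ∑ e ∈ univ.filter (fun e => ¬ rv (inc src dst r e) ∈ S),
              ∑ C ∈ P, (if Leaves src dst C e then 1 else 0) := Finset.sum_comm
        _ ≤ ∑ e ∈ univ.filter (fun e => ¬ rv (inc src dst r e) ∈ S), 2 := by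
            refine Finset.sum_le_sum fun e _ => ?_
            rw [← Finset.card_filter]
            calc (P.filter (fun C => Leaves src dst C e)).card
                ≤ ({cls (src e), cls (dst e)} : Finset (Finset V)).card := by
                  apply Finset.card_le_card
                  intro C hC
                  rw [Finset.mem_filter] at hC
                  obtain ⟨v, rfl⟩ := hP C hC.1
                  rw [Finset.mem_insert, Finset.mem_singleton]
                  by_cases h : src e ∈ cls v
                  · left; exact (heq v _ h).symm
                  · right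
                    have : dst e ∈ cls v := by
                      by_contra h'
                      exact hC.2 ⟨fun h'' => absurd h'' h, fun h'' => absurd h'' h'⟩
                    exact (heq v _ this).symm
              _ ≤ 2 := Finset.card_le_two
        _ = _ := by rw [Finset.sum_const, smul_eq_mul, mul_comm]
    have hcount' : 2 * m * P.card ≤ ∑ C ∈ P, (univ.filter (Leaves src dst C)).card := by
      calc 2 * m * P.card = ∑ C ∈ P, 2 * m := by rw [Finset.sum_const, smul_eq_mul, mul_comm]
        _ ≤ _ := Finset.sum_le_sum hcut
    -- the dimension of `S`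
    have hdim : Fintype.card (Rt r) + 1 ≤ Module.finrank ℝ S + P.card := by
      -- representatives, the root representing its class
      let rep : Finset V → V := fun C => if r ∈ C then r else if h : C.Nonempty then h.choose else r
      have hrep : ∀ C ∈ P, rep C ∈ C := by
        intro C hC
        obtain ⟨v, rfl⟩ := hP C hC
        simp only [rep]
        split_ifs with h1 h2
        · exact h1
        · exact h2.choose_spec
        · exact absurd ⟨v, hrefl v⟩ h2
      set T : Finset (Rt r → ℝ) := (P.erase (cls r)).image (fun C => dv r (rep C)) with hT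
      have hall : ∀ v, dv r v ∈ S ⊔ Submodule.span ℝ (T : Set (Rt r → ℝ)) := by
        intro v
        have hC : cls v ∈ P := Finset.mem_image_of_mem _ (Finset.mem_univ _)
        have h1 : dv r (rep (cls v)) - dv r v ∈ S := (hmem _ _).mp (hrep _ hC)
        have h2 : dv r (rep (cls v)) ∈ S ⊔ Submodule.span ℝ (T : Set (Rt r → ℝ)) := by
          by_cases hr : r ∈ cls v
          · have : rep (cls v) = r := by simp only [rep, if_pos hr]
            rw [this, dv_root]
            exact Submodule.zero_mem _
          · apply Submodule.mem_sup_right
            apply Submodule.subset_span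
            rw [hT, Finset.coe_image]
            refine ⟨cls v, ?_, rfl⟩
            rw [Finset.mem_coe, Finset.mem_erase]
            refine ⟨fun h => hr (h ▸ hrefl r), hC⟩
        have h3 : dv r v = dv r (rep (cls v)) - (dv r (rep (cls v)) - dv r v) := by abel
        rw [h3]
        exact Submodule.sub_mem _ h2 (Submodule.mem_sup_left h1)
      have htop : S ⊔ Submodule.span ℝ (T : Set (Rt r → ℝ)) = ⊤ := by
        rw [eq_top_iff]
        intro x _
        have hx : x = ∑ u : Rt r, x u • dv r u.1 := by
          ext w
          simp only [Finset.sum_apply, Pi.smul_apply, smul_eq_mul, dv]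
          rw [Finset.sum_eq_single w]
          · simp
          · intro b _ hb
            rw [if_neg (fun h => hb (Subtype.ext h.symm)), mul_zero]
          · intro h; exact absurd (Finset.mem_univ _) h
        rw [hx]
        exact Submodule.sum_mem _ fun u _ => Submodule.smul_mem _ _ (hall _)
      have h1 := Submodule.finrank_add_le_finrank_add_finrank S
        (Submodule.span ℝ (T : Set (Rt r → ℝ)))
      rw [htop, finrank_top, Module.finrank_fintype_fun_eq_card] at h1
      have h2 : Module.finrank ℝ (Submodule.span ℝ (T : Set (Rt r → ℝ))) ≤ T.card :=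
        finrank_span_finset_le_card T
      have h3 : T.card ≤ (P.erase (cls r)).card := Finset.card_image_le
      have h4 : cls r ∈ P := Finset.mem_image_of_mem _ (Finset.mem_univ _)
      rw [Finset.card_erase_of_mem h4] at h3
      omega
    have h5 : m * (Fintype.card (Rt r) + 1) ≤ m * (Module.finrank ℝ S + P.card) :=
      Nat.mul_le_mul_left m hdim
    rw [mul_add, mul_add] at h5
    nlinarith

/-- Every `2 m`-edge-connected multigraph has orientations with all out-degree sequences modulo
`m` with the right sum. -/
theorem orientation_of_edgeConnected (src dst : E → V) (m : ℕ) (hm : 0 < m)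
    (hcon : ∀ X : Finset V, X.Nonempty → X ≠ univ →
      2 * m ≤ (univ.filter (Leaves src dst X)).card) (θ : V → ZMod m)
    (hθ : ∑ v, θ v = (Fintype.card E : ZMod m)) :
    ∃ o : E → Bool, ∀ v, (outdeg src dst o v : ZMod m) = θ v := by
  classical
  rcases isEmpty_or_nonempty V with hV | ⟨⟨r⟩⟩
  · exact ⟨fun _ => true, fun v => (hV.false v).elim⟩
  have huniv : sp ℝ (fun e => rv (inc src dst r e)) (univ : Finset E) = ⊤ := by
    apply span_of_connects
    intro X h1 h2
    have h3 := hcon X h1 h2
    have h4 : 0 < (univ.filter (Leaves src dst X)).card := by omega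
    obtain ⟨e, he⟩ := Finset.card_pos.mp h4
    exact ⟨e, Finset.mem_univ _, (Finset.mem_filter.mp he).2⟩
  obtain ⟨I, hd, hI⟩ := Pool.Agent.H126R2.CDC.packK (F := ℝ) (K := Fin m)
    (x := fun e => rv (inc src dst r e)) (by
      intro R
      rw [huniv, finrank_top, Module.finrank_fintype_fun_eq_card, Fintype.card_fin]
      convert rank_cond src dst r m hcon (sp ℝ (fun e => rv (inc src dst r e)) R))
  exact orientation_core src dst r m hm I hd (fun j => by
    have := hI j
    rw [huniv] at this
    exact this) θ hθ

end Pool.Agent.H239R2.Cover
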