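import Pool.Agent.H239R2.Cover.Round
import Pool.Agent.H126R2.CDC.PackK

set_option autoImplicit false

/-!
Multigraphs: incidence vectors are unimodular; packings of connected spanning edge sets.
-/

namespace Pool.Agent.H239R2.Cover

open Matrix Finset

set_option linter.unusedSectionVars false

variable {V E : Type} [Fintype V] [DecidableEq V] [Fintype E] [DecidableEq E]

/-- The vertices other than the root. -/
abbrev Rt (r : V) : Type := {v : V // v ≠ r}

/-- The incidence vector of an edge, without the coordinate of the root. -/
def inc (src dst : E → V) (r : V) (e : E) : Rt r → ℤ := fun v =>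
  (if src e = v.1 then 1 else 0) - (if dst e = v.1 then 1 else 0)

/-- The full incidence vector over the reals. -/
noncomputable def incR (src dst : E → V) (e : E) : V → ℝ := fun v =>
  (if src e = v then 1 else 0) - (if dst e = v then 1 else 0)

theorem incR_restrict (src dst : E → V) (r : V) (e : E) (v : Rt r) :
    rv (inc src dst r e) v = incR src dst e v.1 := by
  simp [rv, inc, incR]

theorem sum_incR (src dst : E → V) (e : E) : ∑ v, incR src dst e v = 0 := by
  simp [incR, Finset.sum_sub_distrib]

/-- An independent set of edges meets more vertices than it has edges. -/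
theorem card_lt_of_indep (src dst : E → V) (F : Finset E) (hF : F.Nonempty)
    (hind : LinearIndepOn ℝ (incR src dst) (F : Set E)) (W : Finset V)
    (hW : ∀ e ∈ F, src e ∈ W ∧ dst e ∈ W) : F.card < W.card := by
  classical
  obtain ⟨e₀, he₀⟩ := hF
  set w₀ := src e₀ with hw₀
  have hw₀W : w₀ ∈ W := (hW e₀ he₀).1
  -- the vectors `δ_w - δ_{w₀}`, `w ∈ W \ {w₀}`, span all `incR e`
  set G : Finset (V → ℝ) := (W.erase w₀).image (fun w => Pi.single w (1:ℝ) - Pi.single w₀ 1)
    with hG
  have hmem : ∀ w ∈ W, (Pi.single w (1:ℝ) - Pi.single w₀ 1 : V → ℝ) ∈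
      Submodule.span ℝ (G : Set (V → ℝ)) := by
    intro w hw
    by_cases h : w = w₀
    · rw [h, sub_self]; exact Submodule.zero_mem _
    · apply Submodule.subset_span
      rw [hG, Finset.coe_image]
      exact ⟨w, by simp [h, hw], rfl⟩
  have hinc : ∀ e ∈ F, incR src dst e ∈ Submodule.span ℝ (G : Set (V → ℝ)) := by
    intro e he
    have h1 : incR src dst e = (Pi.single (src e) (1:ℝ) - Pi.single w₀ 1)
        - (Pi.single (dst e) (1:ℝ) - Pi.single w₀ 1) := by
      ext v
      simp only [incR, Pi.sub_apply, Pi.single_apply, eq_comm (a := v)]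
      ring
    rw [h1]
    exact Submodule.sub_mem _ (hmem _ (hW e he).1) (hmem _ (hW e he).2)
  have hfr : F.card ≤ Module.finrank ℝ (Submodule.span ℝ (G : Set (V → ℝ))) := by
    have h2 : LinearIndependent ℝ (fun e : F => (⟨incR src dst e, hinc e e.2⟩ :
        Submodule.span ℝ (G : Set (V → ℝ)))) := by
      apply LinearIndependent.of_comp (Submodule.span ℝ (G : Set (V → ℝ))).subtype
      exact hind
    have h3 := h2.fintype_card_le_finrank
    simpa using h3
  have h4 : Module.finrank ℝ (Submodule.span ℝ (G : Set (V → ℝ))) ≤ G.card :=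
    finrank_span_finset_le_card G
  have h5 : G.card ≤ (W.erase w₀).card := Finset.card_image_le
  have h6 : (W.erase w₀).card < W.card := Finset.card_erase_lt_of_mem hw₀W
  omega

/-- Incidence vectors of a multigraph form a unimodular configuration. -/
theorem unimod_inc (src dst : E → V) (r : V) : Unimod (inc src dst r) := by
  classical
  intro I hI s ⟨a, ha⟩ e₁ he₁
  by_contra hcon
  push Not at hcon
  -- the edges of `I` with nonintegral coefficient
  set F : Finset E := I.filter (fun e => ∀ z : ℤ, s e ≠ z) with hF
  have hFne : F.Nonempty := ⟨e₁, by rw [hF, Finset.mem_filter]; exact ⟨he₁, hcon⟩⟩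
  have hFI : F ⊆ I := Finset.filter_subset _ _
  -- independence of the full vectors
  have hindI : LinearIndepOn ℝ (incR src dst) (I : Set E) := by
    let π : (V → ℝ) →ₗ[ℝ] (Rt r → ℝ) := LinearMap.funLeft ℝ ℝ (fun v : Rt r => v.1)
    have : (fun e => rv (inc src dst r e)) = π ∘ incR src dst := by
      funext e
      ext v
      simp only [Function.comp, π, LinearMap.funLeft_apply]
      exact incR_restrict src dst r e v
    rw [this] at hI
    exact LinearIndepOn.of_comp π hI
  have hind : LinearIndepOn ℝ (incR src dst) (F : Set E) :=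
    hindI.mono (Finset.coe_subset.mpr hFI)
  -- integrality of the boundary at all vertices
  have hbd : ∀ v : V, ∃ z : ℤ, ∑ e ∈ I, s e * incR src dst e v = z := by
    have hne : ∀ v : V, v ≠ r → ∃ z : ℤ, ∑ e ∈ I, s e * incR src dst e v = z := by
      intro v hv
      refine ⟨a ⟨v, hv⟩, ?_⟩
      have h1 := congrFun ha ⟨v, hv⟩
      rw [Finset.sum_apply] at h1
      simp only [Pi.smul_apply, smul_eq_mul] at h1
      rw [show ((a ⟨v, hv⟩ : ℤ) : ℝ) = rv a ⟨v, hv⟩ from rfl, ← h1]
      refine Finset.sum_congr rfl fun e _ => ?_
      rw [incR_restrict]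
    intro v
    by_cases hv : v = r
    · subst hv
      choose! z hz using hne
      refine ⟨- ∑ u ∈ univ.erase v, z u, ?_⟩
      have h1 : ∑ u, ∑ e ∈ I, s e * incR src dst e u = 0 := by
        rw [Finset.sum_comm]
        apply Finset.sum_eq_zero
        intro e _
        rw [← Finset.mul_sum, sum_incR, mul_zero]
      rw [← Finset.add_sum_erase univ _ (Finset.mem_univ v)] at h1
      have h2 : ∑ u ∈ univ.erase v, ∑ e ∈ I, s e * incR src dst e u
          = ∑ u ∈ univ.erase v, (z u : ℝ) :=
        Finset.sum_congr rfl fun u hu => hz u (Finset.ne_of_mem_erase hu)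
      rw [h2] at h1
      push_cast
      linarith
    · exact hne v hv
  -- no loops in `F`
  have hloop : ∀ e ∈ F, src e ≠ dst e := by
    intro e he h
    have h1 : incR src dst e ≠ 0 := hind.ne_zero he
    apply h1
    ext v
    simp [incR, h]
  -- degrees
  set W : Finset V := univ.filter (fun v => ∃ e ∈ F, src e = v ∨ dst e = v) with hW
  have hWmem : ∀ e ∈ F, src e ∈ W ∧ dst e ∈ W := by
    intro e he
    simp only [hW, Finset.mem_filter, Finset.mem_univ, true_and]
    exact ⟨⟨e, he, Or.inl rfl⟩, ⟨e, he, Or.inr rfl⟩⟩
  have hcardlt := card_lt_of_indep src dst F hFne hind W hWmem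
  have hdeg : ∀ v ∈ W, 2 ≤ (F.filter (fun e => src e = v ∨ dst e = v)).card := by
    intro v hv
    rw [hW, Finset.mem_filter] at hv
    obtain ⟨-, e, he, hev⟩ := hv
    by_contra hlt
    have hone : F.filter (fun e => src e = v ∨ dst e = v) = {e} := by
      apply Finset.eq_singleton_iff_unique_mem.mpr
      have hmem : e ∈ F.filter (fun e => src e = v ∨ dst e = v) := by
        rw [Finset.mem_filter]; exact ⟨he, hev⟩
      refine ⟨hmem, fun e' he' => ?_⟩
      by_contra hne
      have : ({e, e'} : Finset E) ⊆ F.filter (fun e => src e = v ∨ dst e = v) := by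
        intro f hf
        rw [Finset.mem_insert, Finset.mem_singleton] at hf
        rcases hf with rfl | rfl
        · exact hmem
        · exact he'
      have h2 := Finset.card_le_card this
      rw [Finset.card_pair (Ne.symm hne)] at h2
      omega
    -- then the coefficient of `e` is an integer
    obtain ⟨z, hz⟩ := hbd v
    have hint : ∀ f ∈ I, f ≠ e → ∃ y : ℤ, s f * incR src dst f v = y := by
      intro f hf hfe
      by_cases hfF : f ∈ F
      · have hfv : ¬ (src f = v ∨ dst f = v) := by
          intro h
          have : f ∈ F.filter (fun e => src e = v ∨ dst e = v) := by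
            rw [Finset.mem_filter]; exact ⟨hfF, h⟩
          rw [hone, Finset.mem_singleton] at this
          exact hfe this
        push Not at hfv
        refine ⟨0, ?_⟩
        simp [incR, hfv.1, hfv.2]
      · rw [hF, Finset.mem_filter] at hfF
        push Not at hfF
        obtain ⟨y, hy⟩ := hfF hf
        refine ⟨y * ((if src f = v then 1 else 0) - (if dst f = v then 1 else 0)), ?_⟩
        rw [hy]
        simp [incR]
    choose! y hy using hint
    have heI : e ∈ I := hFI he
    have h3 : s e * incR src dst e v = ((z - ∑ f ∈ I.erase e, y f : ℤ) : ℝ) := by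
      rw [← Finset.add_sum_erase I _ heI] at hz
      have : ∑ f ∈ I.erase e, s f * incR src dst f v = ∑ f ∈ I.erase e, (y f : ℝ) :=
        Finset.sum_congr rfl fun f hf => hy f (Finset.mem_of_mem_erase hf)
          (Finset.ne_of_mem_erase hf)
      rw [this] at hz
      push_cast
      linarith
    have hsign : incR src dst e v = 1 ∨ incR src dst e v = -1 := by
      have hl := hloop e he
      rcases hev with h | h
      · left
        have : dst e ≠ v := fun h' => hl (h.trans h'.symm)
        simp [incR, h, this]
      · right
        have : src e ≠ v := fun h' => hl (h'.trans h.symm)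
        simp [incR, h, this]
    have hnot : ∀ z : ℤ, s e ≠ z := by
      rw [hF, Finset.mem_filter] at he
      exact he.2
    rcases hsign with h | h
    · rw [h, mul_one] at h3
      exact hnot _ h3
    · rw [h] at h3
      refine hnot (-(z - ∑ f ∈ I.erase e, y f)) ?_
      push_cast at h3 ⊢
      linarith
  -- double counting
  have hsum : ∑ v ∈ W, (F.filter (fun e => src e = v ∨ dst e = v)).card ≤ 2 * F.card := by
    calc ∑ v ∈ W, (F.filter (fun e => src e = v ∨ dst e = v)).card
        = ∑ v ∈ W, ∑ e ∈ F, (if src e = v ∨ dst e = v then 1 else 0) := by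
          refine Finset.sum_congr rfl fun v _ => ?_
          rw [Finset.card_filter]
      _ = ∑ e ∈ F, ∑ v ∈ W, (if src e = v ∨ dst e = v then 1 else 0) := Finset.sum_comm
      _ ≤ ∑ e ∈ F, 2 := by
          refine Finset.sum_le_sum fun e _ => ?_
          rw [← Finset.card_filter]
          calc (W.filter (fun v => src e = v ∨ dst e = v)).card
              ≤ ({src e, dst e} : Finset V).card := by
                apply Finset.card_le_card
                intro v hv
                rw [Finset.mem_filter] at hv
                rw [Finset.mem_insert, Finset.mem_singleton]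
                rcases hv.2 with h | h
                · exact Or.inl h.symm
                · exact Or.inr h.symm
            _ ≤ 2 := Finset.card_le_two
      _ = 2 * F.card := by rw [Finset.sum_const, smul_eq_mul, mul_comm]
  have hsum' : 2 * W.card ≤ ∑ v ∈ W, (F.filter (fun e => src e = v ∨ dst e = v)).card := by
    calc 2 * W.card = ∑ v ∈ W, 2 := by rw [Finset.sum_const, smul_eq_mul, mul_comm]
      _ ≤ _ := Finset.sum_le_sum hdeg
  omega

/-- An edge leaves `X` if exactly one of its ends is in `X`. -/
def Leaves (src dst : E → V) (X : Finset V) (e : E) : Prop := ¬ (src e ∈ X ↔ dst e ∈ X)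

instance (src dst : E → V) (X : Finset V) : DecidablePred (Leaves src dst X) := fun e =>
  inferInstanceAs (Decidable (¬ (src e ∈ X ↔ dst e ∈ X)))

/-- The edge set `I` connects all vertices: every nonempty proper vertex set is left by an edge
of `I`. -/
def Connects (src dst : E → V) (I : Finset E) : Prop :=
  ∀ X : Finset V, X.Nonempty → X ≠ univ → ∃ e ∈ I, Leaves src dst X e

theorem span_of_connects (src dst : E → V) (r : V) (I : Finset E)
    (hI : Connects src dst I) :
    Submodule.span ℝ ((fun e => rv (inc src dst r e)) '' (I : Set E)) = ⊤ := by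
  classical
  by_contra hne
  have hlt : Submodule.span ℝ ((fun e => rv (inc src dst r e)) '' (I : Set E)) < ⊤ :=
    lt_of_le_of_ne le_top hne
  obtain ⟨f, hf0, hf⟩ := Submodule.exists_le_ker_of_lt_top _ hlt
  -- the potential
  let y : V → ℝ := fun v => if h : v = r then 0 else f (Pi.single ⟨v, h⟩ 1)
  have hyr : y r = 0 := by simp [y]
  have hfinc : ∀ e, f (rv (inc src dst r e)) = y (src e) - y (dst e) := by
    intro e
    have h1 : rv (inc src dst r e)
        = (if h : src e = r then 0 else Pi.single ⟨src e, h⟩ (1:ℝ))
          - (if h : dst e = r then 0 else Pi.single ⟨dst e, h⟩ (1:ℝ)) := by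
      ext v
      rw [incR_restrict]
      simp only [incR, Pi.sub_apply]
      congr 1
      · by_cases h : src e = r
        · have : src e ≠ v.1 := fun h' => v.2 (h' ▸ h)
          rw [dif_pos h, if_neg this]; rfl
        · rw [dif_neg h, Pi.single_apply]
          by_cases h' : src e = v.1
          · rw [if_pos h', if_pos (Subtype.ext h'.symm)]
          · rw [if_neg h', if_neg (fun h'' => h' (congrArg Subtype.val h'').symm)]
      · by_cases h : dst e = r
        · have : dst e ≠ v.1 := fun h' => v.2 (h' ▸ h)
          rw [dif_pos h, if_neg this]; rfl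
        · rw [dif_neg h, Pi.single_apply]
          by_cases h' : dst e = v.1
          · rw [if_pos h', if_pos (Subtype.ext h'.symm)]
          · rw [if_neg h', if_neg (fun h'' => h' (congrArg Subtype.val h'').symm)]
    rw [h1, map_sub]
    congr 1
    · by_cases h : src e = r
      · rw [dif_pos h, map_zero]; simp [y, h]
      · rw [dif_neg h]; simp [y, h]
    · by_cases h : dst e = r
      · rw [dif_pos h, map_zero]; simp [y, h]
      · rw [dif_neg h]; simp [y, h]
  have hker : ∀ e ∈ I, y (src e) = y (dst e) := by
    intro e he
    have h1 : f (rv (inc src dst r e)) = 0 :=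
      hf (Submodule.subset_span ⟨e, Finset.mem_coe.mpr he, rfl⟩)
    rw [hfinc] at h1
    linarith
  -- `y` vanishes
  have hy0 : ∀ v, y v = 0 := by
    by_contra hex
    push Not at hex
    obtain ⟨v₁, hv₁⟩ := hex
    set X : Finset V := univ.filter (fun v => y v = 0) with hX
    have hXne : X.Nonempty := ⟨r, by rw [hX, Finset.mem_filter]; exact ⟨Finset.mem_univ _, hyr⟩⟩
    have hXu : X ≠ univ := by
      intro h
      have : v₁ ∈ X := h ▸ Finset.mem_univ v₁
      rw [hX, Finset.mem_filter] at this
      exact hv₁ this.2
    obtain ⟨e, he, hl⟩ := hI X hXne hXu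
    apply hl
    rw [hX, Finset.mem_filter, Finset.mem_filter, hker e he]
    simp
  apply hf0
  apply LinearMap.ext
  intro x
  have hx : x = ∑ v, x v • Pi.single v (1:ℝ) := by
    ext w
    simp [Finset.sum_apply, Pi.single_apply]
  rw [hx, map_sum, LinearMap.zero_apply]
  apply Finset.sum_eq_zero
  intro v _
  rw [map_smul]
  have := hy0 v.1
  simp only [y, dif_neg v.2] at this
  rw [show (⟨v.1, v.2⟩ : Rt r) = v from rfl] at this
  rw [this, smul_zero]

end Pool.Agent.H239R2.Cover
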