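import Mathlib

set_option autoImplicit false

/-!
Planarity of finite simple graphs: by rotation systems and Euler's formula, and by straight-line
drawings; the rank of a set of edges.
-/

namespace Pool.Agent.H239R2.Planar

variable {V : Type}

/-- The permutation of the darts (oriented edges) which reverses every dart. -/
def revPerm (G : SimpleGraph V) : Equiv.Perm G.Dart where
  toFun d := d.symm
  invFun d := d.symm
  left_inv d := d.symm_symm
  right_inv d := d.symm_symm

/-- A rotation system: a permutation of the darts whose cycles are exactly the sets of darts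
with a common tail. -/
def IsRotation (G : SimpleGraph V) (σ : Equiv.Perm G.Dart) : Prop :=
  (∀ d, (σ d).fst = d.fst) ∧ ∀ d d' : G.Dart, d.fst = d'.fst → σ.SameCycle d d'

/-- The face permutation of a rotation system: traverse a dart, then turn to the next dart at
its head. -/
def facePerm (G : SimpleGraph V) (σ : Equiv.Perm G.Dart) : Equiv.Perm G.Dart := σ * revPerm G

/-- The faces: the orbits of the face permutation. -/
abbrev Face (G : SimpleGraph V) (σ : Equiv.Perm G.Dart) : Type :=
  Quotient (Equiv.Perm.SameCycle.setoid (facePerm G σ))

/-- `G` is planar: it has a rotation system satisfying Euler's formula `v - e + f = 2 c`, where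
`f` is the number of faces, every isolated vertex contributing one face. -/
def IsPlanar (G : SimpleGraph V) : Prop :=
  ∃ σ : Equiv.Perm G.Dart, IsRotation G σ ∧
    Nat.card V + (Nat.card (Face G σ) + Nat.card {v : V // ∀ w, ¬ G.Adj v w})
      = Nat.card G.edgeSet + 2 * Nat.card G.ConnectedComponent

/-- `G` has a straight-line drawing in the plane: the vertices are distinct points, the closed
segment of an edge contains no vertex other than its ends, and the segments of two different
edges meet at most in a common end. -/
def HasStraightLineDrawing (G : SimpleGraph V) : Prop :=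
  ∃ p : V → ℝ × ℝ, Function.Injective p ∧
    (∀ u v w : V, G.Adj u v → p w ∈ segment ℝ (p u) (p v) → w = u ∨ w = v) ∧
    (∀ u v x y : V, G.Adj u v → G.Adj x y → s(u, v) ≠ s(x, y) →
      ∀ q, q ∈ segment ℝ (p u) (p v) → q ∈ segment ℝ (p x) (p y) →
        ∃ w, (w = u ∨ w = v) ∧ (w = x ∨ w = y) ∧ q = p w)

open Classical in
/-- The rank of a set `A` of edges: the dimension of the span of the vectors `1_u - 1_v`,
`uv ∈ A`. -/
noncomputable def rk (A : Finset (Sym2 V)) : ℕ :=
  Module.finrank ℚ (Submodule.span ℚ
    {x : V → ℚ | ∃ u v : V, s(u, v) ∈ A ∧ x = Pi.single u 1 - Pi.single v 1})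

end Pool.Agent.H239R2.Planar
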