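import Pool.Agent.H239R2.Cover.Cograph
import Pool.Agent.H239R2.Cover.PlanarDefs

set_option autoImplicit false

/-!
Homomorphisms of sparse graphs to odd cycles.
-/

namespace Pool.Agent.H239R2.Cover

open Finset
open Pool.Agent.Helper879.ECD (sp)
open Pool.Agent.H239R2.Planar (rk)

variable {V : Type} [Fintype V]

open Classical in
theorem rk_eq_sp (G : SimpleGraph V) (src dst : G.edgeSet → V)
    (hsd : ∀ e : G.edgeSet, s(src e, dst e) = e.1) (A : Finset G.edgeSet) :
    rk (A.map (Function.Embedding.subtype _)) = Module.finrank ℚ (sp ℚ (incQ src dst) A) := by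
  have hinc : ∀ e, incQ src dst e = Pi.single (src e) 1 - Pi.single (dst e) 1 := by
    intro e
    ext v
    simp [incQ, Pi.single_apply, eq_comm (a := v)]
  have hspan : Submodule.span ℚ {x : V → ℚ | ∃ u v : V,
      s(u, v) ∈ A.map (Function.Embedding.subtype _) ∧ x = Pi.single u 1 - Pi.single v 1}
      = sp ℚ (incQ src dst) A := by
    apply le_antisymm
    · rw [Submodule.span_le]
      rintro x ⟨u, v, huv, rfl⟩
      rw [Finset.mem_map] at huv
      obtain ⟨e, he, heq⟩ := huv
      have h1 : s(src e, dst e) = s(u, v) := by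
        rw [hsd e]; exact heq
      have hmem : incQ src dst e ∈ sp ℚ (incQ src dst) A :=
        Submodule.subset_span ⟨e, Finset.mem_coe.mpr he, rfl⟩
      rw [Sym2.eq_iff] at h1
      rcases h1 with ⟨h2, h3⟩ | ⟨h2, h3⟩
      · rw [hinc, h2, h3] at hmem; exact hmem
      · rw [hinc, h2, h3] at hmem
        have := Submodule.neg_mem _ hmem
        rwa [neg_sub] at this
    · unfold sp
      rw [Submodule.span_le]
      rintro _ ⟨e, he, rfl⟩
      apply Submodule.subset_span
      refine ⟨src e, dst e, ?_, hinc e⟩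
      rw [Finset.mem_map]
      exact ⟨e, Finset.mem_coe.mp he, (hsd e).symm⟩
  unfold rk
  rw [← hspan]

open Classical in
/-- If every set `A` of edges of `G` satisfies `(2k+1)|A| ≤ (2k+1) rk(A) + |A|`, then `G` has a
homomorphism to the cycle of length `2k+1`. -/
theorem hom_of_sparse (G : SimpleGraph V) (k : ℕ) (hk : 1 ≤ k)
    (hsp : ∀ A : Finset (Sym2 V), (A : Set (Sym2 V)) ⊆ G.edgeSet →
      (2 * k + 1) * A.card ≤ (2 * k + 1) * rk A + A.card) :
    Nonempty (G →g SimpleGraph.cycleGraph (2 * k + 1)) := by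
  have hex : ∀ e : G.edgeSet, ∃ p : V × V, s(p.1, p.2) = e.1 := by
    intro e
    induction e.1 using Sym2.ind with
    | _ x y => exact ⟨(x, y), rfl⟩
  choose p hp using hex
  let src : G.edgeSet → V := fun e => (p e).1
  let dst : G.edgeSet → V := fun e => (p e).2
  obtain ⟨φ, y, hφ⟩ := cographic_covering src dst (2 * k + 1) (by omega) (by
    intro A
    have h1 := hsp (A.map (Function.Embedding.subtype _)) (by
      intro e he
      rw [Finset.mem_coe, Finset.mem_map] at he
      obtain ⟨e', _, rfl⟩ := he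
      exact e'.2)
    rw [rk_eq_sp G src dst hp, Finset.card_map] at h1
    exact h1) (fun _ => 1 / 2)
  set m : ℝ := 2 * k + 1 with hm
  have hmpos : 0 < m := by positivity
  let ψ : V → ℤ := fun v => ⌊m * φ v⌋
  let f : V → ZMod (2 * k + 1) := fun v => ((2 * ψ v : ℤ) : ZMod (2 * k + 1))
  have hdiff : ∀ e : G.edgeSet, ψ (src e) - ψ (dst e) = k - (2 * k + 1) * y e ∨
      ψ (src e) - ψ (dst e) = k + 1 - (2 * k + 1) * y e := by
    intro e
    have h1 := hφ e
    have hcast : ((2 * k + 1 : ℕ) : ℝ) = m := by rw [hm]; push_cast; ring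
    rw [hcast, abs_le] at h1
    have h2 : m * (1 / (2 * m)) = 1 / 2 := by field_simp
    have h3 : -(1 / 2) ≤ m * (1 / 2 - (φ (src e) - φ (dst e)) - y e) := by
      have := mul_le_mul_of_nonneg_left h1.1 hmpos.le
      rw [mul_neg, h2] at this
      exact this
    have h4 : m * (1 / 2 - (φ (src e) - φ (dst e)) - y e) ≤ 1 / 2 := by
      have := mul_le_mul_of_nonneg_left h1.2 hmpos.le
      rw [h2] at this
      exact this
    -- bounds for the real difference
    have h5 : m * φ (dst e) + ((k : ℤ) - (2 * k + 1) * y e : ℤ) ≤ m * φ (src e) := by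
      push_cast
      have : m * (1 / 2) = k + 1 / 2 := by rw [hm]; ring
      have h6 : m * y e = (2 * k + 1) * y e := by rw [hm]
      nlinarith
    have h6 : m * φ (src e) ≤ m * φ (dst e) + ((k : ℤ) + 1 - (2 * k + 1) * y e : ℤ) := by
      push_cast
      have : m * (1 / 2) = k + 1 / 2 := by rw [hm]; ring
      have h6 : m * y e = (2 * k + 1) * y e := by rw [hm]
      nlinarith
    have h7 : ψ (dst e) + ((k : ℤ) - (2 * k + 1) * y e) ≤ ψ (src e) := by
      simp only [ψ]
      rw [Int.le_floor]
      refine le_trans ?_ h5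
      push_cast
      have := Int.floor_le (m * φ (dst e))
      linarith
    have h8 : ψ (src e) ≤ ψ (dst e) + ((k : ℤ) + 1 - (2 * k + 1) * y e) := by
      simp only [ψ]
      have h9 : ⌊m * φ (src e)⌋ ≤ ⌊m * φ (dst e) + ((k : ℤ) + 1 - (2 * k + 1) * y e : ℤ)⌋ :=
        Int.floor_le_floor h6
      rwa [Int.floor_add_intCast] at h9
    omega
  have hmod : ((2 * k + 1 : ℤ) : ZMod (2 * k + 1)) = 0 := by
    have := ZMod.natCast_self (2 * k + 1)
    exact_mod_cast this
  have hadj : ∀ e : G.edgeSet, f (src e) - f (dst e) = 1 ∨ f (dst e) - f (src e) = 1 := by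
    intro e
    have hmodk : (2 * (k : ZMod (2 * k + 1)) + 1) = 0 := by
      have := hmod
      push_cast at this
      exact this
    rcases hdiff e with h | h
    · right
      have h1 : f (dst e) - f (src e) = ((-(2 * (ψ (src e) - ψ (dst e))) : ℤ) : ZMod (2 * k + 1)) := by
        simp only [f]; push_cast; ring
      rw [h1, h]
      push_cast
      linear_combination (-1 + 2 * (y e : ZMod (2 * k + 1))) * hmodk
    · left
      have h1 : f (src e) - f (dst e) = ((2 * (ψ (src e) - ψ (dst e)) : ℤ) : ZMod (2 * k + 1)) := by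
        simp only [f]; push_cast; ring
      rw [h1, h]
      push_cast
      linear_combination (1 - 2 * (y e : ZMod (2 * k + 1))) * hmodk
  -- the homomorphism
  have hone : ∀ u v : ZMod (2 * k + 1), u - v = 1 ∨ v - u = 1 →
      (SimpleGraph.cycleGraph (2 * k + 1)).Adj u v := by
    intro u v h
    rw [SimpleGraph.cycleGraph_adj']
    have hval : (1 : Fin (2 * k + 1)).val = 1 := by
      have : (1 : Fin (2 * k + 1)).val = 1 % (2 * k + 1) := Fin.val_one' _
      rw [this, Nat.mod_eq_of_lt (by omega)]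
    rcases h with h | h
    · left
      exact (congrArg Fin.val (show _ = (1 : Fin (2 * k + 1)) from h)).trans hval
    · right
      exact (congrArg Fin.val (show _ = (1 : Fin (2 * k + 1)) from h)).trans hval
  refine ⟨⟨f, ?_⟩⟩
  intro u v huv
  have he : s(u, v) ∈ G.edgeSet := huv
  have h1 := hadj ⟨s(u, v), he⟩
  have h2 : s(src ⟨s(u, v), he⟩, dst ⟨s(u, v), he⟩) = s(u, v) := hp ⟨s(u, v), he⟩
  rw [Sym2.eq_iff] at h2
  rcases h2 with ⟨h3, h4⟩ | ⟨h3, h4⟩
  · rw [h3, h4] at h1
    exact hone _ _ h1
  · rw [h3, h4] at h1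
    exact hone _ _ h1.symm

end Pool.Agent.H239R2.Cover
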