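import Pool.Agent.H239R2.Cover.CircFlow

set_option autoImplicit false

/-!
Integer flows from circular flows.
-/

namespace Pool.Agent.H239R2.Cover

open Finset

set_option linter.unusedSectionVars false

variable {V E : Type} [Fintype V] [DecidableEq V] [Fintype E] [DecidableEq E]

/-- A circulation with real values between `1` and `k - 1` in absolute value can be rounded to an
integer one. -/
theorem int_flow_of_circ_flow (src dst : E → V) (k : ℤ) (f : E → ℝ)
    (hf : ∀ e, 1 ≤ |f e| ∧ |f e| ≤ k) (h0 : bdry ℝ src dst f = 0) :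
    ∃ h : E → ℤ, (∀ e, 1 ≤ |h e| ∧ |h e| ≤ k) ∧ bdry ℤ src dst h = 0 := by
  classical
  rcases isEmpty_or_nonempty V with hV | ⟨⟨r⟩⟩
  · refine ⟨fun _ => 1, fun e => (hV.false (src e)).elim, ?_⟩
    ext v; exact (hV.false v).elim
  let x : E → Rt r → ℤ := inc src dst r
  have hsum : ∑ e, Int.fract (f e) • rv (x e) = rv (- ∑ e, ⌊f e⌋ • x e) := by
    ext v
    have h1 := congrFun h0 v.1
    rw [bdry_apply, Pi.zero_apply] at h1
    simp only [Finset.sum_apply, Pi.smul_apply, smul_eq_mul, rv, Pi.neg_apply, Int.cast_neg,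
      Int.cast_sum, Int.cast_mul, x, inc]
    have h2 : ∀ e, Int.fract (f e) *
        (((if src e = v.1 then 1 else 0) - (if dst e = v.1 then 1 else 0) : ℤ) : ℝ)
        = f e * ((if src e = v.1 then 1 else 0) - (if dst e = v.1 then 1 else 0))
          - (⌊f e⌋ : ℝ) *
            (((if src e = v.1 then 1 else 0) - (if dst e = v.1 then 1 else 0) : ℤ) : ℝ) := by
      intro e
      rw [← Int.self_sub_floor]
      push_cast
      ring
    rw [Finset.sum_congr rfl (fun e _ => h2 e), Finset.sum_sub_distrib, h1, zero_sub]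
  obtain ⟨S, hS, hS0, -⟩ := rounding' x (unimod_inc src dst r) (fun e => Int.fract (f e))
    (fun e => Int.fract_nonneg _) (fun e => (Int.fract_lt_one _).le) _ hsum
  refine ⟨fun e => ⌊f e⌋ + (if e ∈ S then 1 else 0), fun e => ?_, ?_⟩
  · change 1 ≤ |⌊f e⌋ + (if e ∈ S then 1 else 0)| ∧ |⌊f e⌋ + (if e ∈ S then 1 else 0)| ≤ k
    have h1 := hf e
    rcases le_total 0 (f e) with hpos | hneg
    · rw [abs_of_nonneg hpos] at h1
      have h2 : (1:ℤ) ≤ ⌊f e⌋ := Int.le_floor.mpr (by exact_mod_cast h1.1)
      have h3 : ⌊f e⌋ + (if e ∈ S then 1 else 0) ≤ k := by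
        by_cases he : e ∈ S
        · rw [if_pos he]
          have h4 := hS0 e he
          have h5 : ((⌊f e⌋ : ℤ) : ℝ) < k := by
            have h6 : ((⌊f e⌋ : ℤ) : ℝ) < f e := by
              have := Int.fract_nonneg (f e)
              have h7 : 0 < Int.fract (f e) := lt_of_le_of_ne this (Ne.symm h4)
              rw [← Int.self_sub_floor] at h7
              linarith
            linarith [h1.2]
          have h6 : ⌊f e⌋ < k := by exact_mod_cast h5
          omega
        · rw [if_neg he, add_zero]
          have h5 : ((⌊f e⌋ : ℤ) : ℝ) ≤ k := (Int.floor_le _).trans h1.2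
          exact_mod_cast h5
      have h4 : (0:ℤ) ≤ (if e ∈ S then 1 else 0) := by split_ifs <;> norm_num
      rw [abs_of_nonneg (by omega)]
      constructor <;> omega
    · rw [abs_of_nonpos hneg] at h1
      have h2 : -k ≤ ⌊f e⌋ := Int.le_floor.mpr (by push_cast; linarith [h1.2])
      have h3 : ⌊f e⌋ + (if e ∈ S then 1 else 0) ≤ -1 := by
        by_cases he : e ∈ S
        · rw [if_pos he]
          have h4 := hS0 e he
          have h6 : ((⌊f e⌋ : ℤ) : ℝ) < f e := by
            have := Int.fract_nonneg (f e)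
            have h7 : 0 < Int.fract (f e) := lt_of_le_of_ne this (Ne.symm h4)
            rw [← Int.self_sub_floor] at h7
            linarith
          have h5 : ((⌊f e⌋ : ℤ) : ℝ) < (-1 : ℤ) := by push_cast; linarith [h1.1]
          have h7 : ⌊f e⌋ < -1 := by exact_mod_cast h5
          omega
        · rw [if_neg he, add_zero]
          have h5 : ((⌊f e⌋ : ℤ) : ℝ) ≤ (-1 : ℤ) := by
            push_cast
            exact (Int.floor_le _).trans (by linarith [h1.1])
          exact_mod_cast h5
      have h4 : (0:ℤ) ≤ (if e ∈ S then 1 else 0) := by split_ifs <;> norm_num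
      rw [abs_of_nonpos (by omega)]
      constructor <;> omega
  · have hne : ∀ v, v ≠ r → bdry ℤ src dst (fun e => ⌊f e⌋ + (if e ∈ S then 1 else 0)) v = 0 := by
      intro v hv
      rw [bdry_apply]
      have h1 := congrFun hS ⟨v, hv⟩
      simp only [Finset.sum_apply, Pi.neg_apply, Pi.smul_apply, smul_eq_mul] at h1
      have h2 : ∀ e, (⌊f e⌋ + (if e ∈ S then 1 else 0)) *
          ((if src e = v then (1:ℤ) else 0) - (if dst e = v then 1 else 0))
          = ⌊f e⌋ * x e ⟨v, hv⟩ + (if e ∈ S then x e ⟨v, hv⟩ else 0) := by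
        intro e
        simp only [x, inc]
        by_cases he : e ∈ S
        · rw [if_pos he, if_pos he]; ring
        · rw [if_neg he, if_neg he]; ring
      rw [Finset.sum_congr rfl (fun e _ => h2 e), Finset.sum_add_distrib, ← Finset.sum_filter,
        Finset.filter_mem_eq_inter, Finset.univ_inter, h1]
      ring
    ext v
    by_cases hv : v = r
    · subst hv
      have h1 : ∑ u, bdry ℤ src dst (fun e => ⌊f e⌋ + (if e ∈ S then 1 else 0)) u = 0 := by
        simp only [bdry_apply]
        rw [Finset.sum_comm]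
        apply Finset.sum_eq_zero
        intro e _
        rw [← Finset.mul_sum, Finset.sum_sub_distrib]
        simp
      rw [← Finset.add_sum_erase univ _ (Finset.mem_univ v)] at h1
      rw [Finset.sum_eq_zero (fun u hu => hne u (Finset.ne_of_mem_erase hu)), add_zero] at h1
      exact h1
    · exact hne v hv

end Pool.Agent.H239R2.Cover
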