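import Pool.Agent.H239R2.Cover.Graph

set_option autoImplicit false

/-!
Orientations of multigraphs with prescribed out-degrees modulo `m`.
-/

namespace Pool.Agent.H239R2.Cover

open Matrix Finset

set_option linter.unusedSectionVars false

variable {V E : Type} [Fintype V] [DecidableEq V] [Fintype E] [DecidableEq E]

/-- The tail of the edge `e` in the orientation `o` (`o e = true`: from `src e` to `dst e`). -/
def tail (src dst : E → V) (o : E → Bool) (e : E) : V := if o e then src e else dst e

/-- The out-degree of `v` in the orientation `o`. -/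
def outdeg (src dst : E → V) (o : E → Bool) (v : V) : ℕ :=
  (univ.filter (fun e => tail src dst o e = v)).card

theorem sum_outdeg (src dst : E → V) (o : E → Bool) :
    ∑ v, outdeg src dst o v = Fintype.card E := by
  unfold outdeg
  rw [← Finset.card_eq_sum_card_fiberwise (f := tail src dst o) (s := univ) (t := univ)
    (fun _ _ => Finset.mem_coe.mpr (Finset.mem_univ _))]
  exact Finset.card_univ

theorem orientation_core (src dst : E → V) (r : V) (m : ℕ) (hm : 0 < m)
    (I : Fin m → Finset E) (hd : ∀ i j, i ≠ j → Disjoint (I i) (I j))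
    (hI : ∀ j, Submodule.span ℝ ((fun e => rv (inc src dst r e)) '' (I j : Set E)) = ⊤)
    (θ : V → ZMod m) (hθ : ∑ v, θ v = (Fintype.card E : ZMod m)) :
    ∃ o : E → Bool, ∀ v, (outdeg src dst o v : ZMod m) = θ v := by
  classical
  have : NeZero m := ⟨hm.ne'⟩
  -- target vector
  let od : V → ℤ := fun v => ((univ.filter (fun e => src e = v)).card : ℤ)
  let tgt : Rt r → ℤ := fun v => od v.1 - ((θ v.1).val : ℤ)
  obtain ⟨S, a, hS⟩ := subset_sum_mod (inc src dst r) (unimod_inc src dst r) m hm I hd
    hI tgt
  let o : E → Bool := fun e => decide (e ∉ S)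
  have hout : ∀ v, (outdeg src dst o v : ℤ)
      = od v - ∑ e ∈ S, ((if src e = v then 1 else 0) - (if dst e = v then 1 else 0)) := by
    intro v
    have h1 : (outdeg src dst o v : ℤ) = ∑ e, (if tail src dst o e = v then (1:ℤ) else 0) := by
      unfold outdeg
      rw [Finset.card_filter]
      push_cast
      rfl
    have h2 : od v = ∑ e, (if src e = v then (1:ℤ) else 0) := by
      simp only [od]
      rw [Finset.card_filter]
      push_cast
      rfl
    have h3 : ∑ e ∈ S, (((if src e = v then (1:ℤ) else 0) - (if dst e = v then 1 else 0)))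
        = ∑ e, (if e ∈ S then ((if src e = v then (1:ℤ) else 0) - (if dst e = v then 1 else 0))
            else 0) := by
      rw [← Finset.sum_filter, Finset.filter_mem_eq_inter, Finset.univ_inter]
    rw [h1, h2, h3, ← Finset.sum_sub_distrib]
    refine Finset.sum_congr rfl fun e _ => ?_
    by_cases he : e ∈ S
    · simp [tail, o, he]
    · simp [tail, o, he]
  refine ⟨o, ?_⟩
  have hne : ∀ v, v ≠ r → (outdeg src dst o v : ZMod m) = θ v := by
    intro v hv
    have h1 := hout v
    have h2 := congrFun hS ⟨v, hv⟩
    rw [Finset.sum_apply] at h2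
    simp only [inc, tgt, Pi.sub_apply, Pi.smul_apply, smul_eq_mul] at h2
    rw [h2] at h1
    have h3 : (outdeg src dst o v : ℤ) = ((θ v).val : ℤ) + m * a ⟨v, hv⟩ := by
      rw [h1]; ring
    have h4 := congrArg (Int.cast : ℤ → ZMod m) h3
    push_cast at h4
    rw [h4]
    simp
  intro v
  by_cases hv : v = r
  · subst hv
    have h1 := sum_outdeg src dst o
    have h2 := congrArg (Nat.cast : ℕ → ZMod m) h1
    rw [Nat.cast_sum, ← hθ, ← Finset.add_sum_erase univ _ (Finset.mem_univ v),
      ← Finset.add_sum_erase univ θ (Finset.mem_univ v)] at h2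
    have h3 : ∑ u ∈ univ.erase v, (outdeg src dst o u : ZMod m) = ∑ u ∈ univ.erase v, θ u :=
      Finset.sum_congr rfl fun u hu => hne u (Finset.ne_of_mem_erase hu)
    rw [h3] at h2
    exact add_right_cancel h2
  · exact hne v hv

/-- `m` pairwise disjoint connected spanning edge sets give all out-degree sequences modulo `m`
with the right sum. -/
theorem orientation_of_packing (src dst : E → V) (m : ℕ) (hm : 0 < m)
    (I : Fin m → Finset E) (hd : ∀ i j, i ≠ j → Disjoint (I i) (I j))
    (hI : ∀ j, Connects src dst (I j)) (θ : V → ZMod m)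
    (hθ : ∑ v, θ v = (Fintype.card E : ZMod m)) :
    ∃ o : E → Bool, ∀ v, (outdeg src dst o v : ZMod m) = θ v := by
  rcases isEmpty_or_nonempty V with hV | ⟨⟨r⟩⟩
  · exact ⟨fun _ => true, fun v => (hV.false v).elim⟩
  · exact orientation_core src dst r m hm I hd
      (fun j => span_of_connects src dst r (I j) (hI j)) θ hθ

end Pool.Agent.H239R2.Cover
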