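import Mathlib

set_option autoImplicit false

/-!
A nonempty set of edges meeting every vertex an even number of times has at least girth many
elements.
-/

namespace Pool.Agent.H239R2.Planar

variable {V : Type}

open SimpleGraph

/-- A finite acyclic graph with an edge has a vertex with exactly one neighbour. -/
theorem exists_leaf_of_acyclic [Fintype V] (H : SimpleGraph V) (h : H.IsAcyclic) {a b : V}
    (hab : H.Adj a b) : ∃ u, ∃! w, H.Adj u w := by
  classical
  haveI : Nonempty V := ⟨a⟩
  obtain ⟨u, v, p, hp, hmax⟩ := Walk.exists_isPath_forall_isPath_length_le_length H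
  have hnil : ¬ p.Nil := by
    intro hn
    have h0 : p.length = 0 := Walk.length_eq_zero_iff.mpr hn
    have h1 : (Walk.cons hab Walk.nil : H.Walk a b).IsPath := by
      rw [Walk.cons_isPath_iff]
      refine ⟨Walk.IsPath.nil, ?_⟩
      simp only [Walk.support_nil, List.mem_singleton]
      exact hab.ne
    have := hmax _ _ _ h1
    simp at this
    omega
  refine ⟨u, p.snd, p.adj_snd hnil, fun w hadj ↦ ?_⟩
  apply h.eq_snd_of_adj_start hp hadj
  by_contra hw
  have h2 : (Walk.cons hadj.symm p).IsPath := by
    rw [Walk.cons_isPath_iff]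
    exact ⟨hp, hw⟩
  have := hmax _ _ _ h2
  simp at this

open Classical in
theorem even_card_ge_girth [Fintype V] (G : SimpleGraph V) (B : Finset (Sym2 V))
    (hB : (B : Set (Sym2 V)) ⊆ G.edgeSet) (hne : B.Nonempty)
    (hev : ∀ v : V, Even (B.filter (fun e => v ∈ e)).card) :
    G.egirth ≤ (B.card : ℕ∞) := by
  set H : SimpleGraph V := SimpleGraph.fromEdgeSet (B : Set (Sym2 V)) with hH
  have hadj : ∀ u v, H.Adj u v ↔ s(u, v) ∈ B := by
    intro u v
    rw [hH, SimpleGraph.fromEdgeSet_adj]
    constructor
    · rintro ⟨h, _⟩; exact_mod_cast h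
    · intro h
      have h' : s(u, v) ∈ (B : Set (Sym2 V)) := by exact_mod_cast h
      exact ⟨h', (G.mem_edgeSet.mp (hB h')).ne⟩
  have hle : H ≤ G := by
    intro u v huv
    exact G.mem_edgeSet.mp (hB (by exact_mod_cast (hadj u v).mp huv))
  have hcyc : ¬ H.IsAcyclic := by
    intro hac
    obtain ⟨e, he⟩ := hne
    induction e using Sym2.ind with
    | _ a b =>
      obtain ⟨u, w, hw, huniq⟩ := exists_leaf_of_acyclic H hac ((hadj a b).mpr he)
      have h1 : B.filter (fun e => u ∈ e) = {s(u, w)} := by
        ext e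
        simp only [Finset.mem_filter, Finset.mem_singleton]
        constructor
        · rintro ⟨he, hu⟩
          obtain ⟨w', rfl⟩ := hu
          rw [huniq w' ((hadj u w').mpr he)]
        · rintro rfl
          exact ⟨(hadj u w).mp hw, Sym2.mem_mk_left u w⟩
      have h2 := hev u
      rw [h1] at h2
      simp at h2
  rw [SimpleGraph.IsAcyclic] at hcyc
  push Not at hcyc
  obtain ⟨v, c, hc⟩ := hcyc
  have h1 : G.egirth ≤ ((c.mapLe hle).length : ℕ∞) :=
    SimpleGraph.egirth_le_length ((Walk.isCycle_mapLe hle).mpr hc)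
  rw [Walk.length_mapLe] at h1
  refine h1.trans ?_
  have h2 : c.edges.toFinset ⊆ B := by
    intro e he
    rw [List.mem_toFinset] at he
    have h3 := Walk.edges_subset_edgeSet c he
    induction e using Sym2.ind with
    | _ a b => exact (hadj a b).mp h3
  have h3 := Finset.card_le_card h2
  rw [List.toFinset_card_of_nodup hc.isTrail.edges_nodup, Walk.length_edges] at h3
  exact_mod_cast h3

end Pool.Agent.H239R2.Planar
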