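import Pool.Agent.H239R2.Cover.PlanarDefs
import Pool.Agent.H239R2.Cover.PlanarE

set_option autoImplicit false

/-!
Sparsity of planar graphs of large girth (planarity by rotation systems and Euler's formula).
-/

namespace Pool.Agent.H239R2.Planar

open SimpleGraph

noncomputable section

open Classical

variable {V : Type} [Fintype V] (G : SimpleGraph V) (σ : Equiv.Perm G.Dart)

/-- the face to the side of a dart -/
def face (d : G.Dart) : Face G σ := Quotient.mk _ d

theorem face_symm (d : G.Dart) : face G σ d.symm = face G σ (σ d) := by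
  apply Quotient.sound
  show (facePerm G σ).SameCycle d.symm (σ d)
  have h : σ d = facePerm G σ d.symm := by
    simp [facePerm, revPerm]
  rw [h]
  exact (Equiv.Perm.sameCycle_apply_right).mpr (Equiv.Perm.SameCycle.refl _ _)

theorem face_surj (f : Face G σ) : ∃ d, face G σ d = f := Quotient.exists_rep f

/-- a chosen dart on each edge -/
theorem exists_dt (e : G.edgeSet) : ∃ d : G.Dart, d.edge = e.1 := by
  obtain ⟨e, he⟩ := e
  induction e using Sym2.ind with
  | _ a b => exact ⟨⟨(a, b), G.mem_edgeSet.mp he⟩, rfl⟩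

/-- a chosen dart on each edge -/
def dt (e : G.edgeSet) : G.Dart := (exists_dt G e).choose

theorem dt_edge (e : G.edgeSet) : (dt G e).edge = e.1 := (exists_dt G e).choose_spec

instance : Finite G.Dart := by
  have : Function.Injective (fun d : G.Dart => d.toProd) := Dart.toProd_injective
  exact Finite.of_injective _ this

instance : Fintype G.Dart := Fintype.ofFinite _
instance : Fintype G.edgeSet := Fintype.ofFinite _
instance : Fintype (Face G σ) := Fintype.ofFinite _
instance : Fintype G.ConnectedComponent := Fintype.ofFinite _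

theorem sum_darts (h : G.Dart → ℚ) :
    ∑ d : G.Dart, h d = ∑ e : G.edgeSet, (h (dt G e) + h (dt G e).symm) := by
  rw [← Finset.sum_fiberwise_of_maps_to (s := Finset.univ) (t := Finset.univ)
    (g := fun d : G.Dart => (⟨d.edge, d.edge_mem⟩ : G.edgeSet)) (fun _ _ => Finset.mem_univ _)]
  refine Finset.sum_congr rfl fun e _ => ?_
  have h1 : (Finset.univ.filter fun d : G.Dart =>
      (⟨d.edge, d.edge_mem⟩ : G.edgeSet) = e) = {dt G e, (dt G e).symm} := by
    ext d
    simp only [Finset.mem_filter, Finset.mem_univ, true_and, Finset.mem_insert,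
      Finset.mem_singleton]
    rw [← dart_edge_eq_iff, dt_edge, Subtype.ext_iff]
  rw [h1, Finset.sum_pair (dt G e).symm_ne.symm]

/-- the incidence vector of an edge -/
def wv (e : G.edgeSet) : V → ℚ :=
  Pi.single (dt G e).fst 1 - Pi.single (dt G e).snd 1

/-- the boundary map -/
def bdry : (G.edgeSet → ℚ) →ₗ[ℚ] (V → ℚ) := Fintype.linearCombination ℚ (wv G)

/-- the coboundary map of the dual -/
def DD : (Face G σ → ℚ) →ₗ[ℚ] (G.edgeSet → ℚ) where
  toFun ψ := fun e => ψ (face G σ (dt G e)) - ψ (face G σ (dt G e).symm)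
  map_add' a b := by ext e; simp; ring
  map_smul' a b := by ext e; simp; ring

theorem DD_apply (ψ : Face G σ → ℚ) (e : G.edgeSet) :
    DD G σ ψ e = ψ (face G σ (dt G e)) - ψ (face G σ (dt G e).symm) := rfl

theorem bdry_apply (y : G.edgeSet → ℚ) (v : V) :
    bdry G y v = ∑ e, y e * ((if v = (dt G e).fst then 1 else 0) -
      (if v = (dt G e).snd then 1 else 0)) := by
  simp only [bdry, Fintype.linearCombination_apply, wv, Finset.sum_apply, Pi.smul_apply,
    Pi.sub_apply, smul_eq_mul, Pi.single_apply]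

variable {σ} in
theorem bdry_DD (hσ : IsRotation G σ) (ψ : Face G σ → ℚ) : bdry G (DD G σ ψ) = 0 := by
  ext v
  rw [bdry_apply]
  have h1 : ∑ d : G.Dart, (ψ (face G σ d) - ψ (face G σ d.symm)) * (if v = d.fst then 1 else 0)
      = 0 := by
    simp only [sub_mul, Finset.sum_sub_distrib]
    rw [sub_eq_zero, ← Equiv.sum_comp σ]
    refine Finset.sum_congr rfl fun d _ => ?_
    rw [face_symm, hσ.1 d]
  rw [Pi.zero_apply]
  refine Eq.trans ?_ h1
  rw [sum_darts]
  refine Finset.sum_congr rfl fun e _ => ?_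
  rw [DD_apply, Dart.symm_symm]
  have h2 : (dt G e).symm.fst = (dt G e).snd := rfl
  rw [h2]
  ring

theorem single_sub_mem_of_adj {u v : V} (h : G.Adj u v) :
    (Pi.single u 1 - Pi.single v 1 : V → ℚ) ∈ LinearMap.range (bdry G) := by
  set e : G.edgeSet := ⟨s(u, v), G.mem_edgeSet.mpr h⟩ with he
  have h1 : (dt G e).edge = s(u, v) := dt_edge G e
  have h2 : wv G e ∈ LinearMap.range (bdry G) := by
    refine ⟨Pi.single e 1, ?_⟩
    simp [bdry]
  rcases dart_edge_eq_mk'_iff'.mp h1 with ⟨h3, h4⟩ | ⟨h3, h4⟩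
  · rw [wv, h3, h4] at h2
    exact h2
  · rw [wv, h3, h4] at h2
    have := (LinearMap.range (bdry G)).neg_mem h2
    simpa using this

theorem single_sub_mem_of_reachable {u v : V} (h : G.Reachable u v) :
    (Pi.single u 1 - Pi.single v 1 : V → ℚ) ∈ LinearMap.range (bdry G) := by
  obtain ⟨p⟩ := h
  induction p with
  | nil => simp
  | cons hadj p ih =>
    have := (LinearMap.range (bdry G)).add_mem (single_sub_mem_of_adj G hadj) ih
    simpa using this

theorem card_le_rank_add : Fintype.card V ≤
    Module.finrank ℚ (LinearMap.range (bdry G)) + Fintype.card G.ConnectedComponent := by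
  set R := LinearMap.range (bdry G) with hR
  set b : G.ConnectedComponent → (V → ℚ) := fun c => Pi.single c.out 1 with hb
  have h1 : (⊤ : Submodule ℚ (V → ℚ)) ≤ R ⊔ Submodule.span ℚ (Set.range b) := by
    intro x _
    rw [← Finset.univ_sum_single x]
    refine Submodule.sum_mem _ fun v _ => ?_
    have h2 : (Pi.single v (x v) : V → ℚ) = x v • (Pi.single v 1) := by
      rw [← Pi.single_smul]; simp
    rw [h2]
    apply Submodule.smul_mem
    have h3 : (Pi.single v 1 : V → ℚ) = (Pi.single v 1 - Pi.single (G.connectedComponentMk v).out 1)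
        + Pi.single (G.connectedComponentMk v).out 1 := by simp
    rw [h3]
    refine Submodule.add_mem_sup ?_ (Submodule.subset_span ⟨G.connectedComponentMk v, rfl⟩)
    apply single_sub_mem_of_reachable
    apply ConnectedComponent.exact
    exact (Quot.out_eq (G.connectedComponentMk v)).symm
  have h2 := Submodule.finrank_mono h1
  rw [finrank_top, Module.finrank_fintype_fun_eq_card] at h2
  have h3 := Submodule.finrank_add_le_finrank_add_finrank R (Submodule.span ℚ (Set.range b))
  have h4 : Module.finrank ℚ (Submodule.span ℚ (Set.range b)) ≤ Fintype.card G.ConnectedComponent :=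
    finrank_range_le_card b
  omega

variable {σ} in
theorem ker_const (hσ : IsRotation G σ) (ψ : Face G σ → ℚ) (hψ : DD G σ ψ = 0) {u v : V}
    (h : G.Reachable u v) (d d' : G.Dart) (hd : d.fst = u) (hd' : d'.fst = v) :
    ψ (face G σ d) = ψ (face G σ d') := by
  have hsym : ∀ d : G.Dart, ψ (face G σ d) = ψ (face G σ d.symm) := by
    intro d
    have h1 := congrFun hψ ⟨d.edge, d.edge_mem⟩
    rw [DD_apply, Pi.zero_apply, sub_eq_zero] at h1
    have h2 := dt_edge G ⟨d.edge, d.edge_mem⟩
    rcases (dart_edge_eq_iff _ _).mp h2 with h3 | h3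
    · rw [h3] at h1; exact h1
    · rw [h3, Dart.symm_symm] at h1; exact h1.symm
  have hsame : ∀ d d' : G.Dart, d.fst = d'.fst → ψ (face G σ d) = ψ (face G σ d') := by
    intro d d' hdd
    obtain ⟨n, hn⟩ := (hσ.2 d d' hdd).exists_nat_pow_eq
    rw [← hn]
    clear hn hdd
    induction n with
    | zero => simp
    | succ n ih =>
      rw [ih, pow_succ', Equiv.Perm.mul_apply, ← face_symm]
      exact hsym _
  obtain ⟨p⟩ := h
  induction p generalizing d with
  | nil => exact hsame d d' (by rw [hd, hd'])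
  | @cons u w v hadj p ih =>
    set d1 : G.Dart := ⟨(u, w), hadj⟩ with hd1
    rw [hsame d d1 hd, hsym d1]
    exact ih d1.symm rfl hd'

/-- components with an edge -/
abbrev NonIso : Type := {c : G.ConnectedComponent // ∃ d : G.Dart, G.connectedComponentMk d.fst = c}

instance : Fintype (NonIso G) := Fintype.ofFinite _

variable {σ} in
theorem finrank_ker_DD_le (hσ : IsRotation G σ) :
    Module.finrank ℚ (LinearMap.ker (DD G σ)) ≤ Fintype.card (NonIso G) := by
  set T : LinearMap.ker (DD G σ) →ₗ[ℚ] (NonIso G → ℚ) :=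
    { toFun := fun ψ c => ψ.1 (face G σ c.2.choose)
      map_add' := by intro a b; ext c; simp
      map_smul' := by intro a b; ext c; simp } with hT
  have hinj : Function.Injective T := by
    rw [injective_iff_map_eq_zero]
    intro ψ hψ
    ext f
    obtain ⟨d, rfl⟩ := face_surj G σ f
    set c : NonIso G := ⟨G.connectedComponentMk d.fst, d, rfl⟩ with hc
    have h1 := congrFun hψ c
    have h2 : ψ.1 (face G σ c.2.choose) = 0 := h1
    have h3 := c.2.choose_spec
    have h4 := ker_const G hσ ψ.1 (LinearMap.mem_ker.mp ψ.2)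
      (ConnectedComponent.exact h3.symm) d c.2.choose rfl rfl
    simpa [h4] using h2
  have := LinearMap.finrank_le_finrank_of_injective hinj
  rwa [Module.finrank_fintype_fun_eq_card] at this

theorem card_comp_le : Fintype.card (NonIso G) + Nat.card {v : V // ∀ w, ¬ G.Adj v w} ≤
    Fintype.card G.ConnectedComponent := by
  rw [← Nat.card_eq_fintype_card, ← Nat.card_eq_fintype_card, ← Nat.card_sum]
  set f : NonIso G ⊕ {v : V // ∀ w, ¬ G.Adj v w} → G.ConnectedComponent :=
    Sum.elim (fun c => c.1) (fun v => G.connectedComponentMk v.1) with hf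
  have hiso : ∀ (v : V), (∀ w, ¬ G.Adj v w) → ∀ u, G.Reachable v u → u = v := by
    intro v hv u hu
    obtain ⟨p⟩ := hu
    cases p with
    | nil => rfl
    | cons h p => exact absurd h (hv _)
  apply Nat.card_le_card_of_injective f
  intro a b hab
  rcases a with ⟨c, d, hd⟩ | ⟨v, hv⟩ <;> rcases b with ⟨c', d', hd'⟩ | ⟨v', hv'⟩
  · simp only [hf, Sum.elim_inl] at hab
    subst hab
    rfl
  · exfalso
    simp only [hf, Sum.elim_inl, Sum.elim_inr] at hab
    rw [← hd] at hab
    have h1 := hiso v' hv' d.fst (ConnectedComponent.exact hab.symm)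
    exact hv' d.snd (h1 ▸ d.adj)
  · exfalso
    simp only [hf, Sum.elim_inl, Sum.elim_inr] at hab
    rw [← hd'] at hab
    have h1 := hiso v hv d'.fst (ConnectedComponent.exact hab)
    exact hv d'.snd (h1 ▸ d'.adj)
  · simp only [hf, Sum.elim_inr] at hab
    have h1 := hiso v hv v' (ConnectedComponent.exact hab)
    subst h1
    rfl

variable {σ} in
/-- every cycle is a sum of face boundaries -/
theorem ker_bdry (hσ : IsRotation G σ)
    (heu : Nat.card V + (Nat.card (Face G σ) + Nat.card {v : V // ∀ w, ¬ G.Adj v w})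
      = Nat.card G.edgeSet + 2 * Nat.card G.ConnectedComponent) :
    LinearMap.range (DD G σ) = LinearMap.ker (bdry G) := by
  apply Submodule.eq_of_le_of_finrank_le
  · rintro _ ⟨ψ, rfl⟩
    exact bdry_DD G hσ ψ
  · have h1 := LinearMap.finrank_range_add_finrank_ker (bdry G)
    have h2 := LinearMap.finrank_range_add_finrank_ker (DD G σ)
    rw [Module.finrank_fintype_fun_eq_card] at h1 h2
    have h3 := card_le_rank_add G
    have h4 := finrank_ker_DD_le G hσ
    have h5 := card_comp_le G
    rw [Nat.card_eq_fintype_card (α := V), Nat.card_eq_fintype_card (α := Face G σ),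
      Nat.card_eq_fintype_card (α := G.edgeSet),
      Nat.card_eq_fintype_card (α := G.ConnectedComponent)] at heu
    omega

/-- the gluing of the faces across the edges outside `A` -/
def glue (A : Finset (Sym2 V)) (f f' : Face G σ) : Prop :=
  ∃ d : G.Dart, d.edge ∉ A ∧ f = face G σ d ∧ f' = face G σ d.symm

/-- regions -/
abbrev Reg (A : Finset (Sym2 V)) : Type := Quot (glue G σ A)

instance (A : Finset (Sym2 V)) : Fintype (Reg G σ A) := Fintype.ofFinite _

/-- region of a dart -/
def reg (A : Finset (Sym2 V)) (d : G.Dart) : Reg G σ A := Quot.mk _ (face G σ d)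

theorem reg_symm_of_not_mem (A : Finset (Sym2 V)) (d : G.Dart) (hd : d.edge ∉ A) :
    reg G σ A d = reg G σ A d.symm :=
  Quot.sound ⟨d, hd, rfl, rfl⟩

/-- the boundary of a region -/
def bdr (A : Finset (Sym2 V)) (X : Reg G σ A) : Finset (Sym2 V) :=
  A.filter fun e => ∃ d : G.Dart, d.edge = e ∧ reg G σ A d = X ∧ reg G σ A d.symm ≠ X

theorem mem_bdr (A : Finset (Sym2 V)) (X : Reg G σ A) (d : G.Dart) :
    d.edge ∈ bdr G σ A X ↔ ¬ (reg G σ A d = X ↔ reg G σ A d.symm = X) := by
  constructor
  · intro h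
    rw [bdr, Finset.mem_filter] at h
    obtain ⟨_, d', h1, h2, h3⟩ := h
    rcases (dart_edge_eq_iff _ _).mp h1 with h4 | h4
    · subst h4; tauto
    · subst h4; rw [Dart.symm_symm] at h3; tauto
  · intro h
    rw [bdr, Finset.mem_filter]
    constructor
    · by_contra hA
      exact h (by rw [reg_symm_of_not_mem G σ A d hA])
    · by_cases h1 : reg G σ A d = X
      · exact ⟨d, rfl, h1, fun h2 => h ⟨fun _ => h2, fun _ => h1⟩⟩
      · refine ⟨d.symm, Dart.edge_symm d, ?_, by rwa [Dart.symm_symm]⟩
        by_contra h2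
        exact h ⟨fun h3 => absurd h3 h1, fun h3 => absurd h3 h2⟩

variable {σ} in
theorem bdr_even (hσ : IsRotation G σ) (A : Finset (Sym2 V)) (X : Reg G σ A) (v : V) :
    Even ((bdr G σ A X).filter (fun e => v ∈ e)).card := by
  have h1 : (bdr G σ A X).filter (fun e => v ∈ e) =
      ((Finset.univ.filter fun d : G.Dart => d.fst = v ∧ d.edge ∈ bdr G σ A X)).image
        Dart.edge := by
    ext e
    simp only [Finset.mem_filter, Finset.mem_image, Finset.mem_univ, true_and]
    constructor
    · rintro ⟨h1, h2⟩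
      have h3 := h1
      rw [bdr, Finset.mem_filter] at h3
      obtain ⟨_, d, hd, _⟩ := h3
      subst hd
      rw [Dart.edge, Sym2.mem_iff] at h2
      rcases h2 with h2 | h2
      · exact ⟨d, ⟨h2.symm, h1⟩, rfl⟩
      · refine ⟨d.symm, ⟨h2.symm, ?_⟩, Dart.edge_symm d⟩
        rwa [Dart.edge_symm]
    · rintro ⟨d, ⟨h1, h2⟩, rfl⟩
      refine ⟨h2, ?_⟩
      rw [Dart.edge, Sym2.mem_iff]
      exact Or.inl h1.symm
  rw [h1, Finset.card_image_of_injOn]
  · rw [← ZMod.natCast_eq_zero_iff_even, Finset.card_filter]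
    push_cast
    have h2 : ∀ d : G.Dart, ((if d.fst = v ∧ d.edge ∈ bdr G σ A X then 1 else 0 : ZMod 2)) =
        (if d.fst = v ∧ reg G σ A d = X then 1 else 0) +
        (if (σ d).fst = v ∧ reg G σ A (σ d) = X then 1 else 0) := by
      intro d
      simp only [mem_bdr, hσ.1 d]
      have h3 : reg G σ A d.symm = reg G σ A (σ d) := by
        unfold reg; rw [face_symm]
      rw [h3]
      by_cases ha : d.fst = v <;> by_cases hb : reg G σ A d = X <;>
        by_cases hc : reg G σ A (σ d) = X <;> simp [ha, hb, hc] <;> decide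
    rw [Finset.sum_congr rfl fun d _ => h2 d, Finset.sum_add_distrib,
      Equiv.sum_comp σ (fun d => (if d.fst = v ∧ reg G σ A d = X then 1 else 0 : ZMod 2))]
    exact CharTwo.add_self_eq_zero _
  · intro d hd d' hd' hdd
    simp only [Finset.coe_filter, Finset.mem_univ, true_and, Set.mem_ofPred_eq] at hd hd'
    rcases (dart_edge_eq_iff _ _).mp hdd with h4 | h4
    · exact h4
    · exfalso
      have h5 : d'.snd = v := by rw [← hd.1, h4]; rfl
      exact d'.fst_ne_snd (by rw [hd'.1, h5])

/-- The indicator function of a region -/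
def ind (A : Finset (Sym2 V)) (X : Reg G σ A) : Face G σ → ℚ :=
  fun f => if (Quot.mk _ f : Reg G σ A) = X then 1 else 0

theorem DD_ind_eq_zero (A : Finset (Sym2 V)) (X : Reg G σ A) (h : bdr G σ A X = ∅) :
    DD G σ (ind G σ A X) = 0 := by
  ext e
  rw [DD_apply, Pi.zero_apply, sub_eq_zero]
  have h1 : (dt G e).edge ∉ bdr G σ A X := by rw [h]; simp
  rw [mem_bdr, not_not] at h1
  change (if reg G σ A (dt G e) = X then (1 : ℚ) else 0) =
    (if reg G σ A (dt G e).symm = X then (1 : ℚ) else 0)
  simp only [h1]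

/-- A function on the faces compatible with the gluing is a combination of indicators -/
theorem eq_sum_ind (A : Finset (Sym2 V)) (ψ : Face G σ → ℚ)
    (hψ : ∀ d : G.Dart, d.edge ∉ A → ψ (face G σ d) = ψ (face G σ d.symm)) :
    ∃ φ : Reg G σ A → ℚ, ψ = ∑ X, φ X • ind G σ A X := by
  refine ⟨Quot.lift ψ ?_, ?_⟩
  · rintro f f' ⟨d, hd, rfl, rfl⟩
    exact hψ d hd
  · ext f
    rw [Finset.sum_apply]
    simp [ind]

theorem mem_span_of_supported (A : Finset (Sym2 V)) (ψ : Face G σ → ℚ)
    (hψ : ∀ d : G.Dart, d.edge ∉ A → ψ (face G σ d) = ψ (face G σ d.symm)) :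
    DD G σ ψ ∈ Submodule.span ℚ (Set.range
      (fun X : {X : Reg G σ A // (bdr G σ A X).Nonempty} => DD G σ (ind G σ A X.1))) := by
  obtain ⟨φ, hφ⟩ := eq_sum_ind G σ A ψ hψ
  rw [hφ, map_sum]
  refine Submodule.sum_mem _ fun X _ => ?_
  rw [map_smul]
  apply Submodule.smul_mem
  by_cases hX : (bdr G σ A X).Nonempty
  · exact Submodule.subset_span ⟨⟨X, hX⟩, rfl⟩
  · rw [DD_ind_eq_zero G σ A X (Finset.not_nonempty_iff_eq_empty.mp hX)]
    exact Submodule.zero_mem _

/-- extension by zero -/
def ext0 (A : Finset (Sym2 V)) : ({e : G.edgeSet // e.1 ∈ A} → ℚ) →ₗ[ℚ] (G.edgeSet → ℚ) where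
  toFun y := fun e => if h : e.1 ∈ A then y ⟨e, h⟩ else 0
  map_add' a b := by ext e; by_cases h : e.1 ∈ A <;> simp [h]
  map_smul' a b := by ext e; by_cases h : e.1 ∈ A <;> simp [h]

theorem ext0_inj (A : Finset (Sym2 V)) : Function.Injective (ext0 G A) := by
  intro a b hab
  ext ⟨e, he⟩
  have := congrFun hab e
  simpa [ext0, he] using this

theorem range_le (A : Finset (Sym2 V)) :
    Module.finrank ℚ (LinearMap.range ((bdry G).comp (ext0 G A))) ≤ rk A := by
  unfold rk
  apply Submodule.finrank_mono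
  rintro _ ⟨y, rfl⟩
  rw [LinearMap.comp_apply, bdry, Fintype.linearCombination_apply]
  refine Submodule.sum_mem _ fun e _ => ?_
  by_cases h : e.1 ∈ A
  · apply Submodule.smul_mem
    apply Submodule.subset_span
    refine ⟨(dt G e).fst, (dt G e).snd, ?_, rfl⟩
    have h1 := dt_edge G e
    rw [Dart.edge] at h1
    rw [h1]
    exact h
  · have h1 : ext0 G A y e = 0 := by simp [ext0, h]
    rw [h1, zero_smul]
    exact Submodule.zero_mem _

/-- double counting of the boundaries -/
theorem sum_bdr_le (A : Finset (Sym2 V)) :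
    ∑ X : Reg G σ A, (bdr G σ A X).card ≤ 2 * A.card := by
  have h1 : ∀ X : Reg G σ A, (bdr G σ A X).card = ∑ e ∈ A, if e ∈ bdr G σ A X then 1 else 0 := by
    intro X
    rw [← Finset.card_filter]
    congr 1
    ext e
    simp only [Finset.mem_filter]
    constructor
    · intro h
      exact ⟨(Finset.mem_filter.mp h).1, h⟩
    · exact fun h => h.2
  rw [Finset.sum_congr rfl fun X _ => h1 X, Finset.sum_comm, mul_comm, ← smul_eq_mul]
  apply Finset.sum_le_card_nsmul
  intro e he
  rw [← Finset.card_filter]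
  by_cases hd : ∃ d : G.Dart, d.edge = e
  · obtain ⟨d, rfl⟩ := hd
    have h2 : (Finset.univ.filter fun X => d.edge ∈ bdr G σ A X) ⊆
        {reg G σ A d, reg G σ A d.symm} := by
      intro X hX
      simp only [Finset.mem_filter, Finset.mem_univ, true_and] at hX
      rw [mem_bdr] at hX
      simp only [Finset.mem_insert, Finset.mem_singleton]
      by_contra h
      push Not at h
      exact hX ⟨fun h3 => absurd h3.symm h.1, fun h3 => absurd h3.symm h.2⟩
    exact (Finset.card_le_card h2).trans Finset.card_le_two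
  · have h2 : (Finset.univ.filter fun X => e ∈ bdr G σ A X) = ∅ := by
      rw [Finset.filter_eq_empty_iff]
      intro X _ hX
      rw [bdr, Finset.mem_filter] at hX
      obtain ⟨_, d, hd', _⟩ := hX
      exact hd ⟨d, hd'⟩
    rw [h2]
    simp

end

open Classical in
theorem planar_sparse {V : Type} [Fintype V] (G : SimpleGraph V) (hG : IsPlanar G) (m : ℕ)
    (hg : ((2 * m : ℕ) : ℕ∞) ≤ G.egirth) (A : Finset (Sym2 V))
    (hA : (A : Set (Sym2 V)) ⊆ G.edgeSet) :
    m * A.card ≤ m * rk A + A.card := by
  obtain ⟨σ, hσ, heu⟩ := hG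
  -- the cycles supported on `A`
  set L := (bdry G).comp (ext0 G A) with hL
  have h1 := LinearMap.finrank_range_add_finrank_ker L
  rw [Module.finrank_fintype_fun_eq_card] at h1
  have h2 : Fintype.card {e : G.edgeSet // e.1 ∈ A} = A.card := by
    rw [← Fintype.card_coe A]
    apply Fintype.card_congr
    exact
      { toFun := fun e => ⟨e.1.1, e.2⟩
        invFun := fun e => ⟨⟨e.1, hA e.2⟩, e.2⟩
        left_inv := fun _ => rfl
        right_inv := fun _ => rfl }
  have h3 := range_le G A
  rw [← hL] at h3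
  -- dimension of the cycle space
  set P := {X : Reg G σ A // (bdr G σ A X).Nonempty} with hP
  have h4 : (LinearMap.ker L).map (ext0 G A) ≤ Submodule.span ℚ (Set.range
      (fun X : P => DD G σ (ind G σ A X.1))) := by
    rintro _ ⟨y, hy, rfl⟩
    have hy' : bdry G (ext0 G A y) = 0 := hy
    have h5 : ext0 G A y ∈ LinearMap.range (DD G σ) := by
      rw [ker_bdry G hσ heu]
      exact hy'
    obtain ⟨ψ, hψ⟩ := h5
    rw [← hψ]
    apply mem_span_of_supported
    intro d hd
    have h6 : DD G σ ψ ⟨d.edge, d.edge_mem⟩ = 0 := by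
      rw [hψ]
      simp [ext0, hd]
    rw [DD_apply, sub_eq_zero] at h6
    rcases (dart_edge_eq_iff _ _).mp (dt_edge G ⟨d.edge, d.edge_mem⟩) with h7 | h7
    · rw [h7] at h6; exact h6
    · rw [h7, Dart.symm_symm] at h6; exact h6.symm
  have h5 : Module.finrank ℚ (LinearMap.ker L) ≤ Fintype.card P := by
    have h6 := Submodule.finrank_mono h4
    rw [← (Submodule.equivMapOfInjective _ (ext0_inj G A) (LinearMap.ker L)).finrank_eq] at h6
    exact h6.trans (finrank_range_le_card _)
  have h6 : 2 * m * Fintype.card P ≤ 2 * A.card := by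
    refine le_trans ?_ (sum_bdr_le G σ A)
    have h7 : ∑ X : P, (bdr G σ A X.1).card ≤ ∑ X : Reg G σ A, (bdr G σ A X).card := by
      rw [← Finset.sum_subtype (Finset.univ.filter fun X : Reg G σ A =>
        (bdr G σ A X).Nonempty) (by simp) (fun X => (bdr G σ A X).card)]
      exact Finset.sum_le_sum_of_subset (Finset.filter_subset _ _)
    refine le_trans ?_ h7
    rw [mul_comm, ← smul_eq_mul, ← Finset.card_univ]
    apply Finset.card_nsmul_le_sum
    rintro ⟨X, hX⟩ _
    have h8 := even_card_ge_girth G (bdr G σ A X)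
      (fun e he => hA (Finset.mem_filter.mp he).1) hX (bdr_even G hσ A X)
    exact_mod_cast hg.trans h8
  have h7 : m * Fintype.card P ≤ A.card := by nlinarith
  have h8 : A.card ≤ rk A + Fintype.card P := by omega
  nlinarith [Nat.mul_le_mul_left m h8]

end Pool.Agent.H239R2.Planar
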