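import Pool.Agent.H239R2.Cover.PlanarDefs
import Pool.Agent.H239R2.Cover.PlanarE

set_option autoImplicit false
set_option linter.unusedSectionVars false

/-!
Sparsity of planar graphs of large girth (planarity by straight-line drawings). No Euler formula
and no Jordan curve theorem is used: the faces are replaced by the functionals
the sum of the flow over the edges above, on the cycle space.
-/

namespace Pool.Agent.H239R2.Planar

namespace P2

open Filter Topology

noncomputable section

open Classical

theorem ite_cg {P Q : Prop} {i1 : Decidable P} {i2 : Decidable Q} (h : P ↔ Q) :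
    (@ite ℚ P i1 1 0) = @ite ℚ Q i2 1 0 := by
  by_cases hP : P
  · rw [if_pos hP, if_pos (h.1 hP)]
  · rw [if_neg hP, if_neg (fun hQ => hP (h.2 hQ))]

section abs

variable {V E : Type} [Fintype V] [Fintype E]

/-- the cycle space -/
def Z (tl hd : E → V) : Submodule ℚ (E → ℚ) where
  carrier := {z | ∀ v, (∑ e, if hd e = v then z e else 0) = ∑ e, if tl e = v then z e else 0}
  add_mem' := by
    intro a b ha hb v
    have h1 := ha v
    have h2 := hb v
    have h3 : ∀ (g : E → V), (∑ e, if g e = v then (a + b) e else 0) =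
        (∑ e, if g e = v then a e else 0) + ∑ e, if g e = v then b e else 0 := by
      intro g
      rw [← Finset.sum_add_distrib]
      refine Finset.sum_congr rfl fun e _ => ?_
      split_ifs
      · rfl
      · simp
    rw [h3, h3, h1, h2]
  zero_mem' := by intro v; simp
  smul_mem' := by
    intro c a ha v
    have h1 := ha v
    have h3 : ∀ (g : E → V), (∑ e, if g e = v then (c • a) e else 0) =
        c * ∑ e, if g e = v then a e else 0 := by
      intro g
      rw [Finset.mul_sum]
      refine Finset.sum_congr rfl fun e _ => ?_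
      split_ifs
      · rfl
      · simp
    rw [h3, h3, h1]

variable (tl hd : E → V)

/-- the functional `z ↦ ∑_{e : P e} z e` on the cycle space -/
def phi (P : E → Prop) : Z tl hd →ₗ[ℚ] ℚ :=
  (∑ e, if P e then (LinearMap.proj e : (E → ℚ) →ₗ[ℚ] ℚ) else 0) ∘ₗ (Z tl hd).subtype

theorem phi_apply (P : E → Prop) (z : Z tl hd) :
    phi tl hd P z = ∑ e, if P e then (z : E → ℚ) e else 0 := by
  unfold phi
  simp only [LinearMap.comp_apply, Submodule.subtype_apply, LinearMap.sum_apply]
  refine Finset.sum_congr rfl fun e _ => ?_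
  split_ifs
  · rfl
  · rfl

theorem phi_comb (P Q R T : E → Prop)
    (h : ∀ e, (if P e then (1 : ℚ) else 0) + (if Q e then 1 else 0) =
      (if R e then 1 else 0) + (if T e then 1 else 0)) :
    phi tl hd P + phi tl hd Q = phi tl hd R + phi tl hd T := by
  ext z
  rw [LinearMap.add_apply, LinearMap.add_apply, phi_apply, phi_apply, phi_apply, phi_apply,
    ← Finset.sum_add_distrib, ← Finset.sum_add_distrib]
  refine Finset.sum_congr rfl fun e _ => ?_
  have h1 : ∀ (p : Prop), (if p then (z : E → ℚ) e else 0) =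
      (if p then (1 : ℚ) else 0) * (z : E → ℚ) e := by
    intro p
    split_ifs <;> simp
  rw [h1, h1, h1, h1, ← add_mul, ← add_mul, h e]

theorem phi_false (P : E → Prop) (h : ∀ e, ¬ P e) : phi tl hd P = 0 := by
  ext z
  rw [phi_apply]
  simp [h]

theorem phi_congr (P Q : E → Prop) (h : ∀ e, P e ↔ Q e) : phi tl hd P = phi tl hd Q := by
  have : P = Q := funext fun e => propext (h e)
  rw [this]

theorem phi_sum (P : E → Prop) (D : Finset E) (hD : ∀ e, e ∈ D ↔ P e) :
    phi tl hd P = ∑ f ∈ D, phi tl hd (fun e => e = f) := by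
  ext z
  rw [LinearMap.sum_apply]
  simp only [phi_apply, Finset.sum_ite_eq', Finset.mem_univ, if_true]
  rw [← Finset.sum_filter]
  refine Finset.sum_congr ?_ fun _ _ => rfl
  ext e
  simp [hD]

theorem cons (S : V → Prop) :
    phi tl hd (fun e => S (hd e)) = phi tl hd (fun e => S (tl e)) := by
  ext z
  rw [phi_apply, phi_apply]
  have h : ∀ g : E → V, (∑ e, if S (g e) then (z : E → ℚ) e else 0) =
      ∑ v, if S v then (∑ e, if g e = v then (z : E → ℚ) e else 0) else 0 := by
    intro g
    have h1 : ∀ v, (if S v then (∑ e, if g e = v then (z : E → ℚ) e else 0) else 0) =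
        ∑ e, if g e = v then (if S (g e) then (z : E → ℚ) e else 0) else 0 := by
      intro v
      split_ifs with hv
      · refine Finset.sum_congr rfl fun e _ => ?_
        split_ifs with h2 h3
        · rfl
        · rw [h2] at h3; exact absurd hv h3
        · rfl
      · symm
        refine Finset.sum_eq_zero fun e _ => ?_
        split_ifs with h2 h3
        · rw [h2] at h3; exact absurd h3 hv
        · rfl
        · rfl
    simp only [h1]
    rw [Finset.sum_comm]
    refine Finset.sum_congr rfl fun e _ => ?_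
    rw [Finset.sum_ite_eq]
    simp
  rw [h, h]
  refine Finset.sum_congr rfl fun v _ => ?_
  rw [z.2 v]

/-! ### parity -/

theorem par {M : Type} [AddCommMonoid M] (key : E → ℝ) (val : E → M) (α w : M) (D : Finset E)
    (hk : Set.InjOn key (D : Set E)) :
    Even ((∑ e ∈ D, ((if α + ∑ f ∈ D.filter (fun f => key e < key f), val f = w then 1 else 0) +
      (if α + ∑ f ∈ D.filter (fun f => key e < key f), val f + val e = w then 1 else 0))) +
      ((if α = w then 1 else 0) + (if α + ∑ f ∈ D, val f = w then 1 else 0))) := by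
  revert hk
  refine Finset.induction_on_min_value key (motive := fun D : Finset E => Set.InjOn key (D : Set E) →
    Even ((∑ e ∈ D, ((if α + ∑ f ∈ D.filter (fun f => key e < key f), val f = w then 1 else 0) +
      (if α + ∑ f ∈ D.filter (fun f => key e < key f), val f + val e = w then 1 else 0))) +
      ((if α = w then 1 else 0) + (if α + ∑ f ∈ D, val f = w then 1 else 0)))) D ?_ ?_
  · intro _
    simp only [Finset.sum_empty, add_zero, zero_add]
    exact ⟨_, rfl⟩
  · intro a s has hmin ih hk
    have hk' : Set.InjOn key (s : Set E) := hk.mono (by simp)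
    have hlt : ∀ x ∈ s, key a < key x := by
      intro x hx
      refine lt_of_le_of_ne (hmin x hx) fun h => ?_
      have := hk (by simp) (by simp [hx]) h
      rw [this] at has
      exact has hx
    have h1 : ∀ e ∈ s, (insert a s).filter (fun f => key e < key f) =
        s.filter (fun f => key e < key f) := by
      intro e he
      rw [Finset.filter_insert, if_neg (not_lt.2 (hlt e he).le)]
    have h2 : (insert a s).filter (fun f => key a < key f) = s := by
      rw [Finset.filter_insert, if_neg (lt_irrefl _)]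
      exact Finset.filter_true_of_mem hlt
    have hsum : ∑ e ∈ s,
        ((if α + ∑ f ∈ (insert a s).filter (fun f => key e < key f), val f = w then 1 else 0) +
        (if α + ∑ f ∈ (insert a s).filter (fun f => key e < key f), val f + val e = w
          then 1 else 0)) =
        ∑ e ∈ s, ((if α + ∑ f ∈ s.filter (fun f => key e < key f), val f = w then 1 else 0) +
        (if α + ∑ f ∈ s.filter (fun f => key e < key f), val f + val e = w then 1 else 0)) :=
      Finset.sum_congr rfl (fun e he => by rw [h1 e he])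
    rw [Finset.sum_insert (f := fun e =>
        ((if α + ∑ f ∈ (insert a s).filter (fun f => key e < key f), val f = w then 1 else 0) +
        (if α + ∑ f ∈ (insert a s).filter (fun f => key e < key f), val f + val e = w
          then 1 else 0))) has, h2, hsum]
    have h3 : α + ∑ f ∈ insert a s, val f = α + ∑ f ∈ s, val f + val a := by
      rw [Finset.sum_insert has, add_assoc, add_comm (val a)]
    rw [h3]
    obtain ⟨k, hk3⟩ := ih hk'
    refine ⟨k + (if α + ∑ f ∈ s, val f + val a = w then 1 else 0), ?_⟩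
    omega

theorem cnt (D : Finset E) (p q : E → Prop) :
    Even ((∑ e ∈ D, ((if p e then 1 else 0) + (if q e then 1 else 0))) +
      (D.filter (fun e => ¬ (p e ↔ q e))).card) := by
  rw [Finset.card_filter, ← Finset.sum_add_distrib]
  refine Finset.even_sum _ fun e _ => ?_
  by_cases hp : p e <;> by_cases hq : q e <;> simp [hp, hq]

/-! ### geometry -/

variable (X Y : V → ℝ)

/-- slope -/
def sl (e : E) : ℝ := (Y (hd e) - Y (tl e)) / (X (hd e) - X (tl e))

/-- height of the edge `e` at abscissa `x` -/
def Ht (e : E) (x : ℝ) : ℝ := Y (tl e) + (x - X (tl e)) * sl tl hd X Y e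

/-- the hypotheses on the drawing -/
structure Good : Prop where
  inj : Function.Injective X
  lt : ∀ e, X (tl e) < X (hd e)
  ne : ∀ e f, e ≠ f → ∀ x, X (tl e) < x → x < X (hd e) → X (tl f) ≤ x → x ≤ X (hd f) →
    Ht tl hd X Y e x ≠ Ht tl hd X Y f x

variable {tl hd X Y}

theorem Ht_tl (e : E) : Ht tl hd X Y e (X (tl e)) = Y (tl e) := by simp [Ht]

theorem Ht_hd (h : Good tl hd X Y) (e : E) : Ht tl hd X Y e (X (hd e)) = Y (hd e) := by
  have := h.lt e
  have h1 : X (hd e) - X (tl e) ≠ 0 := by linarith
  unfold Ht sl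
  field_simp
  ring

theorem Ht_cont (e : E) : Continuous (Ht tl hd X Y e) := by
  unfold Ht
  fun_prop

/-- the vertical order of two edges does not change -/
theorem sign_const (h : Good tl hd X Y) {e f : E} (hef : e ≠ f) {x x' : ℝ}
    (h1 : X (tl e) < x) (h2 : x < X (hd e)) (h3 : X (tl f) ≤ x) (h4 : x ≤ X (hd f))
    (h1' : X (tl e) < x') (h2' : x' < X (hd e)) (h3' : X (tl f) ≤ x') (h4' : x' ≤ X (hd f)) :
    (Ht tl hd X Y e x < Ht tl hd X Y f x ↔ Ht tl hd X Y e x' < Ht tl hd X Y f x') ∧
    (Ht tl hd X Y f x < Ht tl hd X Y e x ↔ Ht tl hd X Y f x' < Ht tl hd X Y e x') := by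
  have key : ∀ y y' : ℝ, X (tl e) < y → y < X (hd e) → X (tl f) ≤ y → y ≤ X (hd f) →
      X (tl e) < y' → y' < X (hd e) → X (tl f) ≤ y' → y' ≤ X (hd f) →
      ¬ (Ht tl hd X Y e y < Ht tl hd X Y f y ∧ Ht tl hd X Y f y' < Ht tl hd X Y e y') := by
    rintro y y' g1 g2 g3 g4 g1' g2' g3' g4' ⟨g5, g6⟩
    have hc : ContinuousOn (fun x => Ht tl hd X Y f x - Ht tl hd X Y e x) (Set.uIcc y y') :=
      ((Ht_cont f).sub (Ht_cont e)).continuousOn
    have h0 : (0:ℝ) ∈ Set.uIcc (Ht tl hd X Y f y - Ht tl hd X Y e y)
        (Ht tl hd X Y f y' - Ht tl hd X Y e y') := by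
      rw [Set.mem_uIcc]
      right
      constructor <;> linarith
    obtain ⟨c, hc1, hc2⟩ := intermediate_value_uIcc hc h0
    simp only at hc2
    rw [Set.mem_uIcc] at hc1
    refine h.ne e f hef c ?_ ?_ ?_ ?_ (by linarith)
    · rcases hc1 with hc1 | hc1 <;> linarith [hc1.1, hc1.2]
    · rcases hc1 with hc1 | hc1 <;> linarith [hc1.1, hc1.2]
    · rcases hc1 with hc1 | hc1 <;> linarith [hc1.1, hc1.2]
    · rcases hc1 with hc1 | hc1 <;> linarith [hc1.1, hc1.2]
  have n1 := h.ne e f hef x h1 h2 h3 h4
  have n2 := h.ne e f hef x' h1' h2' h3' h4'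
  have k1 := key x x' h1 h2 h3 h4 h1' h2' h3' h4'
  have k2 := key x' x h1' h2' h3' h4' h1 h2 h3 h4
  rw [not_and] at k1 k2
  rcases lt_or_gt_of_ne n1 with g | g <;> rcases lt_or_gt_of_ne n2 with g' | g'
  · exact ⟨iff_of_true g g', iff_of_false (not_lt.2 g.le) (not_lt.2 g'.le)⟩
  · exact absurd g' (k1 g)
  · exact absurd g (k2 g')
  · exact ⟨iff_of_false (not_lt.2 g.le) (not_lt.2 g'.le), iff_of_true g g'⟩

variable (tl hd X Y)

/-- the sum over the edges above `e` at abscissa `x` -/
def U (e : E) (x : ℝ) : Z tl hd →ₗ[ℚ] ℚ :=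
  phi tl hd (fun f => X (tl f) < x ∧ x < X (hd f) ∧ Ht tl hd X Y e x < Ht tl hd X Y f x)

variable {tl hd X Y}

theorem U_const' (h : Good tl hd X Y) (e : E) {x0 x1 : ℝ} (h01 : x0 < x1)
    (g0 : ∀ w, X w ≠ x0) (g1 : ∀ w, X w ≠ x1) (h0 : X (tl e) < x0) (h1 : x1 < X (hd e)) :
    U tl hd X Y e x0 = U tl hd X Y e x1 := by
  set S : V → Prop := fun w => x0 < X w ∧ X w < x1 ∧ Ht tl hd X Y e (X w) < Y w with hS
  have hc := cons tl hd S
  have hmain : U tl hd X Y e x0 + phi tl hd (fun f => S (tl f)) =
      U tl hd X Y e x1 + phi tl hd (fun f => S (hd f)) := by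
    refine phi_comb tl hd _ _ _ _ fun f => ?_
    rcases eq_or_ne e f with hef | hef
    · subst hef
      have a1 : ¬ (X (tl e) < x0 ∧ x0 < X (hd e) ∧ Ht tl hd X Y e x0 < Ht tl hd X Y e x0) := by
        simp
      have a2 : ¬ (X (tl e) < x1 ∧ x1 < X (hd e) ∧ Ht tl hd X Y e x1 < Ht tl hd X Y e x1) := by
        simp
      have a3 : ¬ S (tl e) := fun hs => by linarith [hs.1]
      have a4 : ¬ S (hd e) := fun hs => by linarith [hs.2.1]
      rw [if_neg a1, if_neg a2, if_neg a3, if_neg a4]
    · have hab := h.lt f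
      set a := X (tl f) with ha
      set b := X (hd f) with hb
      by_cases hov : a < x1 ∧ x0 < b
      · obtain ⟨o1, o2⟩ := hov
        set σ : Prop := Ht tl hd X Y e (max a x0) < Ht tl hd X Y f (max a x0) with hσ
        have hst : ∀ x, x0 ≤ x → x ≤ x1 → a ≤ x → x ≤ b →
            (Ht tl hd X Y e x < Ht tl hd X Y f x ↔ σ) := by
          intro x p1 p2 p3 p4
          refine (sign_const h hef (by linarith) (by linarith) p3 p4 ?_ ?_ ?_ ?_).1
          · exact lt_of_lt_of_le h0 (le_max_right _ _)
          · exact (max_lt o1 h01).trans h1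
          · exact le_max_left _ _
          · exact max_le hab.le o2.le
        have e1 : (a < x0 ∧ x0 < b ∧ Ht tl hd X Y e x0 < Ht tl hd X Y f x0) ↔ (a < x0 ∧ σ) := by
          constructor
          · rintro ⟨p, q, r⟩
            exact ⟨p, (hst x0 le_rfl h01.le p.le q.le).1 r⟩
          · rintro ⟨p, r⟩
            exact ⟨p, o2, (hst x0 le_rfl h01.le p.le o2.le).2 r⟩
        have e2 : (a < x1 ∧ x1 < b ∧ Ht tl hd X Y e x1 < Ht tl hd X Y f x1) ↔ (x1 < b ∧ σ) := by
          constructor
          · rintro ⟨p, q, r⟩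
            exact ⟨q, (hst x1 h01.le le_rfl p.le q.le).1 r⟩
          · rintro ⟨q, r⟩
            exact ⟨o1, q, (hst x1 h01.le le_rfl o1.le q.le).2 r⟩
        have e3 : S (tl f) ↔ (x0 < a ∧ σ) := by
          have : Y (tl f) = Ht tl hd X Y f a := (Ht_tl f).symm
          simp only [hS, this, ← ha]
          constructor
          · rintro ⟨p, q, r⟩
            exact ⟨p, (hst a p.le q.le le_rfl hab.le).1 r⟩
          · rintro ⟨p, r⟩
            exact ⟨p, o1, (hst a p.le o1.le le_rfl hab.le).2 r⟩
        have e4 : S (hd f) ↔ (b < x1 ∧ σ) := by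
          have : Y (hd f) = Ht tl hd X Y f b := (Ht_hd h f).symm
          simp only [hS, this, ← hb]
          constructor
          · rintro ⟨p, q, r⟩
            exact ⟨q, (hst b p.le q.le hab.le le_rfl).1 r⟩
          · rintro ⟨q, r⟩
            exact ⟨o2, q, (hst b o2.le q.le hab.le le_rfl).2 r⟩
        simp only [e1, e2, e3, e4]
        by_cases hs : σ
        · simp only [hs, and_true]
          rcases lt_or_gt_of_ne (g0 (tl f)) with q1 | q1 <;>
            rcases lt_or_gt_of_ne (g1 (hd f)) with q2 | q2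
          · rw [if_pos q1, if_neg (not_lt.2 q1.le), if_neg (not_lt.2 q2.le), if_pos q2]
            norm_num
          · rw [if_pos q1, if_neg (not_lt.2 q1.le), if_pos q2, if_neg (not_lt.2 q2.le)]
          · rw [if_neg (not_lt.2 q1.le), if_pos q1, if_neg (not_lt.2 q2.le), if_pos q2]
          · rw [if_neg (not_lt.2 q1.le), if_pos q1, if_pos q2, if_neg (not_lt.2 q2.le)]
            norm_num
        · simp [hs]
      · have a1 : ¬ (a < x0 ∧ x0 < b ∧ Ht tl hd X Y e x0 < Ht tl hd X Y f x0) := by
          rintro ⟨p, q, r⟩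
          exact hov ⟨p.trans h01, q⟩
        have a2 : ¬ (a < x1 ∧ x1 < b ∧ Ht tl hd X Y e x1 < Ht tl hd X Y f x1) := by
          rintro ⟨p, q, r⟩
          exact hov ⟨p, h01.trans q⟩
        have a3 : ¬ S (tl f) := by
          rintro ⟨p, q, r⟩
          exact hov ⟨q, p.trans hab⟩
        have a4 : ¬ S (hd f) := by
          rintro ⟨p, q, r⟩
          exact hov ⟨hab.trans q, p⟩
        rw [if_neg a1, if_neg a2, if_neg a3, if_neg a4]
  rw [hc] at hmain
  exact add_right_cancel hmain

theorem U_const (h : Good tl hd X Y) (e : E) {x0 x1 : ℝ}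
    (g0 : ∀ w, X w ≠ x0) (g1 : ∀ w, X w ≠ x1) (h0 : X (tl e) < x0) (h0' : x0 < X (hd e))
    (h1 : X (tl e) < x1) (h1' : x1 < X (hd e)) :
    U tl hd X Y e x0 = U tl hd X Y e x1 := by
  rcases lt_trichotomy x0 x1 with g | g | g
  · exact U_const' h e g g0 g1 h0 h1'
  · rw [g]
  · exact (U_const' h e g g1 g0 h1 h0').symm

theorem exists_delta (hX : Function.Injective X) :
    ∃ δ : ℝ, 0 < δ ∧ ∀ u v, u ≠ v → δ < |X u - X v| := by
  have h1 : ∀ p : V × V, ∀ᶠ δ : ℝ in 𝓝[>] (0:ℝ), p.1 ≠ p.2 → δ < |X p.1 - X p.2| := by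
    intro p
    by_cases hp : p.1 = p.2
    · exact Filter.Eventually.of_forall fun _ h => absurd hp h
    · have : 0 < |X p.1 - X p.2| := abs_pos.2 (sub_ne_zero.2 fun h => hp (hX h))
      filter_upwards [nhdsWithin_le_nhds (gt_mem_nhds this)] with δ hδ _
      exact hδ
  obtain ⟨δ, h2, h3⟩ := ((Filter.eventually_all.2 h1).and eventually_mem_nhdsWithin).exists
  exact ⟨δ, h3, fun u v huv => h2 (u, v) huv⟩

section delta

variable (h : Good tl hd X Y) {δ : ℝ} (hδ : 0 < δ) (hd' : ∀ u v, u ≠ v → δ < |X u - X v|)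
include h hδ hd'

theorem gen_add (v w : V) : X w ≠ X v + δ := by
  intro hw
  rcases eq_or_ne w v with hv | hv
  · rw [hv] at hw; linarith
  · have := hd' w v hv
    rw [hw, add_sub_cancel_left, abs_of_pos hδ] at this
    exact lt_irrefl _ this

theorem gen_sub (v w : V) : X w ≠ X v - δ := by
  intro hw
  rcases eq_or_ne w v with hv | hv
  · rw [hv] at hw; linarith
  · have := hd' w v hv
    rw [hw, sub_sub_cancel_left, abs_neg, abs_of_pos hδ] at this
    exact lt_irrefl _ this

theorem len (e : E) : X (tl e) + δ < X (hd e) := by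
  have h1 := h.lt e
  have h2 := hd' (hd e) (tl e) (fun h3 => by rw [h3] at h1; exact lt_irrefl _ h1)
  rw [abs_of_pos (by linarith)] at h2
  linarith

theorem lt_add_iff (v w : V) (hvw : w ≠ v) : X w < X v + δ ↔ X w < X v := by
  constructor
  · intro h1
    by_contra h2
    have h3 := hd' w v hvw
    rw [abs_of_nonneg (by linarith)] at h3
    linarith
  · intro h1; linarith

theorem sub_lt_iff (v w : V) (hvw : w ≠ v) : X v - δ < X w ↔ X v < X w := by
  constructor
  · intro h1
    by_contra h2
    have h3 := hd' w v hvw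
    rw [abs_of_nonpos (by linarith)] at h3
    linarith
  · intro h1; linarith

theorem add_lt_iff (v w : V) : X v + δ < X w ↔ X v < X w := by
  constructor
  · intro h1; linarith
  · intro h1
    have h3 := hd' w v (fun h4 => by rw [h4] at h1; exact lt_irrefl _ h1)
    rw [abs_of_pos (by linarith)] at h3
    linarith

theorem lt_sub_iff (v w : V) : X w < X v - δ ↔ X w < X v := by
  constructor
  · intro h1; linarith
  · intro h1
    have h3 := hd' w v (fun h4 => by rw [h4] at h1; exact lt_irrefl _ h1)
    rw [abs_of_neg (by linarith)] at h3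
    linarith

end delta

variable (tl hd X Y)

/-- the functional just above the vertex `v` -/
def al (v : V) : Z tl hd →ₗ[ℚ] ℚ :=
  phi tl hd (fun f => X (tl f) < X v ∧ X v < X (hd f) ∧ Y v < Ht tl hd X Y f (X v))

variable {tl hd X Y}

section vertex

variable (h : Good tl hd X Y) {δ : ℝ} (hδ : 0 < δ) (hd' : ∀ u v, u ≠ v → δ < |X u - X v|)
include h hδ hd'

theorem right (v : V) (e : E) (he : tl e = v) : U tl hd X Y e (X v + δ) =
    al tl hd X Y v + phi tl hd (fun f => tl f = v ∧ sl tl hd X Y e < sl tl hd X Y f) := by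
  have hc : U tl hd X Y e (X v + δ) + phi tl hd (fun _ => False) =
      al tl hd X Y v + phi tl hd (fun f => tl f = v ∧ sl tl hd X Y e < sl tl hd X Y f) := by
    refine phi_comb tl hd _ _ _ _ fun f => ?_
    rw [if_neg (show ¬ False from id), add_zero]
    have hHe : Ht tl hd X Y e (X v + δ) = Y v + δ * sl tl hd X Y e := by
      unfold Ht; rw [he]; ring
    rcases eq_or_ne (tl f) v with hf | hf
    · have hHf : Ht tl hd X Y f (X v + δ) = Y v + δ * sl tl hd X Y f := by
        unfold Ht; rw [hf]; ring
      have hlen := len h hδ hd' f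
      rw [hf] at hlen
      have n1 : ¬ (X (tl f) < X v ∧ X v < X (hd f) ∧ Y v < Ht tl hd X Y f (X v)) := by
        rw [hf]; rintro ⟨a, _⟩; exact lt_irrefl _ a
      rw [if_neg n1, zero_add, hHe, hHf]
      have i1 : (X (tl f) < X v + δ ∧ X v + δ < X (hd f) ∧
          Y v + δ * sl tl hd X Y e < Y v + δ * sl tl hd X Y f) ↔
          (tl f = v ∧ sl tl hd X Y e < sl tl hd X Y f) := by
        constructor
        · rintro ⟨_, _, a⟩
          exact ⟨hf, lt_of_mul_lt_mul_left (by linarith) hδ.le⟩
        · rintro ⟨_, a⟩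
          refine ⟨by rw [hf]; linarith, hlen, ?_⟩
          have := mul_lt_mul_of_pos_left a hδ
          linarith
      exact ite_cg i1
    · have n1 : ¬ (tl f = v ∧ sl tl hd X Y e < sl tl hd X Y f) := fun a => hf a.1
      rw [if_neg n1, add_zero]
      have hfe : f ≠ e := fun a => hf (by rw [a, he])
      have hlen := len h hδ hd' e
      rw [he] at hlen
      have i1 : (X (tl f) < X v + δ ∧ X v + δ < X (hd f) ∧
          Ht tl hd X Y e (X v + δ) < Ht tl hd X Y f (X v + δ)) ↔
          (X (tl f) < X v ∧ X v < X (hd f) ∧ Y v < Ht tl hd X Y f (X v)) := by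
        rw [lt_add_iff h hδ hd' v (tl f) hf, add_lt_iff h hδ hd' v (hd f)]
        refine and_congr_right fun a1 => and_congr_right fun a2 => ?_
        have a3 := (add_lt_iff h hδ hd' v (hd f)).2 a2
        have hs := (sign_const h hfe (x := X v + δ) (x' := X v) (by linarith) a3
          (by rw [he]; linarith) hlen.le a1 a2 (by rw [he]) (by linarith)).2
        rw [hs]
        have : Ht tl hd X Y e (X v) = Y v := by rw [← he]; exact Ht_tl e
        rw [this]
      exact ite_cg i1
  rw [phi_false tl hd (fun _ => False) (fun _ => id), add_zero] at hc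
  exact hc

theorem left (v : V) (e : E) (he : hd e = v) : U tl hd X Y e (X v - δ) =
    al tl hd X Y v + phi tl hd (fun f => hd f = v ∧ sl tl hd X Y f < sl tl hd X Y e) := by
  have hc : U tl hd X Y e (X v - δ) + phi tl hd (fun _ => False) =
      al tl hd X Y v + phi tl hd (fun f => hd f = v ∧ sl tl hd X Y f < sl tl hd X Y e) := by
    refine phi_comb tl hd _ _ _ _ fun f => ?_
    rw [if_neg (show ¬ False from id), add_zero]
    have hHg : ∀ g : E, hd g = v → Ht tl hd X Y g (X v - δ) = Y v - δ * sl tl hd X Y g := by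
      intro g hg
      have h1 := Ht_hd h g
      rw [hg] at h1
      unfold Ht at h1 ⊢
      linarith
    rcases eq_or_ne (hd f) v with hf | hf
    · have hlen := len h hδ hd' f
      rw [hf] at hlen
      have n1 : ¬ (X (tl f) < X v ∧ X v < X (hd f) ∧ Y v < Ht tl hd X Y f (X v)) := by
        rw [hf]; rintro ⟨_, a, _⟩; exact lt_irrefl _ a
      rw [if_neg n1, zero_add, hHg e he, hHg f hf]
      have i1 : (X (tl f) < X v - δ ∧ X v - δ < X (hd f) ∧
          Y v - δ * sl tl hd X Y e < Y v - δ * sl tl hd X Y f) ↔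
          (hd f = v ∧ sl tl hd X Y f < sl tl hd X Y e) := by
        constructor
        · rintro ⟨_, _, a⟩
          exact ⟨hf, lt_of_mul_lt_mul_left (by linarith) hδ.le⟩
        · rintro ⟨_, a⟩
          refine ⟨by linarith, by rw [hf]; linarith, ?_⟩
          have := mul_lt_mul_of_pos_left a hδ
          linarith
      exact ite_cg i1
    · have n1 : ¬ (hd f = v ∧ sl tl hd X Y f < sl tl hd X Y e) := fun a => hf a.1
      rw [if_neg n1, add_zero]
      have hfe : f ≠ e := fun a => hf (by rw [a, he])
      have hlen := len h hδ hd' e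
      rw [he] at hlen
      have i1 : (X (tl f) < X v - δ ∧ X v - δ < X (hd f) ∧
          Ht tl hd X Y e (X v - δ) < Ht tl hd X Y f (X v - δ)) ↔
          (X (tl f) < X v ∧ X v < X (hd f) ∧ Y v < Ht tl hd X Y f (X v)) := by
        rw [lt_sub_iff h hδ hd' v (tl f), sub_lt_iff h hδ hd' v (hd f) hf]
        refine and_congr_right fun a1 => and_congr_right fun a2 => ?_
        have a3 := (lt_sub_iff h hδ hd' v (tl f)).2 a1
        have hs := (sign_const h hfe (x := X v - δ) (x' := X v) a3 (by linarith)
          (by linarith) (by rw [he]; linarith) a1 a2 (by linarith) (by rw [he])).2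
        rw [hs]
        have : Ht tl hd X Y e (X v) = Y v := by rw [← he]; exact Ht_hd h e
        rw [this]
      exact ite_cg i1
  rw [phi_false tl hd (fun _ => False) (fun _ => id), add_zero] at hc
  exact hc

end vertex

variable (tl hd X Y)

/-- the functional above the edge `e` -/
def up (δ : ℝ) (e : E) : Z tl hd →ₗ[ℚ] ℚ := U tl hd X Y e (X (tl e) + δ)

/-- the functional below the edge `e` -/
def dn (δ : ℝ) (e : E) : Z tl hd →ₗ[ℚ] ℚ := up tl hd X Y δ e + phi tl hd (fun f => f = e)

/-- the boundary of the face `w` -/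
def bd (δ : ℝ) (w : Z tl hd →ₗ[ℚ] ℚ) : Finset E :=
  Finset.univ.filter (fun e => ¬ (up tl hd X Y δ e = w ↔ dn tl hd X Y δ e = w))

variable {tl hd X Y}

section main

variable (h : Good tl hd X Y) {δ : ℝ} (hδ : 0 < δ) (hd' : ∀ u v, u ≠ v → δ < |X u - X v|)
include h hδ hd'

theorem up_eq (e : E) {x : ℝ} (hx : ∀ w, X w ≠ x) (h1 : X (tl e) < x) (h2 : x < X (hd e)) :
    up tl hd X Y δ e = U tl hd X Y e x :=
  U_const h e (gen_add h hδ hd' _) hx (by linarith) (len h hδ hd' e) h1 h2

theorem up_eq' (e : E) : up tl hd X Y δ e = U tl hd X Y e (X (hd e) - δ) := by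
  have := len h hδ hd' e
  exact up_eq h hδ hd' e (gen_sub h hδ hd' _) (by linarith) (by linarith)

theorem inj_right (v : V) : Set.InjOn (sl tl hd X Y)
    ((Finset.univ.filter (fun e => tl e = v) : Finset E) : Set E) := by
  intro e he f hf hef
  simp only [Finset.coe_filter, Finset.mem_univ, true_and, Set.mem_ofPred_eq] at he hf
  by_contra hne
  have l1 := len h hδ hd' e
  have l2 := len h hδ hd' f
  rw [he] at l1
  rw [hf] at l2
  refine h.ne e f hne (X v + δ) (by rw [he]; linarith) l1 (by rw [hf]; linarith) l2.le ?_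
  unfold Ht
  rw [he, hf, hef]

theorem inj_left (v : V) : Set.InjOn (fun e => -sl tl hd X Y e)
    ((Finset.univ.filter (fun e => hd e = v) : Finset E) : Set E) := by
  intro e he f hf hef
  simp only [Finset.coe_filter, Finset.mem_univ, true_and, Set.mem_ofPred_eq] at he hf
  by_contra hne
  have l1 := len h hδ hd' e
  have l2 := len h hδ hd' f
  rw [he] at l1
  rw [hf] at l2
  simp only [neg_inj] at hef
  have e1 := Ht_hd h e
  have e2 := Ht_hd h f
  rw [he] at e1
  rw [hf] at e2
  refine h.ne e f hne (X v - δ) (by linarith) (by rw [he]; linarith) (by linarith)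
    (by rw [hf]; linarith) ?_
  unfold Ht at e1 e2 ⊢
  rw [hef] at e1 ⊢
  linarith

theorem bd_even (w : Z tl hd →ₗ[ℚ] ℚ) (v : V) :
    Even ((bd tl hd X Y δ w).filter (fun e => tl e = v ∨ hd e = v)).card := by
  set D1 : Finset E := Finset.univ.filter (fun e => tl e = v) with hD1
  set D2 : Finset E := Finset.univ.filter (fun e => hd e = v) with hD2
  have p1 := par (sl tl hd X Y) (fun f => phi tl hd (fun e => e = f)) (al tl hd X Y v) w D1
    (inj_right h hδ hd' v)
  have p2 := par (fun e => -sl tl hd X Y e) (fun f => phi tl hd (fun e => e = f))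
    (al tl hd X Y v) w D2 (inj_left h hδ hd' v)
  have s1 : ∀ e ∈ D1, al tl hd X Y v + ∑ f ∈ D1.filter (fun f => sl tl hd X Y e < sl tl hd X Y f),
      phi tl hd (fun e => e = f) = up tl hd X Y δ e := by
    intro e he
    simp only [hD1, Finset.mem_filter, Finset.mem_univ, true_and] at he
    unfold up
    rw [he, right h hδ hd' v e he]
    congr 1
    symm
    refine phi_sum tl hd _ _ fun f => ?_
    simp [hD1]
  have s2 : ∀ e ∈ D2, al tl hd X Y v +
      ∑ f ∈ D2.filter (fun f => -sl tl hd X Y e < -sl tl hd X Y f),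
      phi tl hd (fun e => e = f) = up tl hd X Y δ e := by
    intro e he
    simp only [hD2, Finset.mem_filter, Finset.mem_univ, true_and] at he
    rw [up_eq' h hδ hd' e, he, left h hδ hd' v e he]
    congr 1
    symm
    refine phi_sum tl hd _ _ fun f => ?_
    simp [hD2]
  have t1 : ∑ f ∈ D1, phi tl hd (fun e => e = f) = phi tl hd (fun e => tl e = v) :=
    (phi_sum tl hd _ _ (by simp [hD1])).symm
  have t2 : ∑ f ∈ D2, phi tl hd (fun e => e = f) = phi tl hd (fun e => tl e = v) := by
    rw [← cons tl hd (fun u => u = v)]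
    exact (phi_sum tl hd _ _ (by simp [hD2])).symm
  rw [t1] at p1
  rw [t2] at p2
  rw [Finset.sum_congr rfl (g := fun e => ((if up tl hd X Y δ e = w then 1 else 0) +
    (if dn tl hd X Y δ e = w then 1 else 0))) (fun e he => by rw [s1 e he]; rfl)] at p1
  rw [Finset.sum_congr rfl (g := fun e => ((if up tl hd X Y δ e = w then 1 else 0) +
    (if dn tl hd X Y δ e = w then 1 else 0))) (fun e he => by rw [s2 e he]; rfl)] at p2
  have c1 := cnt D1 (fun e => up tl hd X Y δ e = w) (fun e => dn tl hd X Y δ e = w)
  have c2 := cnt D2 (fun e => up tl hd X Y δ e = w) (fun e => dn tl hd X Y δ e = w)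
  have hcard : ((bd tl hd X Y δ w).filter (fun e => tl e = v ∨ hd e = v)).card =
      (D1.filter (fun e => ¬ (up tl hd X Y δ e = w ↔ dn tl hd X Y δ e = w))).card +
      (D2.filter (fun e => ¬ (up tl hd X Y δ e = w ↔ dn tl hd X Y δ e = w))).card := by
    rw [← Finset.card_union_of_disjoint]
    · congr 1
      ext e
      simp only [bd, hD1, hD2, Finset.mem_filter, Finset.mem_univ, true_and, Finset.mem_union]
      tauto
    · rw [Finset.disjoint_left]
      intro e he1 he2
      simp only [hD1, hD2, Finset.mem_filter, Finset.mem_univ, true_and] at he1 he2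
      have := h.lt e
      rw [he1.1, he2.1] at this
      exact lt_irrefl _ this
  rw [hcard]
  rw [Nat.even_iff] at p1 p2 c1 c2 ⊢
  omega

theorem bd_nonempty {w : Z tl hd →ₗ[ℚ] ℚ} (hw : w ≠ 0) (e : E)
    (he : up tl hd X Y δ e = w ∨ dn tl hd X Y δ e = w) : (bd tl hd X Y δ w).Nonempty := by
  by_contra hemp
  rw [Finset.not_nonempty_iff_eq_empty] at hemp
  have hall : ∀ f, up tl hd X Y δ f = w ↔ dn tl hd X Y δ f = w := by
    intro f
    by_contra hf
    have : f ∈ bd tl hd X Y δ w := by
      simp only [bd, Finset.mem_filter, Finset.mem_univ, true_and]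
      exact hf
    rw [hemp] at this
    simp at this
  have he' : up tl hd X Y δ e = w := by
    rcases he with he | he
    · exact he
    · exact (hall e).2 he
  set x : ℝ := X (tl e) + δ with hx
  have hgen : ∀ u, X u ≠ x := gen_add h hδ hd' _
  set C : Finset E := Finset.univ.filter (fun f => X (tl f) < x ∧ x < X (hd f)) with hC
  have hupC : ∀ f ∈ C, up tl hd X Y δ f = U tl hd X Y f x := by
    intro f hf
    simp only [hC, Finset.mem_filter, Finset.mem_univ, true_and] at hf
    exact up_eq h hδ hd' f hgen hf.1 hf.2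
  have heC : e ∈ C := by
    simp only [hC, Finset.mem_filter, Finset.mem_univ, true_and]
    exact ⟨by linarith, len h hδ hd' e⟩
  obtain ⟨f, hf, hmax⟩ := Finset.exists_max_image
    (C.filter (fun f => up tl hd X Y δ f = w)) (fun f => Ht tl hd X Y f x)
    ⟨e, Finset.mem_filter.2 ⟨heC, he'⟩⟩
  rw [Finset.mem_filter] at hf
  obtain ⟨hfC, hfw⟩ := hf
  by_cases hne : (C.filter (fun g => Ht tl hd X Y f x < Ht tl hd X Y g x)).Nonempty
  · obtain ⟨g, hg, hmin⟩ := Finset.exists_min_image _ (fun g => Ht tl hd X Y g x) hne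
    rw [Finset.mem_filter] at hg
    obtain ⟨hgC, hfg⟩ := hg
    have hUfg : U tl hd X Y f x = dn tl hd X Y δ g := by
      unfold dn
      rw [hupC g hgC]
      have hc : U tl hd X Y f x + phi tl hd (fun _ => False) =
          U tl hd X Y g x + phi tl hd (fun k => k = g) := by
        refine phi_comb tl hd _ _ _ _ fun k => ?_
        rw [if_neg (show ¬ False from id), add_zero]
        rcases eq_or_ne k g with hk | hk
        · subst hk
          have hkC := hgC
          simp only [hC, Finset.mem_filter, Finset.mem_univ, true_and] at hkC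
          rw [if_pos ⟨hkC.1, hkC.2, hfg⟩, if_pos rfl, if_neg (by simp)]
          norm_num
        · rw [if_neg hk, add_zero]
          have i1 : (X (tl k) < x ∧ x < X (hd k) ∧ Ht tl hd X Y f x < Ht tl hd X Y k x) ↔
              (X (tl k) < x ∧ x < X (hd k) ∧ Ht tl hd X Y g x < Ht tl hd X Y k x) := by
            refine and_congr_right fun a1 => and_congr_right fun a2 => ?_
            constructor
            · intro a3
              have hkm := hmin k (Finset.mem_filter.2 ⟨by
                simp only [hC, Finset.mem_filter, Finset.mem_univ, true_and]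
                exact ⟨a1, a2⟩, a3⟩)
              have hgC' := hgC
              simp only [hC, Finset.mem_filter, Finset.mem_univ, true_and] at hgC'
              exact lt_of_le_of_ne hkm (h.ne g k hk.symm x hgC'.1 hgC'.2 a1.le a2.le)
            · intro a3
              exact hfg.trans a3
          exact ite_cg i1
      rw [phi_false tl hd (fun _ => False) (fun _ => id), add_zero] at hc
      exact hc
    have hgw : up tl hd X Y δ g = w := by
      rw [hall g, ← hUfg, ← hupC f hfC]
      exact hfw
    have := hmax g (Finset.mem_filter.2 ⟨hgC, hgw⟩)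
    linarith
  · rw [Finset.not_nonempty_iff_eq_empty] at hne
    apply hw
    rw [← hfw, hupC f hfC]
    unfold U
    refine phi_false tl hd _ fun g hg => ?_
    have : g ∈ C.filter (fun g => Ht tl hd X Y f x < Ht tl hd X Y g x) := by
      simp only [hC, Finset.mem_filter, Finset.mem_univ, true_and]
      exact ⟨⟨hg.1, hg.2.1⟩, hg.2.2⟩
    rw [hne] at this
    simp at this

end main

theorem sparse (h : Good tl hd X Y) (m : ℕ)
    (hB : ∀ B : Finset E, B.Nonempty →
      (∀ v, Even (B.filter (fun e => tl e = v ∨ hd e = v)).card) → 2 * m ≤ B.card) :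
    m * Module.finrank ℚ (Z tl hd) ≤ Fintype.card E := by
  obtain ⟨δ, hδ, hd'⟩ := exists_delta h.inj
  set W : Finset (Z tl hd →ₗ[ℚ] ℚ) :=
    ((Finset.univ.image (up tl hd X Y δ)) ∪ (Finset.univ.image (dn tl hd X Y δ))).erase 0 with hW
  have hWm : ∀ w ∈ W, w ≠ 0 ∧ ∃ e, up tl hd X Y δ e = w ∨ dn tl hd X Y δ e = w := by
    intro w hw
    simp only [hW, Finset.mem_erase, Finset.mem_union, Finset.mem_image, Finset.mem_univ,
      true_and] at hw
    obtain ⟨h1, ⟨e, he⟩ | ⟨e, he⟩⟩ := hw
    · exact ⟨h1, e, Or.inl he⟩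
    · exact ⟨h1, e, Or.inr he⟩
  -- the functionals separate points
  have hfin : Module.finrank ℚ (Z tl hd) ≤ W.card := by
    let Φ : Z tl hd →ₗ[ℚ] (W → ℚ) := LinearMap.pi (fun w => w.1)
    have hinj : Function.Injective Φ := by
      rw [← LinearMap.ker_eq_bot, LinearMap.ker_eq_bot']
      intro z hz
      have hz' : ∀ w ∈ W, w z = 0 := fun w hw => congrFun hz ⟨w, hw⟩
      have h0 : ∀ w, (∃ e, up tl hd X Y δ e = w ∨ dn tl hd X Y δ e = w) → w z = 0 := by
        rintro w ⟨e, he⟩
        by_cases hw0 : w = 0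
        · rw [hw0]; rfl
        · apply hz'
          simp only [hW, Finset.mem_erase, Finset.mem_union, Finset.mem_image, Finset.mem_univ,
            true_and]
          exact ⟨hw0, he.imp (fun h => ⟨e, h⟩) (fun h => ⟨e, h⟩)⟩
      ext e
      have h1 := h0 _ ⟨e, Or.inl rfl⟩
      have h2 := h0 _ ⟨e, Or.inr rfl⟩
      unfold dn at h2
      rw [LinearMap.add_apply, h1, zero_add, phi_apply] at h2
      simpa using h2
    have := LinearMap.finrank_le_finrank_of_injective hinj
    simpa using this
  -- double counting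
  have hsum : ∑ w ∈ W, (bd tl hd X Y δ w).card ≤ 2 * Fintype.card E := by
    have h1 : ∀ w, (bd tl hd X Y δ w).card = ∑ e : E, if e ∈ bd tl hd X Y δ w then 1 else 0 := by
      intro w
      rw [← Finset.card_filter]
      congr 1
      ext e
      simp
    simp only [h1]
    rw [Finset.sum_comm]
    calc ∑ e : E, ∑ w ∈ W, (if e ∈ bd tl hd X Y δ w then 1 else 0) ≤ ∑ _e : E, 2 := by
          refine Finset.sum_le_sum fun e _ => ?_
          rw [← Finset.card_filter]
          refine (Finset.card_le_card (t := {up tl hd X Y δ e, dn tl hd X Y δ e}) ?_).trans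
            Finset.card_le_two
          intro w hw
          simp only [bd, Finset.mem_filter, Finset.mem_univ, true_and] at hw
          simp only [Finset.mem_insert, Finset.mem_singleton]
          by_contra hcon
          push Not at hcon
          exact hw.2 (iff_of_false (Ne.symm hcon.1) (Ne.symm hcon.2))
      _ = 2 * Fintype.card E := by
          rw [Finset.sum_const, Finset.card_univ, smul_eq_mul, mul_comm]
  have hlow : W.card * (2 * m) ≤ ∑ w ∈ W, (bd tl hd X Y δ w).card := by
    rw [← smul_eq_mul, ← Finset.sum_const]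
    refine Finset.sum_le_sum fun w hw => ?_
    obtain ⟨hw0, e, he⟩ := hWm w hw
    exact hB _ (bd_nonempty h hδ hd' hw0 e he) (bd_even h hδ hd' w)
  have h3 : m * W.card ≤ Fintype.card E := by nlinarith
  exact (Nat.mul_le_mul_left m hfin).trans h3

end abs

end

end P2

open Filter Topology in
open Classical in
/-- Sparsity of a graph with a straight-line drawing in the plane. -/
theorem line_sparse {V : Type} [Fintype V] (G : SimpleGraph V) (hG : HasStraightLineDrawing G)
    (m : ℕ) (hg : ((2 * m : ℕ) : ℕ∞) ≤ G.egirth) (A : Finset (Sym2 V))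
    (hA : (A : Set (Sym2 V)) ⊆ G.edgeSet) :
    m * A.card ≤ m * rk A + A.card := by
  obtain ⟨p, hp, -, hcr⟩ := hG
  -- a linear change of coordinates making the abscissas distinct
  obtain ⟨ε, hε⟩ : ∃ ε : ℝ, Function.Injective (fun v => (p v).1 + ε * (p v).2) := by
    have h1 : ∀ q : V × V, ∀ᶠ ε : ℝ in 𝓝[>] (0:ℝ), q.1 ≠ q.2 →
        (p q.1).1 + ε * (p q.1).2 ≠ (p q.2).1 + ε * (p q.2).2 := by
      intro q
      by_cases hq : q.1 = q.2
      · exact Filter.Eventually.of_forall fun _ h => absurd hq h
      by_cases h2 : (p q.1).1 = (p q.2).1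
      · have h3 : (p q.1).2 ≠ (p q.2).2 := fun h3 => hq (hp (Prod.ext h2 h3))
        filter_upwards [eventually_mem_nhdsWithin] with ε hε _ h4
        have hε' : (0:ℝ) < ε := hε
        rw [h2] at h4
        exact h3 (mul_left_cancel₀ hε'.ne' (add_left_cancel h4))
      · have h3 : Tendsto (fun ε : ℝ => ((p q.1).1 + ε * (p q.1).2) - ((p q.2).1 + ε * (p q.2).2))
            (𝓝[>] 0) (𝓝 (((p q.1).1 + 0 * (p q.1).2) - ((p q.2).1 + 0 * (p q.2).2))) := by
          refine Tendsto.mono_left ?_ nhdsWithin_le_nhds
          exact Continuous.tendsto (by fun_prop) 0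
        have h4 : (((p q.1).1 + 0 * (p q.1).2) - ((p q.2).1 + 0 * (p q.2).2)) ≠ 0 := by
          simpa [sub_eq_zero] using h2
        filter_upwards [h3.eventually (isOpen_ne.mem_nhds h4)] with ε hε _ h5
        exact hε (sub_eq_zero.2 h5)
    obtain ⟨ε, h2⟩ := (Filter.eventually_all.2 h1).exists
    refine ⟨ε, fun u v huv => ?_⟩
    by_contra hne
    exact h2 (u, v) hne huv
  set X : V → ℝ := fun v => (p v).1 + ε * (p v).2 with hX
  set Y : V → ℝ := fun v => (p v).2 with hY
  let E : Type := {e : V × V // s(e.1, e.2) ∈ A ∧ X e.1 < X e.2}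
  let tl : E → V := fun e => e.1.1
  let hd : E → V := fun e => e.1.2
  have hgood : P2.Good tl hd X Y := by
    refine ⟨hε, fun e => e.2.2, ?_⟩
    rintro ⟨⟨u, v⟩, hA1, h1⟩ ⟨⟨u', v'⟩, hA2, h2⟩ hef x a1 a2 a3 a4 heq
    simp only [tl, hd] at a1 a2 a3 a4 h1 h2 hA1 hA2
    have adj1 : G.Adj u v := G.mem_edgeSet.1 (hA (by exact_mod_cast hA1))
    have adj2 : G.Adj u' v' := G.mem_edgeSet.1 (hA (by exact_mod_cast hA2))
    have hpt : ∀ a b : V, X a < X b → X a ≤ x → x ≤ X b →
        ∃ q ∈ segment ℝ (p a) (p b), q.2 = Y a + (x - X a) * ((Y b - Y a) / (X b - X a)) ∧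
          q.1 + ε * q.2 = x := by
      intro a b hab ha hb
      have hab' : X b - X a ≠ 0 := by linarith
      set t := (x - X a) / (X b - X a) with ht
      have ht' : t * (X b - X a) = x - X a := by rw [ht]; field_simp
      refine ⟨(1 - t) • p a + t • p b, ⟨1 - t, t, ?_, ?_, by ring, rfl⟩, ?_, ?_⟩
      · rw [sub_nonneg, ht, div_le_one (by linarith)]; linarith
      · rw [ht]; apply div_nonneg <;> linarith
      · simp only [Prod.snd_add, Prod.smul_snd, smul_eq_mul, hY]
        rw [ht]
        ring
      · simp only [Prod.snd_add, Prod.smul_snd, smul_eq_mul, Prod.fst_add, Prod.smul_fst]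
        have : (1 - t) * (p a).1 + t * (p b).1 + ε * ((1 - t) * (p a).2 + t * (p b).2) =
            X a + t * (X b - X a) := by simp only [hX]; ring
        rw [this, ht']
        ring
    obtain ⟨q, q1, q2, q3⟩ := hpt u v h1 a1.le a2.le
    obtain ⟨q', q1', q2', q3'⟩ := hpt u' v' h2 a3 a4
    have hq2 : q.2 = q'.2 := by
      rw [q2, q2']
      exact heq
    have hq : q = q' := by
      refine Prod.ext ?_ hq2
      rw [hq2] at q3
      linarith
    rw [← hq] at q1'
    have hss : s(u, v) ≠ s(u', v') := by
      intro hs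
      rw [Sym2.eq_iff] at hs
      rcases hs with ⟨r1, r2⟩ | ⟨r1, r2⟩
      · subst r1; subst r2; exact hef rfl
      · subst r1; subst r2; linarith
    obtain ⟨w, hw1, -, hw3⟩ := hcr u v u' v' adj1 adj2 hss q q1 q1'
    have hXw : X w = x := by
      rw [← q3, hw3]
    rcases hw1 with hw | hw
    · rw [hw] at hXw; linarith
    · rw [hw] at hXw; linarith
  -- the map to the edges
  have hinj : Function.Injective (fun e : E => s(e.1.1, e.1.2)) := by
    rintro ⟨⟨u, v⟩, hA1, h1⟩ ⟨⟨u', v'⟩, hA2, h2⟩ hs
    simp only at hs h1 h2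
    rw [Sym2.eq_iff] at hs
    rcases hs with ⟨r1, r2⟩ | ⟨r1, r2⟩
    · subst r1; subst r2; rfl
    · subst r1; subst r2; linarith
  have himg : (Finset.univ : Finset E).image (fun e : E => s(e.1.1, e.1.2)) = A := by
    ext a
    simp only [Finset.mem_image, Finset.mem_univ, true_and]
    constructor
    · rintro ⟨e, rfl⟩; exact e.2.1
    · intro ha
      induction a using Sym2.ind with
      | _ u v =>
        have adj : G.Adj u v := G.mem_edgeSet.1 (hA (by exact_mod_cast ha))
        have hne : X u ≠ X v := fun h => adj.ne (hε h)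
        rcases lt_or_gt_of_ne hne with h1 | h1
        · exact ⟨⟨(u, v), ha, h1⟩, rfl⟩
        · exact ⟨⟨(v, u), by rw [Sym2.eq_swap]; exact ha, h1⟩, Sym2.eq_swap⟩
  have hcard : Fintype.card E = A.card := by
    have h1 := congrArg Finset.card himg
    rw [Finset.card_image_of_injective _ hinj, Finset.card_univ] at h1
    exact h1
  -- girth
  have hB : ∀ B : Finset E, B.Nonempty →
      (∀ v, Even (B.filter (fun e => tl e = v ∨ hd e = v)).card) → 2 * m ≤ B.card := by
    intro B hne hev
    have h1 := even_card_ge_girth G (B.image (fun e : E => s(e.1.1, e.1.2))) ?_ (hne.image _) ?_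
    · rw [Finset.card_image_of_injective _ hinj] at h1
      exact_mod_cast hg.trans h1
    · intro a ha
      simp only [Finset.coe_image, Set.mem_image, Finset.mem_coe] at ha
      obtain ⟨e, -, rfl⟩ := ha
      exact hA (by exact_mod_cast e.2.1)
    · intro v
      rw [Finset.filter_image, Finset.card_image_of_injective _ hinj]
      have h2 := hev v
      have h3 : (B.filter (fun e : E => v ∈ s(e.1.1, e.1.2))) =
          B.filter (fun e => tl e = v ∨ hd e = v) := by
        refine Finset.filter_congr fun e _ => ?_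
        rw [Sym2.mem_iff]
        simp only [tl, hd]
        tauto
      rw [h3]
      exact h2
  have hsp := P2.sparse hgood m hB
  -- rank
  have hrk : Fintype.card E ≤ rk A + Module.finrank ℚ (P2.Z tl hd) := by
    let D : (E → ℚ) →ₗ[ℚ] (V → ℚ) :=
      Fintype.linearCombination ℚ (fun e : E => (Pi.single e.1.1 1 - Pi.single e.1.2 1 : V → ℚ))
    have h1 := D.finrank_range_add_finrank_ker
    rw [Module.finrank_fintype_fun_eq_card] at h1
    have h2 : Module.finrank ℚ D.range ≤ rk A := by
      unfold rk
      apply Submodule.finrank_mono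
      rw [Fintype.range_linearCombination]
      refine Submodule.span_mono ?_
      rintro _ ⟨e, rfl⟩
      exact ⟨e.1.1, e.1.2, e.2.1, rfl⟩
    have h3 : Module.finrank ℚ D.ker ≤ Module.finrank ℚ (P2.Z tl hd) := by
      apply Submodule.finrank_mono
      intro z hz v
      rw [LinearMap.mem_ker] at hz
      have h4 := congrFun hz v
      simp only [D, Fintype.linearCombination_apply, Finset.sum_apply, Pi.smul_apply,
        Pi.sub_apply, smul_eq_mul, Pi.zero_apply, mul_sub, Finset.sum_sub_distrib] at h4
      have h5 : ∀ g : E → V, (∑ e : E, z e * (Pi.single (g e) (1:ℚ) : V → ℚ) v) =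
          ∑ e : E, if g e = v then z e else 0 := by
        intro g
        refine Finset.sum_congr rfl fun e _ => ?_
        rw [Pi.single_apply]
        by_cases hv : g e = v
        · rw [if_pos hv, if_pos hv.symm, mul_one]
        · rw [if_neg hv, if_neg (Ne.symm hv), mul_zero]
      have h6 := h5 tl
      have h7 := h5 hd
      simp only [tl, hd] at h6 h7
      rw [h6, h7] at h4
      exact (sub_eq_zero.1 h4).symm
    omega
  rw [hcard] at hsp hrk
  calc m * A.card ≤ m * (rk A + Module.finrank ℚ (P2.Z tl hd)) := Nat.mul_le_mul_left m hrk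
    _ = m * rk A + m * Module.finrank ℚ (P2.Z tl hd) := by ring
    _ ≤ m * rk A + A.card := Nat.add_le_add_left hsp _

end Pool.Agent.H239R2.Planar
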