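import Pool.Agent.H239R2.Cover.Covering

set_option autoImplicit false

namespace Pool.Agent.H239R2.Cover

open Matrix Finset

set_option linter.unusedSectionVars false

variable {ι E : Type} [Fintype ι] [DecidableEq ι] [Fintype E] [DecidableEq E]

/-- A configuration of integer vectors is unimodular if a real combination of linearly
independent members which is integral has integral coefficients. -/
def Unimod (x : E → ι → ℤ) : Prop :=
  ∀ I : Finset E, LinearIndepOn ℝ (fun e => rv (x e)) (I : Set E) →
    ∀ s : E → ℝ, (∃ a : ι → ℤ, ∑ e ∈ I, s e • rv (x e) = rv a) → ∀ e ∈ I, ∃ z : ℤ, s e = z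

theorem rv_injective : Function.Injective (rv : (ι → ℤ) → ι → ℝ) := by
  intro a b h
  ext k
  have := congrFun h k
  simpa [rv] using this

theorem rv_sum (S : Finset E) (x : E → ι → ℤ) : rv (∑ e ∈ S, x e) = ∑ e ∈ S, rv (x e) := by
  ext k
  simp [rv]

theorem rv_sub (x y : ι → ℤ) : rv (x - y) = rv x - rv y := by
  ext k; simp [rv]

/-- Rounding: for a unimodular configuration, if a combination with coefficients in `[0,1]` is
integral, then it is the sum of a subfamily. -/
theorem rounding (x : E → ι → ℤ) (hx : Unimod x) (a : ι → ℤ) :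
    ∀ (N : ℕ) (s : E → ℝ), (∀ e, 0 ≤ s e) → (∀ e, s e ≤ 1) →
      ∑ e, s e • rv (x e) = rv a →
      (univ.filter (fun e => s e ≠ 0 ∧ s e ≠ 1)).card ≤ N →
      ∃ S : Finset E, ∑ e ∈ S, x e = a := by
  intro N
  induction N with
  | zero =>
    intro s h0 h1 hs hN
    have hall : ∀ e, s e = 0 ∨ s e = 1 := by
      intro e
      by_contra hcon
      push Not at hcon
      have : e ∈ univ.filter (fun e => s e ≠ 0 ∧ s e ≠ 1) := by simp [hcon]
      have := Finset.card_pos.mpr ⟨e, this⟩
      omega
    refine ⟨univ.filter (fun e => s e = 1), ?_⟩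
    apply rv_injective
    rw [rv_sum, ← hs, Finset.sum_filter]
    refine Finset.sum_congr rfl fun e _ => ?_
    rcases hall e with h | h <;> simp [h]
  | succ N ih =>
    intro s h0 h1 hs hN
    set I := univ.filter (fun e => s e ≠ 0 ∧ s e ≠ 1) with hI
    by_cases hind : LinearIndepOn ℝ (fun e => rv (x e)) (I : Set E)
    · -- all fractional coefficients are integral, so there are none
      have hint : ∃ b : ι → ℤ, ∑ e ∈ I, s e • rv (x e) = rv b := by
        refine ⟨a - ∑ e ∈ univ.filter (fun e => s e = 1), x e, ?_⟩
        rw [rv_sub, rv_sum, ← hs, hI, Finset.sum_filter, Finset.sum_filter,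
          ← Finset.sum_sub_distrib]
        refine Finset.sum_congr rfl fun e _ => ?_
        by_cases he0 : s e = 0
        · simp [he0]
        · by_cases he1 : s e = 1
          · simp [he1]
          · simp [he0, he1]
      have hz := hx I hind s hint
      have hIe : I = ∅ := by
        rw [Finset.eq_empty_iff_forall_notMem]
        intro e he
        obtain ⟨z, hz'⟩ := hz e he
        rw [hI, Finset.mem_filter] at he
        have h2 := h0 e
        have h3 := h1 e
        rw [hz'] at h2 h3
        have h4 : (0:ℤ) ≤ z := by exact_mod_cast h2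
        have h5 : z ≤ 1 := by exact_mod_cast h3
        have h6 : z = 0 ∨ z = 1 := by omega
        rcases h6 with h6 | h6
        · exact he.2.1 (by rw [hz', h6]; simp)
        · exact he.2.2 (by rw [hz', h6]; simp)
      exact ih s h0 h1 hs (by rw [← hI, hIe]; simp)
    · -- move along a linear relation
      rw [linearIndepOn_finset_iff] at hind
      push Not at hind
      obtain ⟨c, hc, e₀, he₀, hce₀⟩ := hind
      set T := I.filter (fun e => c e ≠ 0) with hT
      have hTne : T.Nonempty := ⟨e₀, by rw [hT, Finset.mem_filter]; exact ⟨he₀, hce₀⟩⟩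
      have hfrac : ∀ e ∈ I, 0 < s e ∧ s e < 1 := by
        intro e he
        rw [hI, Finset.mem_filter] at he
        exact ⟨lt_of_le_of_ne (h0 e) (Ne.symm he.2.1), lt_of_le_of_ne (h1 e) he.2.2⟩
      let lam : E → ℝ := fun e => if 0 < c e then (1 - s e) / c e else s e / (- c e)
      obtain ⟨e₁, he₁, hmin⟩ := Finset.exists_min_image T lam hTne
      have he₁I : e₁ ∈ I := (Finset.mem_filter.mp he₁).1
      have hce₁ : c e₁ ≠ 0 := (Finset.mem_filter.mp he₁).2
      have hlampos : 0 < lam e₁ := by
        have := hfrac e₁ he₁I
        by_cases hpos : 0 < c e₁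
        · simp only [lam, if_pos hpos]
          exact div_pos (by linarith) hpos
        · simp only [lam, if_neg hpos]
          have : c e₁ < 0 := lt_of_le_of_ne (not_lt.mp hpos) hce₁
          exact div_pos (by linarith [(hfrac e₁ he₁I).1]) (by linarith)
      let s' : E → ℝ := fun e => if e ∈ I then s e + lam e₁ * c e else s e
      have hs'I : ∀ e ∈ I, s' e = s e + lam e₁ * c e := fun e he => by simp only [s', if_pos he]
      have hs'n : ∀ e ∉ I, s' e = s e := fun e he => by simp only [s', if_neg he]
      have hbounds : ∀ e, 0 ≤ s' e ∧ s' e ≤ 1 := by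
        intro e
        by_cases he : e ∈ I
        · rw [hs'I e he]
          obtain ⟨hf0, hf1⟩ := hfrac e he
          rcases lt_trichotomy (c e) 0 with hneg | hzero | hpos
          · have hle : lam e₁ ≤ lam e := hmin e (by
              rw [hT, Finset.mem_filter]; exact ⟨he, hneg.ne⟩)
            have hlam : lam e = s e / (- c e) := by
              simp only [lam, if_neg (not_lt.mpr hneg.le)]
            rw [hlam, le_div_iff₀ (by linarith)] at hle
            constructor
            · linarith
            · nlinarith
          · rw [hzero]; constructor <;> linarith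
          · have hle : lam e₁ ≤ lam e := hmin e (by
              rw [hT, Finset.mem_filter]; exact ⟨he, hpos.ne'⟩)
            have hlam : lam e = (1 - s e) / c e := by simp only [lam, if_pos hpos]
            rw [hlam, le_div_iff₀ hpos] at hle
            constructor
            · nlinarith
            · linarith
        · rw [hs'n e he]; exact ⟨h0 e, h1 e⟩
      have he₁' : s' e₁ = 0 ∨ s' e₁ = 1 := by
        rw [hs'I e₁ he₁I]
        by_cases hpos : 0 < c e₁
        · right
          simp only [lam, if_pos hpos]
          field_simp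
          ring
        · left
          have hneg : c e₁ < 0 := lt_of_le_of_ne (not_lt.mp hpos) hce₁
          simp only [lam, if_neg hpos]
          field_simp
          ring
      have hs' : ∑ e, s' e • rv (x e) = rv a := by
        rw [← hs]
        have hsplit : ∀ e, s' e • rv (x e) = s e • rv (x e)
            + (if e ∈ I then (lam e₁ * c e) • rv (x e) else 0) := by
          intro e
          by_cases he : e ∈ I
          · rw [hs'I e he, if_pos he, add_smul]
          · rw [hs'n e he, if_neg he, add_zero]
        rw [Finset.sum_congr rfl (fun e _ => hsplit e), Finset.sum_add_distrib,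
          ← Finset.sum_filter, Finset.filter_mem_eq_inter, Finset.univ_inter]
        have : ∑ e ∈ I, (lam e₁ * c e) • rv (x e) = lam e₁ • ∑ e ∈ I, c e • rv (x e) := by
          rw [Finset.smul_sum]
          exact Finset.sum_congr rfl fun e _ => by rw [smul_smul]
        rw [this, hc, smul_zero, add_zero]
      refine ih s' (fun e => (hbounds e).1) (fun e => (hbounds e).2) hs' ?_
      have hsub : univ.filter (fun e => s' e ≠ 0 ∧ s' e ≠ 1) ⊆ I.erase e₁ := by
        intro e he
        rw [Finset.mem_filter] at he
        rw [Finset.mem_erase]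
        constructor
        · rintro rfl
          rcases he₁' with h | h
          · exact he.2.1 h
          · exact he.2.2 h
        · by_contra hcon
          rw [hs'n e hcon] at he
          apply hcon
          rw [hI, Finset.mem_filter]
          exact he
      have h7 := Finset.card_le_card hsub
      rw [Finset.card_erase_of_mem he₁I] at h7
      omega

/-- From a spanning subfamily one can select a basis. -/
theorem exists_basis_of_span (x : E → ι → ℤ) (I : Finset E)
    (hI : Submodule.span ℝ ((fun e => rv (x e)) '' (I : Set E)) = ⊤) :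
    ∃ c : ι → E, Function.Injective c ∧ (∀ i, c i ∈ I) ∧
      (Matrix.of (fun i => x (c i))).det ≠ 0 := by
  classical
  obtain ⟨b, hbs, hbspan, hbind⟩ :=
    exists_linearIndependent ℝ ((fun e => rv (x e)) '' (I : Set E))
  rw [hI] at hbspan
  have hbfin : b.Finite := (Set.Finite.image _ (Finset.finite_toSet I)).subset hbs
  have : Fintype b := hbfin.fintype
  have hbasis := Module.Basis.mk hbind (by
    rw [Subtype.range_coe_subtype]
    simp only [Set.ofPred_mem_eq]
    exact hbspan.ge)
  have hcard : Fintype.card b = Fintype.card ι := by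
    have h1 := Module.finrank_eq_card_basis hbasis
    rw [Module.finrank_fintype_fun_eq_card] at h1
    exact h1.symm
  let φ : ι ≃ b := (Fintype.equivOfCardEq hcard).symm
  have hpre : ∀ y : b, ∃ e ∈ I, rv (x e) = y := by
    intro y
    obtain ⟨e, he, hey⟩ := hbs y.2
    exact ⟨e, he, hey⟩
  choose g hgI hg using hpre
  refine ⟨fun i => g (φ i), ?_, fun i => hgI _, ?_⟩
  · intro i j hij
    apply φ.injective
    apply Subtype.ext
    rw [← hg (φ i), ← hg (φ j)]
    simp only at hij
    rw [hij]
  · intro hdet
    have hlin : LinearIndependent ℝ (fun i => rv (x (g (φ i)))) := by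
      have h1 : (fun i => rv (x (g (φ i)))) = (fun y : b => (y : ι → ℝ)) ∘ φ := by
        funext i
        simp only [Function.comp]
        exact hg (φ i)
      rw [h1]
      exact hbind.comp φ φ.injective
    have h2 : LinearIndependent ℝ (((Matrix.of (fun i => x (g (φ i)))).map
        (Int.cast : ℤ → ℝ)).row) := hlin
    rw [Matrix.linearIndependent_rows_iff_isUnit, Matrix.isUnit_iff_isUnit_det,
      isUnit_iff_ne_zero] at h2
    apply h2
    have h3 : ((Matrix.of (fun i => x (g (φ i)))).map (Int.cast : ℤ → ℝ)).det
        = (((Matrix.of (fun i => x (g (φ i)))).det : ℤ) : ℝ) :=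
      (Int.cast_det (R := ℝ) (Matrix.of (fun i => x (g (φ i))))).symm
    rw [h3, hdet]
    simp

/-- **Subset sums modulo `m`** for unimodular configurations: if the configuration contains `m`
pairwise disjoint spanning subfamilies, then every integer vector is congruent modulo `m` to a
subset sum. -/
theorem subset_sum_mod (x : E → ι → ℤ) (hx : Unimod x) (m : ℕ) (hm : 0 < m)
    (I : Fin m → Finset E) (hd : ∀ i j, i ≠ j → Disjoint (I i) (I j))
    (hI : ∀ j, Submodule.span ℝ ((fun e => rv (x e)) '' (I j : Set E)) = ⊤) (v : ι → ℤ) :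
    ∃ (S : Finset E) (a : ι → ℤ), ∑ e ∈ S, x e = v - (m : ℤ) • a := by
  classical
  have hbas := fun j => exists_basis_of_span x (I j) (hI j)
  choose c hcinj hcI hcdet using hbas
  have hmR : (0:ℝ) < m := by exact_mod_cast hm
  set t : ι → ℝ := (1 / (m : ℝ)) • (rv v - (1 / 2 : ℝ) • ∑ e, rv (x e)) with ht
  obtain ⟨a, τ, hτ, hsum⟩ := covering (fun _ : Fin m => 1 / (m : ℝ)) (fun _ => by positivity)
    (by simp; field_simp) (fun j i => x (c j i)) hcdet t
  let cc : Fin m × ι → E := fun p => c p.1 p.2
  have hcc : Function.Injective cc := by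
    rintro ⟨j, i⟩ ⟨j', i'⟩ h
    simp only [cc] at h
    have hjj : j = j' := by
      by_contra hne
      exact Finset.disjoint_left.mp (hd j j' hne) (hcI j i) (h ▸ hcI j' i')
    subst hjj
    rw [hcinj j h]
  let g : E → ℝ := Function.extend cc (fun p => τ p.1 p.2) 0
  have hgc : ∀ p, g (cc p) = τ p.1 p.2 := fun p => hcc.extend_apply _ _ p
  have hgn : ∀ e, (¬ ∃ p, cc p = e) → g e = 0 := fun e he => by
    simp only [g]; rw [Function.extend_apply' _ _ _ he]; rfl
  have hgb : ∀ e, |g e| ≤ 1 / (2 * m) := by
    intro e
    by_cases he : ∃ p, cc p = e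
    · obtain ⟨p, rfl⟩ := he
      rw [hgc]
      refine (hτ p.1 p.2).trans (le_of_eq ?_)
      field_simp
    · rw [hgn e he]; simp
  have hgs : ∑ e, g e • rv (x e) = t - rv a := by
    rw [hsum, ← Finset.sum_product', Finset.univ_product_univ]
    rw [← Finset.sum_subset (Finset.subset_univ (univ.image cc)),
      Finset.sum_image (fun p _ q _ h => hcc h)]
    · exact Finset.sum_congr rfl fun p _ => by rw [hgc]
    · intro e _ he
      rw [hgn e (by
        rintro ⟨p, hp⟩
        exact he (Finset.mem_image.mpr ⟨p, Finset.mem_univ _, hp⟩)), zero_smul]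
  have hfin : ∑ e, ((1 / 2 : ℝ) + m * g e) • rv (x e) = rv (v - (m : ℤ) • a) := by
    have h1 : ∑ e, ((1 / 2 : ℝ) + m * g e) • rv (x e)
        = (1 / 2 : ℝ) • ∑ e, rv (x e) + (m : ℝ) • ∑ e, g e • rv (x e) := by
      rw [Finset.smul_sum, Finset.smul_sum, ← Finset.sum_add_distrib]
      exact Finset.sum_congr rfl fun e _ => by rw [add_smul, smul_smul]
    rw [h1, hgs, ht, smul_sub, smul_smul]
    have h2 : (m : ℝ) * (1 / (m : ℝ)) = 1 := by field_simp
    rw [h2, one_smul]
    ext k
    simp only [rv, Pi.add_apply, Pi.smul_apply, Pi.sub_apply, Finset.sum_apply, smul_eq_mul,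
      Int.cast_sub, Int.cast_mul, Int.cast_natCast]
    ring
  obtain ⟨S, hS⟩ := rounding x hx (v - (m : ℤ) • a) _ (fun e => (1 / 2 : ℝ) + m * g e)
    (fun e => by
      have h1 := abs_le.mp (hgb e)
      have h2 : (m : ℝ) * (-(1 / (2 * m))) ≤ m * g e := mul_le_mul_of_nonneg_left h1.1 hmR.le
      have h3 : (m : ℝ) * (-(1 / (2 * m))) = -(1 / 2) := by field_simp
      linarith)
    (fun e => by
      have h1 := abs_le.mp (hgb e)
      have h2 : (m : ℝ) * g e ≤ m * (1 / (2 * m)) := mul_le_mul_of_nonneg_left h1.2 hmR.le
      have h3 : (m : ℝ) * (1 / (2 * m)) = 1 / 2 := by field_simp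
      linarith) hfin le_rfl
  exact ⟨S, a, hS⟩

end Pool.Agent.H239R2.Cover
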