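import Pool.Agent.H239R2.Cover.PlanarDefs

set_option autoImplicit false

/-!
Sparsity of all vertex sets implies sparsity with respect to the rank.
-/

namespace Pool.Agent.H239R2.Cover

open Finset
open Pool.Agent.H239R2.Planar (rk)

variable {V : Type} [Fintype V]

open Classical in
theorem rank_sparse_of_vertex_sparse (G : SimpleGraph V) (a b : ℕ)
    (h : ∀ D : Finset V, D.Nonempty →
      a * Nat.card {e : Sym2 V // e ∈ G.edgeSet ∧ ∀ v ∈ e, v ∈ D} + b ≤ b * D.card)
    (A : Finset (Sym2 V)) (hA : (A : Set (Sym2 V)) ⊆ G.edgeSet) :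
    a * A.card ≤ b * rk A := by
  set S : Submodule ℚ (V → ℚ) := Submodule.span ℚ
    {x : V → ℚ | ∃ u v : V, s(u, v) ∈ A ∧ x = Pi.single u 1 - Pi.single v 1} with hS
  let d : V → V → ℚ := fun v => Pi.single v 1
  let cls : V → Finset V := fun v => univ.filter (fun w => d w - d v ∈ S)
  have hmem : ∀ v w, w ∈ cls v ↔ d w - d v ∈ S := by
    intro v w; simp [cls]
  have hrefl : ∀ v, v ∈ cls v := fun v => by rw [hmem, sub_self]; exact S.zero_mem
  have hsymm : ∀ v w, w ∈ cls v → v ∈ cls w := by
    intro v w h
    rw [hmem] at h ⊢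
    have := S.neg_mem h
    rwa [neg_sub] at this
  have htrans : ∀ u v w, v ∈ cls u → w ∈ cls v → w ∈ cls u := by
    intro u v w h1 h2
    rw [hmem] at h1 h2 ⊢
    have := S.add_mem h2 h1
    rwa [sub_add_sub_cancel] at this
  have heq : ∀ v w, w ∈ cls v → cls w = cls v := by
    intro v w h
    ext u
    exact ⟨fun hu => htrans v w u h hu, fun hu => htrans w v u (hsymm v w h) hu⟩
  let P : Finset (Finset V) := univ.image cls
  have hP : ∀ C ∈ P, ∃ v, cls v = C := by
    intro C hC
    obtain ⟨v, _, hv⟩ := Finset.mem_image.mp hC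
    exact ⟨v, hv⟩
  -- the edges of `A` lie inside the classes
  have hcover : A ⊆ P.biUnion (fun C => (univ.filter
      (fun e : Sym2 V => e ∈ G.edgeSet ∧ ∀ v ∈ e, v ∈ C))) := by
    intro e he
    rw [Finset.mem_biUnion]
    have heG : e ∈ G.edgeSet := hA he
    induction e using Sym2.ind with
    | _ u v =>
      refine ⟨cls u, Finset.mem_image_of_mem _ (Finset.mem_univ _), ?_⟩
      rw [Finset.mem_filter]
      refine ⟨Finset.mem_univ _, heG, ?_⟩
      intro w hw
      rw [Sym2.mem_iff] at hw
      rcases hw with rfl | rfl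
      · exact hrefl _
      · apply hsymm
        rw [hmem]
        exact Submodule.subset_span ⟨u, w, he, rfl⟩
  have hcard1 : A.card ≤ ∑ C ∈ P, (univ.filter
      (fun e : Sym2 V => e ∈ G.edgeSet ∧ ∀ v ∈ e, v ∈ C)).card :=
    (Finset.card_le_card hcover).trans Finset.card_biUnion_le
  have hC : ∀ C ∈ P, a * (univ.filter
      (fun e : Sym2 V => e ∈ G.edgeSet ∧ ∀ v ∈ e, v ∈ C)).card + b ≤ b * C.card := by
    intro C hC
    obtain ⟨v, rfl⟩ := hP C hC
    have h1 := h (cls v) ⟨v, hrefl v⟩
    rw [Nat.card_eq_fintype_card, Fintype.card_subtype] at h1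
    exact h1
  have hsumC : ∑ C ∈ P, C.card = Fintype.card V := by
    have h1 : ∀ C ∈ P, C.card = (univ.filter (fun v => cls v = C)).card := by
      intro C hC
      obtain ⟨w, rfl⟩ := hP C hC
      congr 1
      ext v
      simp only [Finset.mem_filter, Finset.mem_univ, true_and]
      constructor
      · intro hv; exact heq w v hv
      · intro hv; rw [← hv]; exact hrefl v
    rw [Finset.sum_congr rfl h1, ← Finset.card_eq_sum_card_fiberwise]
    · exact Finset.card_univ
    · intro v _
      exact Finset.mem_coe.mpr (Finset.mem_image_of_mem _ (Finset.mem_univ _))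
  have hmain : a * A.card + b * P.card ≤ b * Fintype.card V := by
    calc a * A.card + b * P.card
        ≤ a * (∑ C ∈ P, (univ.filter
            (fun e : Sym2 V => e ∈ G.edgeSet ∧ ∀ v ∈ e, v ∈ C)).card) + b * P.card := by
          have := Nat.mul_le_mul_left a hcard1
          omega
      _ = ∑ C ∈ P, (a * (univ.filter
            (fun e : Sym2 V => e ∈ G.edgeSet ∧ ∀ v ∈ e, v ∈ C)).card + b) := by
          rw [Finset.sum_add_distrib, Finset.mul_sum, Finset.sum_const, smul_eq_mul, mul_comm b]
      _ ≤ ∑ C ∈ P, b * C.card := Finset.sum_le_sum hC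
      _ = b * Fintype.card V := by rw [← Finset.mul_sum, hsumC]
  -- the rank
  have hdim : Fintype.card V ≤ rk A + P.card := by
    let rv : Finset V → (V → ℚ) := fun C => if h : C.Nonempty then d h.choose else 0
    set T : Finset (V → ℚ) := P.image rv with hT
    have hall : ∀ v, d v ∈ S ⊔ Submodule.span ℚ (T : Set (V → ℚ)) := by
      intro v
      have hne : (cls v).Nonempty := ⟨v, hrefl v⟩
      have h1 : rv (cls v) - d v ∈ S := by
        simp only [rv, dif_pos hne]
        exact (hmem _ _).mp hne.choose_spec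
      have h2 : rv (cls v) ∈ S ⊔ Submodule.span ℚ (T : Set (V → ℚ)) := by
        apply Submodule.mem_sup_right
        apply Submodule.subset_span
        rw [hT, Finset.coe_image]
        exact ⟨cls v, Finset.mem_coe.mpr (Finset.mem_image_of_mem _ (Finset.mem_univ _)), rfl⟩
      have h3 : d v = rv (cls v) - (rv (cls v) - d v) := by abel
      rw [h3]
      exact Submodule.sub_mem _ h2 (Submodule.mem_sup_left h1)
    have htop : S ⊔ Submodule.span ℚ (T : Set (V → ℚ)) = ⊤ := by
      rw [eq_top_iff]
      intro x _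
      have hx : x = ∑ u : V, x u • d u := by
        ext w
        simp [d, Finset.sum_apply, Pi.single_apply]
      rw [hx]
      exact Submodule.sum_mem _ fun u _ => Submodule.smul_mem _ _ (hall _)
    have h1 := Submodule.finrank_add_le_finrank_add_finrank S
      (Submodule.span ℚ (T : Set (V → ℚ)))
    rw [htop, finrank_top, Module.finrank_fintype_fun_eq_card] at h1
    have h2 : Module.finrank ℚ (Submodule.span ℚ (T : Set (V → ℚ))) ≤ T.card :=
      finrank_span_finset_le_card T
    have h3 : T.card ≤ P.card := Finset.card_image_le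
    have h4 : rk A = Module.finrank ℚ S := rfl
    omega
  have h2 := Nat.mul_le_mul_left b hdim
  rw [mul_add] at h2
  omega

end Pool.Agent.H239R2.Cover
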