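import Pool.Agent.H239R2.Cover.AMGM

namespace Pool.Agent.H239R2.Cover

open Matrix Finset
open scoped MatrixOrder

set_option linter.unusedSectionVars false

variable {ι J : Type} [Fintype ι] [DecidableEq ι] [Fintype J]

/-- An integral vector as a real vector. -/
def rv (x : ι → ℤ) : ι → ℝ := fun k => (x k : ℝ)

/-- The potential `F(Q) = ∑ μ_j ∑_i log (b_{ji}ᵀ Q b_{ji}) - log det Q`. -/
noncomputable def pot (μ : J → ℝ) (b : J → ι → ι → ℤ) (Q : Matrix ι ι ℝ) : ℝ :=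
  ∑ j, μ j * ∑ i, Real.log (qf Q (rv (b j i))) - Real.log Q.det

/-- The matrix `P = ∑ (μ_j / b_{ji}ᵀ Q b_{ji}) b_{ji} b_{ji}ᵀ`. -/
noncomputable def grad (μ : J → ℝ) (b : J → ι → ι → ℤ) (Q : Matrix ι ι ℝ) : Matrix ι ι ℝ :=
  ∑ j, ∑ i, (μ j / qf Q (rv (b j i))) • vecMulVec (rv (b j i)) (rv (b j i))

theorem pot_nonneg (μ : J → ℝ) (hμ : ∀ j, 0 < μ j) (hs : ∑ j, μ j = 1) (b : J → ι → ι → ℤ)
    (hb : ∀ j, (Matrix.of (b j)).det ≠ 0) (Q : Matrix ι ι ℝ) (hQ : Q.PosDef) :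
    0 ≤ pot μ b Q := by
  unfold pot
  have h1 : Real.log Q.det = ∑ j, μ j * Real.log Q.det := by
    rw [← Finset.sum_mul, hs, one_mul]
  rw [h1, ← Finset.sum_sub_distrib]
  refine Finset.sum_nonneg fun j _ => ?_
  have := log_det_le Q hQ (b j) (hb j)
  rw [← mul_sub]
  refine mul_nonneg (hμ j).le ?_
  unfold rv
  linarith

theorem rv_ne_zero {b : ι → ι → ℤ} (hb : (Matrix.of b).det ≠ 0) (i : ι) : rv (b i) ≠ 0 := by
  intro h0
  apply hb
  refine det_eq_zero_of_row_eq_zero i (fun j => ?_)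
  have := congrFun h0 j
  simpa [rv] using this

theorem grad_mulVec (μ : J → ℝ) (b : J → ι → ι → ℤ) (Q : Matrix ι ι ℝ) (x : ι → ℝ) :
    grad μ b Q *ᵥ x
      = ∑ j, ∑ i, ((μ j / qf Q (rv (b j i))) * (rv (b j i) ⬝ᵥ x)) • rv (b j i) := by
  unfold grad
  rw [Matrix.sum_mulVec]
  refine Finset.sum_congr rfl fun j _ => ?_
  rw [Matrix.sum_mulVec]
  refine Finset.sum_congr rfl fun i _ => ?_
  rw [Matrix.smul_mulVec, vecMulVec_mulVec]
  ext k
  simp only [Pi.smul_apply, smul_eq_mul, MulOpposite.smul_eq_mul_unop, MulOpposite.unop_op]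
  ring

theorem qf_grad (μ : J → ℝ) (b : J → ι → ι → ℤ) (Q : Matrix ι ι ℝ) (x : ι → ℝ) :
    x ⬝ᵥ (grad μ b Q *ᵥ x)
      = ∑ j, ∑ i, (μ j / qf Q (rv (b j i))) * (rv (b j i) ⬝ᵥ x) ^ 2 := by
  rw [grad_mulVec, dotProduct_sum]
  refine Finset.sum_congr rfl fun j _ => ?_
  rw [dotProduct_sum]
  refine Finset.sum_congr rfl fun i _ => ?_
  rw [dotProduct_smul, dotProduct_comm x, smul_eq_mul]
  ring

theorem trace_mul_vecMulVec (M : Matrix ι ι ℝ) (x : ι → ℝ) :
    (M * vecMulVec x x).trace = qf M x := by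
  rw [Matrix.mul_vecMulVec, trace_vecMulVec, qf, dotProduct_comm]

theorem trace_mul_grad (μ : J → ℝ) (b : J → ι → ι → ℤ) (Q M : Matrix ι ι ℝ) :
    (M * grad μ b Q).trace
      = ∑ j, ∑ i, (μ j / qf Q (rv (b j i))) * qf M (rv (b j i)) := by
  unfold grad
  rw [Finset.mul_sum, trace_sum]
  refine Finset.sum_congr rfl fun j _ => ?_
  rw [Finset.mul_sum, trace_sum]
  refine Finset.sum_congr rfl fun i _ => ?_
  rw [Matrix.mul_smul, trace_smul, trace_mul_vecMulVec, smul_eq_mul]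

theorem grad_posDef (μ : J → ℝ) (hμ : ∀ j, 0 < μ j) (hs : ∑ j, μ j = 1) (b : J → ι → ι → ℤ)
    (hb : ∀ j, (Matrix.of (b j)).det ≠ 0) (Q : Matrix ι ι ℝ) (hQ : Q.PosDef) :
    (grad μ b Q).PosDef := by
  have hq : ∀ j i, 0 < qf Q (rv (b j i)) := fun j i => qf_pos hQ (rv_ne_zero (hb j) i)
  refine Matrix.PosDef.of_dotProduct_mulVec_pos ?_ ?_
  · unfold grad
    rw [Matrix.IsHermitian, conjTranspose_sum]
    refine Finset.sum_congr rfl fun j _ => ?_
    rw [conjTranspose_sum]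
    refine Finset.sum_congr rfl fun i _ => ?_
    rw [conjTranspose_smul]
    congr 1
    ext k l
    simp [vecMulVec_apply, mul_comm]
  · intro x hx
    rw [star_trivial, qf_grad]
    have hnn : ∀ j i, 0 ≤ (μ j / qf Q (rv (b j i))) * (rv (b j i) ⬝ᵥ x) ^ 2 := fun j i =>
      mul_nonneg (div_pos (hμ j) (hq j i)).le (sq_nonneg _)
    have hJ : Nonempty J := by
      by_contra hne
      rw [not_nonempty_iff] at hne
      simp at hs
    obtain ⟨j₀⟩ := hJ
    -- some `b_{j₀ i}` is not orthogonal to `x`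
    have hex : ∃ i, rv (b j₀ i) ⬝ᵥ x ≠ 0 := by
      by_contra hall
      push Not at hall
      have hdet : ((Matrix.of (b j₀)).map (Int.cast : ℤ → ℝ)).det ≠ 0 := by
        have h1 : ((Matrix.of (b j₀)).map (Int.cast : ℤ → ℝ)).det
            = (((Matrix.of (b j₀)).det : ℤ) : ℝ) :=
          (Int.cast_det (R := ℝ) (Matrix.of (b j₀))).symm
        rw [h1]
        exact_mod_cast hb j₀
      apply hx
      apply Matrix.eq_zero_of_mulVec_eq_zero hdet
      ext i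
      exact hall i
    obtain ⟨i₀, hi₀⟩ := hex
    calc (0:ℝ) < (μ j₀ / qf Q (rv (b j₀ i₀))) * (rv (b j₀ i₀) ⬝ᵥ x) ^ 2 :=
          mul_pos (div_pos (hμ _) (hq _ _)) (by positivity)
      _ ≤ ∑ i, (μ j₀ / qf Q (rv (b j₀ i))) * (rv (b j₀ i) ⬝ᵥ x) ^ 2 :=
          Finset.single_le_sum (f := fun i => (μ j₀ / qf Q (rv (b j₀ i))) * (rv (b j₀ i) ⬝ᵥ x) ^ 2)
            (fun i _ => hnn j₀ i) (Finset.mem_univ i₀)
      _ ≤ _ :=
          Finset.single_le_sum
            (f := fun j => ∑ i, (μ j / qf Q (rv (b j i))) * (rv (b j i) ⬝ᵥ x) ^ 2)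
            (fun j _ => Finset.sum_nonneg fun i _ => hnn j i) (Finset.mem_univ j₀)

/-- `(√r - 1)² ≤ r - 1 - log r`. -/
theorem sqrt_sub_one_sq_le (r : ℝ) (hr : 0 < r) :
    (Real.sqrt r - 1) ^ 2 ≤ r - 1 - Real.log r := by
  have hs : 0 < Real.sqrt r := Real.sqrt_pos.mpr hr
  have h1 : Real.log r = 2 * Real.log (Real.sqrt r) := by
    rw [Real.log_sqrt hr.le]; ring
  have h2 : Real.log (Real.sqrt r) ≤ Real.sqrt r - 1 := Real.log_le_sub_one_of_pos hs
  have h3 : Real.sqrt r ^ 2 = r := Real.sq_sqrt hr.le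
  nlinarith

/-- Near-stationary forms: for every `ε > 0` there is a positive definite `Q` such that, with
`P = grad Q`, all ratios `b_{ji}ᵀ P⁻¹ b_{ji} / b_{ji}ᵀ Q b_{ji}` are at most `1 + ε`. -/
theorem exists_near_stationary (μ : J → ℝ) (hμ : ∀ j, 0 < μ j) (hs : ∑ j, μ j = 1)
    (b : J → ι → ι → ℤ) (hb : ∀ j, (Matrix.of (b j)).det ≠ 0) (ε : ℝ) (hε : 0 < ε) :
    ∃ Q : Matrix ι ι ℝ, Q.PosDef ∧
      ∀ j i, qf (grad μ b Q)⁻¹ (rv (b j i)) ≤ (1 + ε) * qf Q (rv (b j i)) := by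
  classical
  -- choose `η` with `(1+η)² ≤ 1 + ε`
  obtain ⟨η, hη, hηε⟩ : ∃ η : ℝ, 0 < η ∧ (1 + η) ^ 2 ≤ 1 + ε := by
    refine ⟨min 1 (ε / 3), lt_min one_pos (by linarith), ?_⟩
    have h1 : min 1 (ε / 3) ≤ 1 := min_le_left _ _
    have h2 : min 1 (ε / 3) ≤ ε / 3 := min_le_right _ _
    have h3 : 0 < min 1 (ε / 3) := lt_min one_pos (by linarith)
    nlinarith
  have hJ : Nonempty J := by
    by_contra hne
    rw [not_nonempty_iff] at hne
    simp at hs
  obtain ⟨m, hm0, hm⟩ : ∃ m : ℝ, 0 < m ∧ ∀ j, m ≤ μ j := by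
    obtain ⟨j₀, _, hj₀⟩ := Finset.exists_min_image Finset.univ μ
      (Finset.univ_nonempty_iff.mpr hJ)
    exact ⟨μ j₀, hμ j₀, fun j => hj₀ j (Finset.mem_univ j)⟩
  set δ : ℝ := m * η ^ 2 with hδ
  have hδ0 : 0 < δ := by positivity
  set S : Set ℝ := {y | ∃ Q : Matrix ι ι ℝ, Q.PosDef ∧ y = pot μ b Q} with hS
  have hSne : S.Nonempty := ⟨_, 1, Matrix.PosDef.one, rfl⟩
  have hSbdd : BddBelow S := ⟨0, by
    rintro y ⟨Q, hQ, rfl⟩
    exact pot_nonneg μ hμ hs b hb Q hQ⟩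
  obtain ⟨y, ⟨Q, hQ, rfl⟩, hy⟩ := exists_lt_of_csInf_lt hSne
    (show sInf S < sInf S + δ by linarith)
  refine ⟨Q, hQ, ?_⟩
  set P := grad μ b Q with hPdef
  have hP : P.PosDef := grad_posDef μ hμ hs b hb Q hQ
  have hR : P⁻¹.PosDef := hP.inv
  have hinf : sInf S ≤ pot μ b P⁻¹ := csInf_le hSbdd ⟨_, hR, rfl⟩
  have hlt : pot μ b Q < pot μ b P⁻¹ + δ := by linarith
  have hq : ∀ j i, 0 < qf Q (rv (b j i)) := fun j i => qf_pos hQ (rv_ne_zero (hb j) i)
  have hr : ∀ j i, 0 < qf P⁻¹ (rv (b j i)) := fun j i => qf_pos hR (rv_ne_zero (hb j) i)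
  -- traces
  have hPunit : IsUnit P.det := by
    exact (Matrix.isUnit_iff_isUnit_det _).mp hP.isUnit
  have htr1 : ∑ j, ∑ i, (μ j / qf Q (rv (b j i))) * qf P⁻¹ (rv (b j i)) = Fintype.card ι := by
    rw [← trace_mul_grad μ b Q P⁻¹, ← hPdef, Matrix.nonsing_inv_mul _ hPunit, trace_one]
  have htr2 : (Q * P).trace = Fintype.card ι := by
    rw [hPdef, trace_mul_grad μ b Q Q]
    have : ∀ j i, μ j / qf Q (rv (b j i)) * qf Q (rv (b j i)) = μ j := fun j i =>
      div_mul_cancel₀ _ (hq j i).ne'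
    simp only [this, Finset.sum_const, Finset.card_univ, nsmul_eq_mul]
    rw [← Finset.mul_sum, hs, mul_one]
  have hdet : Q.det * P.det ≤ 1 := det_mul_le_one Q P hQ.posSemidef hP.posSemidef htr2
  have hlogdet : Real.log Q.det + Real.log P.det ≤ 0 := by
    rw [← Real.log_mul hQ.det_pos.ne' hP.det_pos.ne']
    exact Real.log_nonpos (mul_pos hQ.det_pos hP.det_pos).le hdet
  have hlogR : Real.log P⁻¹.det = - Real.log P.det := by
    rw [Matrix.det_nonsing_inv, Ring.inverse_eq_inv', Real.log_inv]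
  -- the deficits
  set r : J → ι → ℝ := fun j i => qf P⁻¹ (rv (b j i)) / qf Q (rv (b j i)) with hrdef
  have hrpos : ∀ j i, 0 < r j i := fun j i => div_pos (hr j i) (hq j i)
  have hsum1 : ∑ j, ∑ i, μ j * r j i = Fintype.card ι := by
    rw [← htr1]
    refine Finset.sum_congr rfl fun j _ => Finset.sum_congr rfl fun i _ => ?_
    simp only [hrdef]
    ring
  have hsum2 : -δ ≤ ∑ j, ∑ i, μ j * Real.log (r j i) := by
    have e1 : ∑ j, ∑ i, μ j * Real.log (r j i)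
        = ∑ j, μ j * ∑ i, Real.log (qf P⁻¹ (rv (b j i)))
          - ∑ j, μ j * ∑ i, Real.log (qf Q (rv (b j i))) := by
      rw [← Finset.sum_sub_distrib]
      refine Finset.sum_congr rfl fun j _ => ?_
      rw [← mul_sub, ← Finset.sum_sub_distrib, Finset.mul_sum]
      refine Finset.sum_congr rfl fun i _ => ?_
      simp only [hrdef]
      rw [Real.log_div (hr j i).ne' (hq j i).ne']
    rw [e1]
    unfold pot at hlt
    rw [hlogR] at hlt
    linarith
  have hsum3 : ∑ j, ∑ i, μ j * (r j i - 1 - Real.log (r j i)) ≤ δ := by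
    have e2 : ∑ j, ∑ i, μ j * (r j i - 1 - Real.log (r j i))
        = ∑ j, ∑ i, μ j * r j i - ∑ j, ∑ _i : ι, μ j - ∑ j, ∑ i, μ j * Real.log (r j i) := by
      simp only [← Finset.sum_sub_distrib]
      refine Finset.sum_congr rfl fun j _ => Finset.sum_congr rfl fun i _ => by ring
    have e3 : ∑ j, ∑ _i : ι, μ j = Fintype.card ι := by
      simp only [Finset.sum_const, Finset.card_univ, nsmul_eq_mul]
      rw [← Finset.mul_sum, hs, mul_one]
    rw [e2, hsum1, e3]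
    linarith
  have hterm : ∀ j i, 0 ≤ μ j * (r j i - 1 - Real.log (r j i)) := fun j i =>
    mul_nonneg (hμ j).le ((sq_nonneg _).trans (sqrt_sub_one_sq_le _ (hrpos j i)))
  intro j i
  have hone : μ j * (r j i - 1 - Real.log (r j i)) ≤ δ := by
    refine le_trans ?_ hsum3
    calc μ j * (r j i - 1 - Real.log (r j i))
        ≤ ∑ i, μ j * (r j i - 1 - Real.log (r j i)) :=
          Finset.single_le_sum (f := fun i => μ j * (r j i - 1 - Real.log (r j i)))
            (fun i _ => hterm j i) (Finset.mem_univ i)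
      _ ≤ _ := Finset.single_le_sum
            (f := fun j => ∑ i, μ j * (r j i - 1 - Real.log (r j i)))
            (fun j _ => Finset.sum_nonneg fun i _ => hterm j i) (Finset.mem_univ j)
  have hsq : (Real.sqrt (r j i) - 1) ^ 2 ≤ η ^ 2 := by
    have h1 := sqrt_sub_one_sq_le (r j i) (hrpos j i)
    have h2 : m * (Real.sqrt (r j i) - 1) ^ 2 ≤ m * η ^ 2 := by
      calc m * (Real.sqrt (r j i) - 1) ^ 2 ≤ μ j * (r j i - 1 - Real.log (r j i)) :=
            mul_le_mul (hm j) h1 (sq_nonneg _) (hμ j).le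
        _ ≤ m * η ^ 2 := hone
    exact le_of_mul_le_mul_left h2 hm0
  have hsqrt : Real.sqrt (r j i) ≤ 1 + η := by
    have := abs_le_of_sq_le_sq' hsq hη.le
    linarith [this.2]
  have hrle : r j i ≤ 1 + ε := by
    have h1 : r j i = Real.sqrt (r j i) ^ 2 := (Real.sq_sqrt (hrpos j i).le).symm
    have h0 : 0 ≤ Real.sqrt (r j i) := Real.sqrt_nonneg _
    rw [h1]
    nlinarith
  have : qf P⁻¹ (rv (b j i)) = r j i * qf Q (rv (b j i)) := by
    simp only [hrdef]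
    rw [div_mul_cancel₀ _ (hq j i).ne']
  rw [this]
  exact mul_le_mul_of_nonneg_right hrle (hq j i).le

end Pool.Agent.H239R2.Cover
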